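import Pool.Agent.W887.CG.Group

/-!
# Counting the ground states: injective colourings of the heads times pairs of permutations
-/

namespace Pool.Agent.W887.CG

open Finset

/-- the colourings of the parts with class sums `0` or `B`, the part `i0` having colour `0` -/
def NF (K : Type*) [Fintype K] [DecidableEq K] [Zero K] {I : Type*} [Fintype I] [DecidableEq I]
    (a : I → ℕ) (B : ℕ) (i0 : I) : Finset (I → K) :=
  univ.filter fun f => f i0 = 0 ∧ ∀ c, (∑ i ∈ univ.filter (fun i => f i = c), a i) = 0 ∨
      (∑ i ∈ univ.filter (fun i => f i = c), a i) = B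

section Count

variable {n : ℕ} {E D : Type} [Fintype E] [DecidableEq E] [Fintype D] [DecidableEq D]
  (K : Type*) [Fintype K] [DecidableEq K] [Zero K]

/-- injective colourings with a fixed value -/
def Inj (X : Type) [Fintype X] [DecidableEq X] (x0 : X) : Finset (X → K) :=
  univ.filter fun g => Function.Injective g ∧ g x0 = 0

/-- the pairs of permutations -/
def PP (row col : E → Fin n) (R C : E → Bool) : Finset (Equiv.Perm E × Equiv.Perm E) :=
  univ.filter fun p => ∀ e, row (p.1 e) = row e ∧ col (p.2 e) = col e ∧ R (p.1 e) = C (p.2 e)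

/-- the colouring of the items determined by the colouring of the heads and two permutations -/
def comb (g : E ⊕ D → K) (p : Equiv.Perm E × Equiv.Perm E) : (E ⊕ D) ⊕ (E ⊕ E) → K :=
  Sum.elim g (Sum.elim (fun r => g (.inl (p.1.symm r))) fun s => g (.inl (p.2.symm s)))

variable {K}

theorem comb_mem {t : ℕ} {row col : E → Fin n} {R C : E → Bool} {e0 : E}
    {g : E ⊕ D → K} (hg : g ∈ Inj K (E ⊕ D) (.inl e0)) {p : Equiv.Perm E × Equiv.Perm E}
    (hp : p ∈ PP row col R C) :
    comb K g p ∈ NF K (sI (D := D) t row col R C) (t * Bc n) (.inl (.inl e0)) := by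
  simp only [Inj, PP, NF, mem_filter, mem_univ, true_and] at hg hp ⊢
  refine ⟨hg.2, fun c => ?_⟩
  rw [class_sum]
  have hinj := hg.1
  have k1 : ∀ e, comb K g p (.inl (.inl e)) = g (.inl e) := fun _ => rfl
  have k2 : ∀ d, comb K g p (.inl (.inr d)) = g (.inr d) := fun _ => rfl
  have k3 : ∀ e, comb K g p (.inr (.inl e)) = g (.inl (p.1.symm e)) := fun _ => rfl
  have k4 : ∀ e, comb K g p (.inr (.inr e)) = g (.inl (p.2.symm e)) := fun _ => rfl
  simp only [k1, k2, k3, k4]
  by_cases hc : ∃ x, g x = c
  · obtain ⟨x, rfl⟩ := hc
    right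
    cases x with
    | inl e =>
      have f1 : (univ.filter fun e' => g (.inl e') = g (.inl e)) = {e} := by
        ext e'
        simp only [mem_filter, mem_univ, true_and, mem_singleton]
        exact ⟨fun h => Sum.inl_injective (hinj h), fun h => by rw [h]⟩
      have f2 : (univ.filter fun d => g (.inr d) = g (.inl e)) = ∅ := by
        ext d
        simp only [mem_filter, mem_univ, true_and, notMem_empty, iff_false]
        intro h
        exact Sum.inr_ne_inl (hinj h)
      have f3 : (univ.filter fun r => g (.inl (p.1.symm r)) = g (.inl e)) = {p.1 e} := by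
        ext r
        simp only [mem_filter, mem_univ, true_and, mem_singleton]
        constructor
        · intro h
          rw [← Sum.inl_injective (hinj h), Equiv.apply_symm_apply]
        · rintro rfl
          rw [Equiv.symm_apply_apply]
      have f4 : (univ.filter fun r => g (.inl (p.2.symm r)) = g (.inl e)) = {p.2 e} := by
        ext r
        simp only [mem_filter, mem_univ, true_and, mem_singleton]
        constructor
        · intro h
          rw [← Sum.inl_injective (hinj h), Equiv.apply_symm_apply]
        · rintro rfl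
          rw [Equiv.symm_apply_apply]
      rw [f1, f2, f3, f4, Finset.sum_singleton, Finset.sum_singleton, Finset.sum_singleton,
        Finset.card_empty, zero_mul, add_zero, (hp e).1, (hp e).2.1, ← (hp e).2.2, ← add_assoc,
        sum_group (row e).2 (col e).2]
    | inr d =>
      have f1 : (univ.filter fun e' => g (.inl e') = g (.inr d)) = ∅ := by
        ext e'
        simp only [mem_filter, mem_univ, true_and, notMem_empty, iff_false]
        intro h
        exact Sum.inl_ne_inr (hinj h)
      have f2 : (univ.filter fun d' => g (.inr d') = g (.inr d)) = {d} := by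
        ext e'
        simp only [mem_filter, mem_univ, true_and, mem_singleton]
        exact ⟨fun h => Sum.inr_injective (hinj h), fun h => by rw [h]⟩
      have f3 : (univ.filter fun r => g (.inl (p.1.symm r)) = g (.inr d)) = ∅ := by
        ext e'
        simp only [mem_filter, mem_univ, true_and, notMem_empty, iff_false]
        intro h
        exact Sum.inl_ne_inr (hinj h)
      have f4 : (univ.filter fun r => g (.inl (p.2.symm r)) = g (.inr d)) = ∅ := by
        ext e'
        simp only [mem_filter, mem_univ, true_and, notMem_empty, iff_false]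
        intro h
        exact Sum.inl_ne_inr (hinj h)
      rw [f1, f2, f3, f4]
      simp
  · left
    push Not at hc
    have f1 : (univ.filter fun e' => g (.inl e') = c) = ∅ := by
      ext e'; simp [hc]
    have f2 : (univ.filter fun d' => g (.inr d') = c) = ∅ := by
      ext e'; simp [hc]
    have f3 : (univ.filter fun r => g (.inl (p.1.symm r)) = c) = ∅ := by
      ext e'; simp [hc]
    have f4 : (univ.filter fun r => g (.inl (p.2.symm r)) = c) = ∅ := by
      ext e'; simp [hc]
    rw [f1, f2, f3, f4]
    simp

omit [Fintype E] [DecidableEq E] [Fintype D] [DecidableEq D] in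
theorem sI_pos {t : ℕ} (ht : 0 < t) (row col : E → Fin n) (R C : E → Bool)
    (x : (E ⊕ D) ⊕ (E ⊕ E)) : 0 < sI (D := D) t row col R C x := by
  have h := Hc_pos n
  have h2 := Bc_pos n
  rcases x with (x | x) | (x | x)
  · exact Nat.mul_pos ht (by unfold s1; omega)
  · exact Nat.mul_pos ht h2
  · exact Nat.mul_pos ht (by unfold s2; omega)
  · exact Nat.mul_pos ht (by unfold s3; omega)

theorem comb_surj {t : ℕ} (ht : 0 < t) {row col : E → Fin n} {R C : E → Bool} {e0 : E}
    {f : (E ⊕ D) ⊕ (E ⊕ E) → K}
    (hf : f ∈ NF K (sI (D := D) t row col R C) (t * Bc n) (.inl (.inl e0))) :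
    ∃ g ∈ Inj K (E ⊕ D) (.inl e0), ∃ p ∈ PP row col R C, comb K g p = f := by
  simp only [NF, mem_filter, mem_univ, true_and] at hf
  obtain ⟨hf0, hf1⟩ := hf
  -- every class of an item has the right sum
  have hcl : ∀ x, (∑ y ∈ univ.filter (fun y => f y = f x), sI (D := D) t row col R C y) =
      t * Bc n := by
    intro x
    rcases hf1 (f x) with h | h
    · exfalso
      rw [Finset.sum_eq_zero_iff] at h
      have h1 := h x (by simp)
      have := sI_pos (D := D) ht row col R C x
      omega
    · exact h
  have hst := fun x => group_struct ht row col R C f (f x) (hcl x)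
  -- structure at the heads
  have hhead : ∀ e : E, ∃ r s : E, (∀ d : D, f (.inl (.inr d)) ≠ f (.inl (.inl e))) ∧
      (univ.filter (fun e' => f (.inl (.inl e')) = f (.inl (.inl e)))) = {e} ∧
      (univ.filter (fun r' => f (.inr (.inl r')) = f (.inl (.inl e)))) = {r} ∧
      (univ.filter (fun s' => f (.inr (.inr s')) = f (.inl (.inl e)))) = {s} ∧
      row r = row e ∧ col s = col e ∧ R r = C s := by
    intro e
    rcases hst (.inl (.inl e)) with ⟨_, h, _⟩ | ⟨hd, e', r, s, h1, h2, h3, h4, h5, h6⟩
    · exact absurd rfl (h e)
    · have : e ∈ univ.filter (fun e' => f (.inl (.inl e')) = f (.inl (.inl e))) := by simp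
      rw [h1, mem_singleton] at this
      subst this
      exact ⟨r, s, hd, h1, h2, h3, h4, h5, h6⟩
  choose α β hd hE1 hE2 hE3 hrow hcol hRC using hhead
  have hα : ∀ e, f (.inr (.inl (α e))) = f (.inl (.inl e)) := by
    intro e
    have : α e ∈ univ.filter (fun r' => f (.inr (.inl r')) = f (.inl (.inl e))) := by
      rw [hE2]; simp
    exact (mem_filter.1 this).2
  have hβ : ∀ e, f (.inr (.inr (β e))) = f (.inl (.inl e)) := by
    intro e
    have : β e ∈ univ.filter (fun r' => f (.inr (.inr r')) = f (.inl (.inl e))) := by
      rw [hE3]; simp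
    exact (mem_filter.1 this).2
  have hheadinj : ∀ e e' : E, f (.inl (.inl e)) = f (.inl (.inl e')) → e = e' := by
    intro e e' h
    have : e ∈ univ.filter (fun e'' => f (.inl (.inl e'')) = f (.inl (.inl e'))) := by simp [h]
    rw [hE1, mem_singleton] at this
    exact this
  have hαi : Function.Injective α := fun e e' h =>
    hheadinj e e' (by rw [← hα, ← hα, h])
  have hβi : Function.Injective β := fun e e' h =>
    hheadinj e e' (by rw [← hβ, ← hβ, h])
  let pα : Equiv.Perm E := Equiv.ofBijective α (Finite.injective_iff_bijective.1 hαi)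
  let pβ : Equiv.Perm E := Equiv.ofBijective β (Finite.injective_iff_bijective.1 hβi)
  refine ⟨fun x => f (.inl x), ?_, (pα, pβ), ?_, ?_⟩
  · simp only [Inj, mem_filter, mem_univ, true_and]
    refine ⟨?_, hf0⟩
    rintro (e | d) (e' | d') h
    · rw [hheadinj e e' h]
    · exact absurd h.symm (hd e d')
    · exact absurd h (hd e' d)
    · rcases hst (.inl (.inr d)) with ⟨h1, _⟩ | ⟨h1, _⟩
      · obtain ⟨z, hz⟩ := Finset.card_eq_one.1 h1
        have m1 : d ∈ univ.filter (fun d'' => f (.inl (.inr d'')) = f (.inl (.inr d))) := by simp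
        have m2 : d' ∈ univ.filter (fun d'' => f (.inl (.inr d'')) = f (.inl (.inr d))) := by
          simp only [mem_filter, mem_univ, true_and]
          exact h.symm
        rw [hz, mem_singleton] at m1 m2
        rw [m1, m2]
      · exact absurd rfl (h1 d)
  · simp only [PP, mem_filter, mem_univ, true_and]
    exact fun e => ⟨hrow e, hcol e, hRC e⟩
  · funext x
    rcases x with (x | x) | (x | x)
    · rfl
    · rfl
    · change f (.inl (.inl (pα.symm x))) = _
      rw [← hα]
      congr 3
      exact pα.apply_symm_apply x
    · change f (.inl (.inl (pβ.symm x))) = _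
      rw [← hβ]
      congr 3
      exact pβ.apply_symm_apply x

/-- **The number of ground states** -/
theorem card_NF {t : ℕ} (ht : 0 < t) (row col : E → Fin n) (R C : E → Bool) (e0 : E) :
    (NF K (sI (D := D) t row col R C) (t * Bc n) (.inl (.inl e0))).card =
      (Inj K (E ⊕ D) (.inl e0)).card * (PP row col R C).card := by
  rw [← Finset.card_product]
  symm
  refine Finset.card_bij (fun q _ => comb K q.1 q.2) ?_ ?_ ?_
  · intro q hq
    rw [mem_product] at hq
    exact comb_mem hq.1 hq.2
  · rintro ⟨g, p⟩ hq ⟨g', p'⟩ hq' h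
    rw [mem_product] at hq hq'
    have h1 : g = g' := by
      funext x
      exact congrFun h (.inl x)
    subst h1
    have hinj : Function.Injective g := (mem_filter.1 hq.1).2.1
    have h2 : p.1.symm = p'.1.symm := by
      ext r
      exact Sum.inl_injective (hinj (congrFun h (.inr (.inl r))))
    have h3 : p.2.symm = p'.2.symm := by
      ext r
      exact Sum.inl_injective (hinj (congrFun h (.inr (.inr r))))
    have h4 : p.1 = p'.1 := by rw [← Equiv.symm_symm p.1, h2, Equiv.symm_symm]
    have h5 : p.2 = p'.2 := by rw [← Equiv.symm_symm p.2, h3, Equiv.symm_symm]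
    rw [Prod.ext h4 h5]
  · intro f hf
    obtain ⟨g, hg, p, hp, h⟩ := comb_surj ht hf
    exact ⟨(g, p), mem_product.2 ⟨hg, hp⟩, h⟩

end Count

end Pool.Agent.W887.CG
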