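import Pool.Agent.W887.CG.Gap

/-!
# The colour sum up to high powers of two
-/

namespace Pool.Agent.W887.CG

open Finset PowerSeries

theorem two_dvd_of_toZMod {x : ℤ_[2]} (h : PadicInt.toZMod x = 0) : (2 : ℤ_[2]) ∣ x := by
  have h1 : x ∈ RingHom.ker (PadicInt.toZMod (p := 2)) := h
  rw [PadicInt.ker_toZMod, PadicInt.maximalIdeal_eq_span_p, Ideal.mem_span_singleton] at h1
  exact_mod_cast h1

theorem isUnit_of_toZMod {x : ℤ_[2]} (h : PadicInt.toZMod x ≠ 0) : IsUnit x := by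
  by_contra hc
  have h1 : x ∈ IsLocalRing.maximalIdeal ℤ_[2] := hc
  rw [← PadicInt.ker_toZMod] at h1
  exact h h1

/-- number of colours of the ground states -/
def KZ (i : ℕ) : ℕ := 2 * 4 ^ i + 1

section Parity

variable {i m L k : ℕ}

/-- the only numbers of used colours with two odd coefficients are `1` and `KZ i` -/
theorem unused_isolate (hL : 2 * (i + 1) + m ≤ L) (h1 : 1 ≤ k) (hk : k < 4 ^ (i + 1) * 2 ^ m)
    (hA : tc (2 ^ L - k) (JA i) ≠ 0) (hB : tc (2 ^ L - k) (JB i m) ≠ 0) : k = 1 ∨ k = KZ i := by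
  have h4 : 4 ^ (i + 1) * 2 ^ m = 2 ^ (2 * (i + 1) + m) := by
    rw [pow_add 2 (2 * (i + 1)) m, pow_mul 2 2 (i + 1)]; norm_num
  have hd : 4 ^ (i + 1) * 2 ^ m ∣ 2 ^ L := by
    rw [h4]; exact pow_dvd_pow 2 hL
  have hle : 4 ^ (i + 1) * 2 ^ m ≤ 2 ^ L := Nat.le_of_dvd (by positivity) hd
  rcases isolate i m (2 ^ L - k) hA hB with h | h
  · left
    have e : 2 ^ L - k + 1 = 2 ^ L - (k - 1) := by omega
    rw [e] at h
    have h5 : 4 ^ (i + 1) * 2 ^ m ∣ k - 1 := by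
      have := (Nat.dvd_sub_iff_right (by omega) hd).1 h
      exact this
    have := Nat.eq_zero_of_dvd_of_lt h5 (by omega)
    omega
  · right
    have h6 : 2 * 4 ^ i < 4 ^ (i + 1) * 2 ^ m := by
      have : 0 < 4 ^ i := by positivity
      have h7 : 1 ≤ 2 ^ m := Nat.one_le_two_pow
      calc 2 * 4 ^ i < 4 ^ (i + 1) * 1 := by rw [pow_succ]; omega
        _ ≤ _ := Nat.mul_le_mul_left _ h7
    unfold KZ
    rcases Nat.le_total k (2 * 4 ^ i + 1) with h7 | h7
    · have e : 2 ^ L - k + 1 + 2 * 4 ^ i = 2 ^ L + (2 * 4 ^ i + 1 - k) := by omega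
      rw [e] at h
      have h5 : 4 ^ (i + 1) * 2 ^ m ∣ 2 * 4 ^ i + 1 - k := (Nat.dvd_add_right hd).1 h
      have := Nat.eq_zero_of_dvd_of_lt h5 (by omega)
      omega
    · have e : 2 ^ L - k + 1 + 2 * 4 ^ i = 2 ^ L - (k - (2 * 4 ^ i + 1)) := by omega
      rw [e] at h
      have h5 : 4 ^ (i + 1) * 2 ^ m ∣ k - (2 * 4 ^ i + 1) :=
        (Nat.dvd_sub_iff_right (by omega) hd).1 h
      have := Nat.eq_zero_of_dvd_of_lt h5 (by omega)
      omega

theorem unused_KZ (hL : 2 * (i + 1) + m ≤ L) :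
    tc (2 ^ L - KZ i) (JA i) = 1 ∧ tc (2 ^ L - KZ i) (JB i m) = 1 := by
  have h4 : 4 ^ (i + 1) * 2 ^ m = 2 ^ (2 * (i + 1) + m) := by
    rw [pow_add 2 (2 * (i + 1)) m, pow_mul 2 2 (i + 1)]; norm_num
  have hd : 4 ^ (i + 1) * 2 ^ m ∣ 2 ^ L := by
    rw [h4]; exact pow_dvd_pow 2 hL
  have hle : 4 ^ (i + 1) * 2 ^ m ≤ 2 ^ L := Nat.le_of_dvd (by positivity) hd
  have h6 : 2 * 4 ^ i < 4 ^ (i + 1) * 2 ^ m := by
    have : 0 < 4 ^ i := by positivity
    have h7 : 1 ≤ 2 ^ m := Nat.one_le_two_pow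
    calc 2 * 4 ^ i < 4 ^ (i + 1) * 1 := by rw [pow_succ]; omega
      _ ≤ _ := Nat.mul_le_mul_left _ h7
  apply isolate_conv
  have e : 2 ^ L - KZ i + 1 + 2 * 4 ^ i = 2 ^ L := by unfold KZ; omega
  rw [e]
  exact hd

end Parity

section Engine

variable {I K : Type*} [Fintype I] [DecidableEq I] [Fintype K] [DecidableEq K]

/-- the factor coming from the symmetries of the cliques -/
noncomputable def PF (i m b : ℕ) : ℕ := ((JA i).factorial * (JB i m).factorial) ^ b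

/-- the factor of the cliques for the colouring `σ` -/
noncomputable def yy (i m b : ℕ) (s : K → ℕ) : ℤ_[2] :=
  (coeff (JA i) (HH s) * coeff (JB i m) (HH s)) ^ b

theorem Yr_pow (i m b : ℕ) (s : K → ℕ) :
    ((Yr (JA i) s * Yr (JB i m) s : ℕ) : ℤ_[2]) ^ b = PF i m b * yy i m b s := by
  unfold PF yy
  push_cast
  rw [Yr_eq, Yr_eq, ← mul_pow]
  ring

/-- the power series of a ground state -/
noncomputable def HG (B k0 q : ℕ) : PowerSeries ℤ_[2] :=
  rescale (2 ^ B : ℤ_[2]) phi ^ k0 * rescale (2 ^ 0 : ℤ_[2]) phi ^ (q - k0)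

omit [DecidableEq I] in
theorem card_unused (a : I → ℕ) (σ : (Σ i, Fin (a i)) → K) :
    (univ.filter fun c => cnt σ c = 0).card = Fintype.card K - (used a σ).card := by
  have h := Finset.card_filter_add_card_filter_not (s := (univ : Finset K))
    (fun c => cnt σ c = 0)
  rw [Finset.card_univ] at h
  have h2 : (used a σ).card = (univ.filter fun c => ¬ cnt σ c = 0).card := rfl
  omega

omit [DecidableEq I] in
theorem HH_Gr {a : I → ℕ} {B k0 : ℕ} (hB : 0 < B) (hn : ∑ i, a i = k0 * B)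
    {σ : (Σ i, Fin (a i)) → K} (h : Gr a B σ) : HH (cnt σ) = HG B k0 (Fintype.card K) := by
  unfold HH HG
  have hu := Gr_used hB hn h
  have h2 := card_unused a σ
  rw [hu] at h2
  rw [← Finset.prod_filter_mul_prod_filter_not univ (fun c => cnt σ c ≠ 0)]
  congr 1
  · rw [Finset.prod_congr rfl (g := fun _ => rescale (2 ^ B : ℤ_[2]) phi), Finset.prod_const]
    · congr 1
    · intro c hc
      rcases Gr_cnt h c with h3 | h3
      · exact absurd h3 (Finset.mem_filter.1 hc).2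
      · rw [h3]
  · rw [Finset.prod_congr rfl (g := fun _ => rescale (2 ^ 0 : ℤ_[2]) phi), Finset.prod_const]
    · congr 1
      rw [← h2]
      congr 1
      ext c
      simp
    · intro c hc
      have h3 := (Finset.mem_filter.1 hc).2
      rw [not_not.1 h3]

/-- the clique factor of a ground state -/
noncomputable def wG (i m b B q : ℕ) : ℤ_[2] :=
  (coeff (JA i) (HG B (KZ i) q) * coeff (JB i m) (HG B (KZ i) q)) ^ b

omit [DecidableEq I] in
/-- the terms that are not ground states are divisible by a high power of two -/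
theorem bad_term {a : I → ℕ} {i m b B e t L : ℕ} (hcard : Fintype.card K = 2 ^ L)
    (hL : 2 * (i + 1) + m ≤ L) (ht : 1 ≤ t) (ha : ∀ j, 0 < a j) (hta : ∀ j, t ∣ a j)
    (htB : t ∣ B) (hB0 : 0 < B) (hn : ∑ j, a j = KZ i * B)
    (hn2 : ∑ j, a j < 4 ^ (i + 1) * 2 ^ m)
    (he : 2 * e + ∑ j, a j ^ 2 = KZ i * B ^ 2) (hb : e + (t - 1) ≤ b)
    (σ : (Σ j, Fin (a j)) → K) (hσ : ¬ Gr a B σ) :
    (2 : ℤ_[2]) ^ (e + (t - 1)) ∣ 2 ^ (dm (G0 a) σ / 2) * yy i m b (cnt σ) := by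
  have hpos : 0 < Fintype.card (Σ j, Fin (a j)) := by
    have : Fintype.card (Σ i, Fin (a i)) = ∑ i, a i := by simp
    rw [this, hn]
    exact Nat.mul_pos (by unfold KZ; omega) hB0
  have hk1 : 1 ≤ (used a σ).card := by
    obtain ⟨x⟩ : Nonempty (Σ j, Fin (a j)) := Fintype.card_pos_iff.1 hpos
    refine Finset.card_pos.2 ⟨σ x, ?_⟩
    rw [used, mem_filter]
    refine ⟨mem_univ _, ?_⟩
    have : 0 < cnt σ (σ x) := Finset.card_pos.2 ⟨x, by simp⟩
    omega
  have hk2 : (used a σ).card ≤ ∑ j, a j := by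
    have h1 : Fintype.card (Σ i, Fin (a i)) = ∑ i, a i := by simp
    rw [← h1, ← sum_cnt_one σ, ← sum_used a σ (fun x => x) rfl, Finset.card_eq_sum_ones]
    refine Finset.sum_le_sum fun c hc => ?_
    have := (Finset.mem_filter.1 hc).2
    omega
  by_cases hk : (used a σ).card = 1 ∨ (used a σ).card = KZ i
  · apply Dvd.dvd.mul_right
    apply pow_dvd_pow
    have h1 : 2 * (e + (t - 1)) ≤ dm (G0 a) σ := by
      rcases hk with hk | hk
      · exact gap_one (Nat.le_of_dvd hB0 htB)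
          (by unfold KZ; have : 0 < 4 ^ i := by positivity
              omega) hn he hk
      · exact gap ht ha hta htB hn he hk hσ
    omega
  · apply Dvd.dvd.mul_left
    unfold yy
    refine (pow_dvd_pow 2 hb).trans (pow_dvd_pow_of_dvd ?_ b)
    by_contra hc
    apply hk
    have h2 : ∀ J : ℕ, ¬ (2 : ℤ_[2]) ∣ coeff J (HH (cnt σ)) →
        tc (2 ^ L - (used a σ).card) J ≠ 0 := by
      intro J hJ h0
      apply hJ
      apply two_dvd_of_toZMod
      rw [toZMod_coeff_HH, card_unused, hcard, h0]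
    exact unused_isolate hL hk1 (by omega) (h2 _ fun hd => hc (hd.mul_right _))
      (h2 _ fun hd => hc (hd.mul_left _))

open Classical in
/-- **The colour sum modulo a high power of two.** -/
theorem engine [Zero K] {a : I → ℕ} {i m b B e t L : ℕ} (hcard : Fintype.card K = 2 ^ L)
    (hL : 2 * (i + 1) + m ≤ L) (ht : 1 ≤ t) (ha : ∀ j, 0 < a j) (hta : ∀ j, t ∣ a j)
    (htB : t ∣ B) (hB0 : 0 < B) (hn : ∑ j, a j = KZ i * B)
    (hn2 : ∑ j, a j < 4 ^ (i + 1) * 2 ^ m)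
    (he : 2 * e + ∑ j, a j ^ 2 = KZ i * B ^ 2) (hb : e + (t - 1) ≤ b)
    (v0 : Σ j, Fin (a j)) :
    (PF i m b : ℤ_[2]) * 2 ^ (e + (t - 1)) ∣
      ((∑ σ ∈ univ.filter (fun σ : (Σ j, Fin (a j)) → K => σ v0 = 0),
        2 ^ (dm (G0 a) σ / 2) * (Yr (JA i) (cnt σ) * Yr (JB i m) (cnt σ)) ^ b : ℕ) : ℤ_[2]) -
      (univ.filter (fun σ : (Σ j, Fin (a j)) → K => σ v0 = 0 ∧ Gr a B σ)).card * 2 ^ e *
        (PF i m b * wG i m b B (2 ^ L)) := by
  push_cast
  rw [← Finset.sum_filter_add_sum_filter_not (univ.filter _) (fun σ => Gr a B σ),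
    Finset.filter_filter, Finset.filter_filter]
  have h1 : ∀ σ : (Σ j, Fin (a j)) → K, (2 : ℤ_[2]) ^ (dm (G0 a) σ / 2) *
      ((Yr (JA i) (cnt σ) : ℤ_[2]) * (Yr (JB i m) (cnt σ) : ℤ_[2])) ^ b =
      PF i m b * (2 ^ (dm (G0 a) σ / 2) * yy i m b (cnt σ)) := by
    intro σ
    have := Yr_pow i m b (cnt σ)
    push_cast at this
    rw [this]
    ring
  simp only [h1]
  have h2 : ∑ σ ∈ univ.filter (fun σ : (Σ j, Fin (a j)) → K => σ v0 = 0 ∧ Gr a B σ),
      (PF i m b : ℤ_[2]) * (2 ^ (dm (G0 a) σ / 2) * yy i m b (cnt σ)) =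
      (univ.filter (fun σ : (Σ j, Fin (a j)) → K => σ v0 = 0 ∧ Gr a B σ)).card * 2 ^ e *
        (PF i m b * wG i m b B (2 ^ L)) := by
    rw [Finset.sum_congr rfl (g := fun _ => (PF i m b : ℤ_[2]) * (2 ^ e * wG i m b B (2 ^ L))),
      Finset.sum_const, nsmul_eq_mul]
    · ring
    · intro σ hσ
      have hG := (Finset.mem_filter.1 hσ).2.2
      rw [dm_Gr hB0 hn he hG, yy, HH_Gr hB0 hn hG, hcard, wG]
      congr 3
      omega
  rw [h2, add_sub_cancel_left]
  refine Finset.dvd_sum fun σ hσ => ?_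
  have hG := (Finset.mem_filter.1 hσ).2.2
  exact mul_dvd_mul_left _ (bad_term hcard hL ht ha hta htB hB0 hn hn2 he hb σ hG)

end Engine

end Pool.Agent.W887.CG
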