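import Pool.Agent.W887.CG.Perm

/-!
# Recovering the number of pairs of permutations from two numbers of connected subgraphs
-/

namespace Pool.Agent.W887.CG

open Finset

section Aux

theorem exists_half {I : Type*} [Fintype I] (a : I → ℕ) (k B : ℕ) (hn : ∑ i, a i = k * B)
    (ha : ∀ i, a i ≤ B) : 2 * ((k * B ^ 2 - ∑ i, a i ^ 2) / 2) + ∑ i, a i ^ 2 = k * B ^ 2 := by
  have h1 : ∑ i, a i ^ 2 ≤ k * B ^ 2 := by
    calc ∑ i, a i ^ 2 ≤ ∑ i, a i * B := Finset.sum_le_sum fun i _ => by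
          rw [sq]; exact Nat.mul_le_mul_left _ (ha i)
      _ = k * B ^ 2 := by rw [← Finset.sum_mul, hn]; ring
  have h2 : ∀ x : ℕ, x ^ 2 % 2 = x % 2 := by
    intro x
    rcases Nat.mod_two_eq_zero_or_one x with h | h <;> rw [Nat.pow_mod, h]
  have h3 : (∑ i, a i ^ 2) % 2 = (∑ i, a i) % 2 := by
    rw [Finset.sum_nat_mod, Finset.sum_nat_mod univ 2 a]
    simp_rw [h2]
  have h4 : (k * B ^ 2) % 2 = (k * B) % 2 := by
    rw [Nat.mul_mod, h2, ← Nat.mul_mod]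
  rw [hn] at h3
  omega

theorem descFactorial_modEq (L j : ℕ) (hj : j + 1 ≤ 2 ^ L) :
    (((2 ^ L - 1).descFactorial j : ℕ) : ℤ) ≡ (-1) ^ j * j.factorial [ZMOD 2 ^ L] := by
  induction j with
  | zero => simp
  | succ j ih =>
    rw [Nat.descFactorial_succ]
    have e : ((2 ^ L - 1 - j : ℕ) : ℤ) ≡ -(j + 1) [ZMOD 2 ^ L] := by
      rw [Int.modEq_iff_dvd]
      have : ((2 ^ L - 1 - j : ℕ) : ℤ) = 2 ^ L - 1 - j := by
        have h1 : 1 ≤ 2 ^ L := Nat.one_le_two_pow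
        rw [Nat.cast_sub (by omega), Nat.cast_sub h1]
        push_cast
        ring
      rw [this]
      exact ⟨-1, by ring⟩
    push_cast
    rw [Nat.factorial_succ]
    have h2 := e.mul (ih (by omega))
    refine h2.trans ?_
    rw [pow_succ]
    push_cast
    ring_nf
    rfl

variable (K : Type*) [Fintype K] [DecidableEq K] [AddCommGroup K]

theorem card_Inj (X : Type) [Fintype X] [DecidableEq X] (x0 : X) :
    Fintype.card K * (Inj K X x0).card = (Fintype.card K).descFactorial (Fintype.card X) := by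
  classical
  rw [← Fintype.card_embedding_eq, ← Fintype.card_coe (Inj K X x0), ← Fintype.card_prod]
  refine Fintype.card_congr ⟨fun p => ⟨fun x => p.2.1 x + p.1, ?_⟩, fun g => (g x0,
    ⟨fun x => g x - g x0, ?_⟩), ?_, ?_⟩
  · intro x y h
    have h1 := (mem_filter.1 p.2.2).2.1
    exact h1 (add_right_cancel h)
  · rw [Inj, mem_filter]
    refine ⟨mem_univ _, fun x y h => ?_, sub_self _⟩
    exact g.injective (sub_left_injective h)
  · rintro ⟨κ, g, hg⟩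
    have h0 : g x0 = 0 := (mem_filter.1 hg).2.2
    refine Prod.ext ?_ (Subtype.ext ?_)
    · change g x0 + κ = κ
      rw [h0, zero_add]
    · funext x
      change g x + κ - (g x0 + κ) = g x
      rw [h0]
      simp
  · intro g
    ext x
    simp

/-- the power of two in the number of injective colourings is small -/
theorem Inj_val (X : Type) [Fintype X] [DecidableEq X] (x0 : X) {L j : ℕ}
    (hK : Fintype.card K = 2 ^ L) (hX : Fintype.card X = j + 1) (hj : j ≠ 0) (hL : j + 1 ≤ L) :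
    ∃ ν o : ℕ, (Inj K X x0).card = 2 ^ ν * o ∧ Odd o ∧ ν ≤ j := by
  have hL2 : L < 2 ^ L := Nat.lt_two_pow_self
  have h1 := card_Inj K X x0
  rw [hK, hX] at h1
  obtain ⟨q, hq⟩ : ∃ q, 2 ^ L = q + 1 := ⟨2 ^ L - 1, by omega⟩
  have h2 : (Inj K X x0).card = (2 ^ L - 1).descFactorial j := by
    rw [hq, Nat.succ_descFactorial_succ] at h1
    rw [hq, Nat.add_sub_cancel]
    exact Nat.eq_of_mul_eq_mul_left (Nat.succ_pos _) h1
  have hne : (Inj K X x0).card ≠ 0 := by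
    rw [h2]
    intro h0
    rw [Nat.descFactorial_eq_zero_iff_lt] at h0
    omega
  obtain ⟨ν, o, ho, hνo⟩ := Nat.exists_eq_two_pow_mul_odd hne
  refine ⟨ν, o, hνo, ho, ?_⟩
  by_contra hc
  have h3 := descFactorial_modEq L j (by omega)
  rw [← h2] at h3
  have h4 : ((2 : ℤ) ^ (j + 1)) ∣ (((Inj K X x0).card : ℕ) : ℤ) := by
    rw [hνo]
    push_cast
    exact (pow_dvd_pow 2 (by omega)).mul_right _
  have h5 : ((2 : ℤ) ^ (j + 1)) ∣ (2 : ℤ) ^ L := pow_dvd_pow 2 hL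
  have h6 : ((2 : ℤ) ^ (j + 1)) ∣ (-1) ^ j * (j.factorial : ℤ) := by
    have h7 := h5.trans (Int.modEq_iff_dvd.1 h3)
    have := dvd_add h7 h4
    simpa using this
  have h7 : ((2 : ℤ) ^ (j + 1)) ∣ (j.factorial : ℤ) := by
    rcases neg_one_pow_eq_or ℤ j with h | h <;> rw [h] at h6
    · simpa using h6
    · simpa using h6
  have h8 : 2 ^ (j + 1) ∣ j.factorial := by exact_mod_cast h7
  obtain ⟨v, w, hv, hw, hvj⟩ := factorial_split j hj
  rw [hv] at h8
  have h9 : 2 ^ (j + 1) ∣ 2 ^ v := by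
    refine Nat.Coprime.dvd_of_dvd_mul_right ?_ h8
    exact Nat.Coprime.pow_left _ ((Nat.coprime_two_left).2 hw)
  have := (Nat.pow_dvd_pow_iff_le_right (by norm_num)).1 h9
  omega

end Aux

section Bridge

variable {I : Type*} [Fintype I] [DecidableEq I] {K : Type*} [Fintype K] [DecidableEq K]
  [AddCommGroup K]

open Classical in
theorem card_Gr (a : I → ℕ) (B : ℕ) (ha : ∀ i, 0 < a i) (i0 : I) :
    (univ.filter (fun σ : (Σ j, Fin (a j)) → K => σ ⟨i0, ⟨0, ha i0⟩⟩ = 0 ∧ Gr a B σ)).card =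
      (NF K a B i0).card := by
  symm
  refine Finset.card_bij (fun f _ x => f x.1) ?_ ?_ ?_
  · intro f hf
    simp only [NF, mem_filter, mem_univ, true_and] at hf ⊢
    exact ⟨hf.1, f, fun _ => rfl, hf.2⟩
  · intro f _ f' _ h
    funext i
    exact congrFun h ⟨i, ⟨0, ha i⟩⟩
  · intro σ hσ
    simp only [mem_filter, mem_univ, true_and] at hσ
    obtain ⟨h0, f, hf, hc⟩ := hσ
    refine ⟨f, ?_, funext fun x => (hf x).symm⟩
    simp only [NF, mem_filter, mem_univ, true_and]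
    refine ⟨?_, hc⟩
    rw [← h0, hf]

/-- the sizes of the cliques -/
def Jf (i m b : ℕ) : Fin b ⊕ Fin b → ℕ := Sum.elim (fun _ => JA i) fun _ => JB i m

/-- **Connected spanning subgraphs modulo a high power of two.** -/
theorem numConn_engine {a : I → ℕ} {i m b B e t L : ℕ} (hcard : Fintype.card K = 2 ^ L)
    (hL : 2 * (i + 1) + m ≤ L) (ht : 1 ≤ t) (ha : ∀ j, 0 < a j) (hta : ∀ j, t ∣ a j)
    (htB : t ∣ B) (hB0 : 0 < B) (hn : ∑ j, a j = KZ i * B)
    (hn2 : ∑ j, a j < 4 ^ (i + 1) * 2 ^ m)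
    (he : 2 * e + ∑ j, a j ^ 2 = KZ i * B ^ 2) (hb : e + (t - 1) ≤ b) (i0 : I)
    (hLP : (PF i m b : ℤ_[2]) * 2 ^ (e + (t - 1)) ∣ 2 ^ L) :
    (PF i m b : ℤ_[2]) * 2 ^ (e + (t - 1)) ∣ (numConn (GJ a (Jf i m b)) : ℤ_[2]) -
      (NF K a B i0).card * 2 ^ e * (PF i m b * wG i m b B (2 ^ L)) := by
  classical
  have h1 := engine (K := K) hcard hL ht ha hta htB hB0 hn hn2 he hb ⟨i0, ⟨0, ha i0⟩⟩
  have h2 := numConn_modEq (K := K) (GJ a (Jf i m b)) (.inl ⟨i0, ⟨0, ha i0⟩⟩)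
  rw [sum_GJ, hcard] at h2
  have h3 : ∀ σ : (Σ j, Fin (a j)) → K, ∏ x, Yr (Jf i m b x) (cnt σ) =
      (Yr (JA i) (cnt σ) * Yr (JB i m) (cnt σ)) ^ b := by
    intro σ
    rw [Fintype.prod_sum_type]
    simp [Jf, mul_pow]
  simp only [h3] at h2
  rw [← card_Gr a B ha i0]
  generalize (∑ σ ∈ univ.filter (fun σ : (Σ j, Fin (a j)) → K => σ ⟨i0, ⟨0, ha i0⟩⟩ = 0),
    2 ^ (dm (G0 a) σ / 2) * (Yr (JA i) (cnt σ) * Yr (JB i m) (cnt σ)) ^ b) = Z at h1 h2
  have h4 : (2 : ℤ_[2]) ^ L ∣ (numConn (GJ a (Jf i m b)) : ℤ_[2]) - (Z : ℤ_[2]) := by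
    have h5 := (Nat.modEq_iff_dvd.1 h2)
    have h6 := (PadicInt.pow_p_dvd_int_iff (p := 2) L
      ((numConn (GJ a (Jf i m b)) : ℤ) - (Z : ℤ))).2 (by exact_mod_cast h5)
    push_cast at h6
    exact h6
  have h5 := dvd_add (hLP.trans h4) h1
  have e1 : (numConn (GJ a (Jf i m b)) : ℤ_[2]) - (Z : ℤ_[2]) + ((Z : ℤ_[2]) -
      (univ.filter (fun σ : (Σ j, Fin (a j)) → K => σ ⟨i0, ⟨0, ha i0⟩⟩ = 0 ∧ Gr a B σ)).card *
        2 ^ e * (PF i m b * wG i m b B (2 ^ L))) = (numConn (GJ a (Jf i m b)) : ℤ_[2]) -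
      (univ.filter (fun σ : (Σ j, Fin (a j)) → K => σ ⟨i0, ⟨0, ha i0⟩⟩ = 0 ∧ Gr a B σ)).card *
        2 ^ e * (PF i m b * wG i m b B (2 ^ L)) := by ring
  rw [e1] at h5
  exact h5

theorem isUnit_wG {i m b B L : ℕ} (hB : 0 < B) (hL : 2 * (i + 1) + m ≤ L) :
    IsUnit (wG i m b B (2 ^ L)) := by
  have h := unused_KZ (i := i) (m := m) hL
  have key : ∀ J, PadicInt.toZMod (PowerSeries.coeff J (HG B (KZ i) (2 ^ L))) =
      tc (2 ^ L - KZ i) J := by
    intro J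
    rw [← PowerSeries.coeff_map, HG, map_mul, map_pow, map_pow, map_rescale_pow, map_rescale_pow,
      if_neg (by omega), if_pos rfl, one_pow, one_mul, ← Polynomial.coe_pow,
      Polynomial.coeff_coe, tc]
  unfold wG
  apply IsUnit.pow
  apply IsUnit.mul
  · apply isUnit_of_toZMod
    rw [key, h.1]
    exact one_ne_zero
  · apply isUnit_of_toZMod
    rw [key, h.2]
    exact one_ne_zero

end Bridge

end Pool.Agent.W887.CG
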