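import Pool.Agent.W887.CG.Final

/-!
# Recovering the number of pairs of permutations from two numbers of connected subgraphs, part 2
-/

namespace Pool.Agent.W887.CG

open Finset

section Sums

variable {n : ℕ} {E D : Type} [Fintype E] [DecidableEq E] [Fintype D] [DecidableEq D]

omit [DecidableEq E] in
theorem sum_toNat (row : E → Fin n) (R : E → Bool) (hR : Tr row R) :
    ∑ e, (R e).toNat = n := by
  have h1 : ∑ e, (R e).toNat = (univ.filter fun e => R e = true).card := by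
    rw [Finset.card_filter]
    refine Finset.sum_congr rfl fun e _ => ?_
    cases R e <;> simp
  rw [h1, Finset.card_eq_sum_card_fiberwise (t := (univ : Finset (Fin n))) (f := row)
    (fun _ _ => Finset.mem_coe.2 (mem_univ _))]
  rw [Finset.sum_congr rfl (g := fun _ => 1)]
  · simp
  · intro i _
    rw [← card_true hR i, Finset.filter_filter]
    congr 1
    ext e
    simp only [mem_filter, mem_univ, true_and]
    exact and_comm

omit [DecidableEq E] [DecidableEq D] in
/-- the total size of the items -/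
theorem sum_sI (t : ℕ) (row col : E → Fin n) (R C : E → Bool) (hR : Tr row R) (hC : Tr col C) :
    ∑ x, sI (D := D) t row col R C x = (Fintype.card E + Fintype.card D) * (t * Bc n) := by
  rw [Fintype.sum_sum_type, Fintype.sum_sum_type, Fintype.sum_sum_type]
  simp only [sI, Finset.sum_const, Finset.card_univ, smul_eq_mul, ← Finset.mul_sum]
  have key : ∑ e, s1 n (row e) (col e) + (∑ e, s2 n (row e) (R e) + ∑ e, s3 n (col e) (C e)) =
      Fintype.card E * Bc n := by
    have h1 : ∀ e, s1 n (row e) (col e) + (s2 n (row e) (R e) + s3 n (col e) (C e)) +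
        (C e).toNat = Bc n + (R e).toNat := by
      intro e
      have h2 := code_le (row e).2 (col e).2
      have h3 : (C e).toNat ≤ 2 * n * ((col e).val + 1) := by
        have := toNat_le (C e)
        have h4 : 2 * n * 1 ≤ 2 * n * ((col e).val + 1) := Nat.mul_le_mul_left _ (by omega)
        have := (row e).2
        omega
      unfold s1 s2 s3 z1 z2 z3 Bc
      omega
    have h2 := Finset.sum_congr (rfl : (univ : Finset E) = univ) (fun e _ => h1 e)
    rw [Finset.sum_add_distrib, Finset.sum_add_distrib, Finset.sum_add_distrib,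
      Finset.sum_add_distrib, sum_toNat row R hR, sum_toNat col C hC, Finset.sum_const,
      Finset.card_univ, smul_eq_mul] at h2
    omega
  calc t * ∑ e, s1 n (row e) (col e) + Fintype.card D * (t * Bc n) +
      (t * ∑ e, s2 n (row e) (R e) + t * ∑ e, s3 n (col e) (C e))
      = t * (∑ e, s1 n (row e) (col e) + (∑ e, s2 n (row e) (R e) + ∑ e, s3 n (col e) (C e))) +
        Fintype.card D * (t * Bc n) := by ring
    _ = _ := by rw [key]; ring

omit [Fintype E] [DecidableEq E] [Fintype D] [DecidableEq D] in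
theorem sI_le (t : ℕ) (row col : E → Fin n) (R C : E → Bool) (x : (E ⊕ D) ⊕ (E ⊕ E)) :
    sI (D := D) t row col R C x ≤ t * Bc n := by
  have hS : Uc n < Sc n := by unfold Sc; omega
  rcases x with (x | x) | (x | x)
  · refine Nat.mul_le_mul_left _ ?_
    unfold s1 Bc z1
    omega
  · exact le_rfl
  · refine Nat.mul_le_mul_left _ ?_
    have := z2_le (row x).2 (R x)
    unfold s2 Bc
    omega
  · refine Nat.mul_le_mul_left _ ?_
    have := z3_le (col x).2 (C x)
    unfold s3 Bc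
    omega

omit [Fintype E] [DecidableEq E] [Fintype D] [DecidableEq D] in
theorem dvd_sI (t : ℕ) (row col : E → Fin n) (R C : E → Bool) (x : (E ⊕ D) ⊕ (E ⊕ E)) :
    t ∣ sI (D := D) t row col R C x := by
  rcases x with (x | x) | (x | x) <;> exact Dvd.intro _ rfl

theorem NF_const (K : Type*) [Fintype K] [DecidableEq K] [Zero K] (X : Type) [Fintype X]
    [DecidableEq X] (B : ℕ) (hB : 0 < B) (x0 : X) :
    NF K (fun _ : X => B) B x0 = Inj K X x0 := by
  ext f
  simp only [NF, Inj, mem_filter, mem_univ, true_and, Finset.sum_const, smul_eq_mul]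
  constructor
  · rintro ⟨h0, h⟩
    refine ⟨fun x y hxy => ?_, h0⟩
    have h1 : (univ.filter fun z => f z = f y).card = 1 := by
      rcases h (f y) with h2 | h2
      · exfalso
        rcases Nat.mul_eq_zero.1 h2 with h3 | h3
        · rw [Finset.card_eq_zero] at h3
          have : y ∈ univ.filter fun z => f z = f y := by simp
          rw [h3] at this
          simp at this
        · omega
      · exact Nat.eq_of_mul_eq_mul_right hB (by rw [h2, one_mul])
    obtain ⟨z, hz⟩ := Finset.card_eq_one.1 h1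
    have m1 : x ∈ univ.filter fun z => f z = f y := by simp [hxy]
    have m2 : y ∈ univ.filter fun z => f z = f y := by simp
    rw [hz, mem_singleton] at m1 m2
    rw [m1, m2]
  · rintro ⟨h, h0⟩
    refine ⟨h0, fun c => ?_⟩
    have h1 : (univ.filter fun z => f z = c).card ≤ 1 := by
      rw [Finset.card_le_one]
      intro x hx y hy
      exact h ((mem_filter.1 hx).2.trans (mem_filter.1 hy).2.symm)
    rcases Nat.le_one_iff_eq_zero_or_eq_one.1 h1 with h2 | h2 <;> rw [h2]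
    · left; simp
    · right; simp

end Sums

section Main

variable {n : ℕ} {E D : Type} [Fintype E] [DecidableEq E] [Fintype D] [DecidableEq D]

/-- **The number of pairs of permutations from the numbers of connected spanning subgraphs of two
cographs.** -/
theorem main_math (row col : E → Fin n) (R C : E → Bool) (hR : Tr row R) (hC : Tr col C) (e0 : E)
    {i m b t g e : ℕ} (hED : Fintype.card E + Fintype.card D = KZ i)
    (hn2 : KZ i * (t * Bc n) < 4 ^ (i + 1) * 2 ^ m)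
    (he : 2 * e + ∑ x, sI (D := D) t row col R C x ^ 2 = KZ i * (t * Bc n) ^ 2)
    (hb : e + (t - 1) ≤ b) (ht : KZ i + g ≤ t - 1) :
    ∃ v o : ℕ, Odd o ∧
      numConn (GJ (fun _ : E ⊕ D => t * Bc n) (Jf i m b)) = 2 ^ v * o ∧
      ∃ r : ℤ, (numConn (GJ (sI (D := D) t row col R C) (Jf i m b)) : ℤ) =
        2 ^ (e + v) * ((PP row col R C).card * o + 2 ^ g * r) := by
  have ht0 : 0 < t := by unfold KZ at ht; omega
  have hB0 : 0 < t * Bc n := Nat.mul_pos ht0 (Bc_pos n)
  have hPF0 : PF i m b ≠ 0 := by unfold PF; positivity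
  obtain ⟨Dp, oP, hoP, hP⟩ := Nat.exists_eq_two_pow_mul_odd hPF0
  obtain ⟨u, hu⟩ := isUnit_odd hoP
  obtain ⟨L, hL⟩ : ∃ L, L = 2 * (i + 1) + m + (Dp + (e + (t - 1))) + KZ i := ⟨_, rfl⟩
  have : NeZero (2 ^ L) := ⟨by positivity⟩
  have hcard : Fintype.card (ZMod (2 ^ L)) = 2 ^ L := ZMod.card _
  have hPz : (PF i m b : ℤ_[2]) = 2 ^ Dp * u := by rw [hP]; push_cast; rw [hu]
  have hdiv : ∀ y ≤ e + (t - 1), (PF i m b : ℤ_[2]) * 2 ^ y ∣ 2 ^ L := by
    intro y hy
    rw [hPz]
    have e1 : (2 : ℤ_[2]) ^ L = (2 ^ Dp * u) * 2 ^ y * (2 ^ (L - Dp - y) *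
        ((u⁻¹ : ℤ_[2]ˣ) : ℤ_[2])) := by
      have e2 : L = Dp + y + (L - Dp - y) := by omega
      calc (2 : ℤ_[2]) ^ L = 2 ^ (Dp + y + (L - Dp - y)) * (u * ((u⁻¹ : ℤ_[2]ˣ) : ℤ_[2])) := by
            rw [Units.mul_inv, mul_one, ← e2]
        _ = _ := by rw [pow_add, pow_add]; ring
    exact Dvd.intro _ e1.symm
  have hsum := sum_sI (D := D) t row col R C hR hC
  rw [hED] at hsum
  have A1 := numConn_engine (K := ZMod (2 ^ L)) (a := sI (D := D) t row col R C) (i := i) (m := m)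
    (b := b) (B := t * Bc n) (e := e) (t := t) (L := L) hcard (by omega) (by omega)
    (fun x => sI_pos ht0 row col R C x) (fun x => dvd_sI t row col R C x) (Dvd.intro _ rfl) hB0
    hsum (by rw [hsum]; exact hn2) he hb (.inl (.inl e0)) (hdiv _ le_rfl)
  have hs2 : ∑ _x : E ⊕ D, t * Bc n = KZ i * (t * Bc n) := by
    rw [Finset.sum_const, Finset.card_univ, Fintype.card_sum, hED, smul_eq_mul]
  have A2 := numConn_engine (K := ZMod (2 ^ L)) (a := fun _ : E ⊕ D => t * Bc n) (i := i) (m := m)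
    (b := b) (B := t * Bc n) (e := 0) (t := t) (L := L) hcard (by omega) (by omega)
    (fun _ => hB0) (fun _ => Dvd.intro _ rfl) (Dvd.intro _ rfl) hB0 hs2
    (by rw [hs2]; exact hn2)
    (by rw [Finset.sum_const, Finset.card_univ, Fintype.card_sum, hED, smul_eq_mul]; ring)
    (by omega) (.inl e0) (hdiv _ (by omega))
  rw [card_NF ht0] at A1
  rw [NF_const _ _ _ hB0] at A2
  obtain ⟨ν, oν, hN, hoν, hν⟩ := Inj_val (ZMod (2 ^ L)) (E ⊕ D) (.inl e0) (L := L)
    (j := 2 * 4 ^ i) hcard (by rw [Fintype.card_sum, hED]; rfl) (by positivity)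
    (by rw [hL]; unfold KZ; omega)
  obtain ⟨w, hw⟩ := isUnit_wG (i := i) (m := m) (B := t * Bc n) (L := L) hB0 (by omega)
  obtain ⟨uν, huν⟩ := isUnit_odd hoν
  rw [← hw] at A1 A2
  generalize numConn (GJ (sI (D := D) t row col R C) (Jf i m b)) = C1 at A1
  generalize numConn (GJ (fun _ : E ⊕ D => t * Bc n) (Jf i m b)) = C2 at A2
  generalize (PP row col R C).card = M at A1
  rw [hN] at A1 A2
  rw [hPz] at A1 A2
  push_cast at A1 A2
  rw [← huν] at A1 A2
  obtain ⟨y1, hy1⟩ := A1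
  obtain ⟨y2, hy2⟩ := A2
  have hxν : ν + 1 + g ≤ t - 1 := by unfold KZ at ht; omega
  obtain ⟨x', hx'⟩ : ∃ x', t - 1 = ν + (x' + 1) := ⟨t - 1 - ν - 1, by omega⟩
  have hx'g : g ≤ x' + 1 := by omega
  rw [hx'] at hy1 hy2
  rw [zero_add] at hy2
  -- the number `C2`
  have hC2 : (C2 : ℤ_[2]) = 2 ^ (Dp + ν) * (u * uν * w + 2 ^ (x' + 1) * (u * y2)) := by
    have e1 : (C2 : ℤ_[2]) = 2 ^ Dp * u * 2 ^ (ν + (x' + 1)) * y2 +
        2 ^ ν * uν * 2 ^ 0 * (2 ^ Dp * u * w) := by
      rw [← hy2]; ring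
    rw [e1, pow_add 2 ν, pow_add 2 Dp]
    ring
  have hd2 : 2 ^ (Dp + ν) ∣ C2 := by
    have h1 : (2 : ℤ_[2]) ^ (Dp + ν) ∣ ((C2 : ℤ) : ℤ_[2]) := by
      push_cast
      exact Dvd.intro _ hC2.symm
    have h2 := (PadicInt.pow_p_dvd_int_iff (p := 2) (Dp + ν) (C2 : ℤ)).1 (by exact_mod_cast h1)
    exact_mod_cast h2
  obtain ⟨o, ho⟩ := hd2
  have h2ne : (2 : ℤ_[2]) ^ (Dp + ν) ≠ 0 := pow_ne_zero _ two_ne_zero
  have hoz : (o : ℤ_[2]) = u * uν * w + 2 ^ (x' + 1) * (u * y2) := by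
    apply mul_left_cancel₀ h2ne
    rw [← hC2, ho]
    push_cast
    ring
  have hodd : Odd o := by
    rw [← Nat.not_even_iff_odd]
    rintro ⟨z, hz⟩
    have h3 : (2 : ℤ_[2]) ∣ ((u * uν * w : ℤ_[2]ˣ) : ℤ_[2]) := by
      have e1 : ((u * uν * w : ℤ_[2]ˣ) : ℤ_[2]) = 2 * (z - 2 ^ x' * (u * y2)) := by
        push_cast
        have e2 : (u : ℤ_[2]) * uν * w = o - 2 ^ (x' + 1) * (u * y2) := by rw [hoz]; ring
        rw [e2, hz]
        push_cast
        ring
      exact Dvd.intro _ e1.symm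
    have h4 : IsUnit (2 : ℤ_[2]) := isUnit_of_dvd_unit h3 (Units.isUnit _)
    rw [PadicInt.isUnit_iff] at h4
    have h5 : ‖((2 : ℕ) : ℤ_[2])‖ < 1 := by
      rw [PadicInt.norm_p (p := 2)]
      norm_num
    have h6 : ‖(2 : ℤ_[2])‖ < 1 := by exact_mod_cast h5
    rw [h4] at h6
    exact lt_irrefl _ h6
  refine ⟨Dp + ν, o, hodd, ho, ?_⟩
  -- the number `C1`
  have hC1 : (2 : ℤ_[2]) ^ (e + (Dp + ν) + g) ∣
      ((((C1 : ℤ) - 2 ^ (e + (Dp + ν)) * (M * o) : ℤ)) : ℤ_[2]) := by
    push_cast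
    have e1 : (C1 : ℤ_[2]) = 2 ^ Dp * u * 2 ^ (e + (ν + (x' + 1))) * y1 +
        2 ^ ν * uν * M * 2 ^ e * (2 ^ Dp * u * w) := by
      rw [← hy1]; ring
    have e2 : (C1 : ℤ_[2]) - 2 ^ (e + (Dp + ν)) * (M * o) =
        2 ^ (e + (Dp + ν) + g) * (2 ^ (x' + 1 - g) * (u * y1 - M * (u * y2))) := by
      rw [e1, hoz]
      have e3 : (2 : ℤ_[2]) ^ (e + (Dp + ν) + g) * (2 ^ (x' + 1 - g) * (u * y1 - M * (u * y2))) =
          (2 ^ (e + (Dp + ν) + g) * 2 ^ (x' + 1 - g)) * (u * y1 - M * (u * y2)) := by ring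
      rw [e3, ← pow_add]
      have e4 : e + (Dp + ν) + g + (x' + 1 - g) = e + Dp + ν + (x' + 1) := by omega
      rw [e4]
      ring
    rw [e2]
    exact Dvd.intro _ rfl
  have hC1' := (PadicInt.pow_p_dvd_int_iff (p := 2) (e + (Dp + ν) + g)
    ((C1 : ℤ) - 2 ^ (e + (Dp + ν)) * (M * o))).1 (by exact_mod_cast hC1)
  obtain ⟨r, hr⟩ := hC1'
  refine ⟨r, ?_⟩
  have h7 : (C1 : ℤ) = 2 ^ (e + (Dp + ν)) * (M * o) + 2 ^ (e + (Dp + ν) + g) * r := by
    push_cast at hr
    linear_combination hr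
  rw [h7, pow_add 2 (e + (Dp + ν)) g]
  ring

end Main

end Pool.Agent.W887.CG
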