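import Pool.Agent.W887.CG.Join

/-!
# Monochromatic edges of complete multipartite graphs: ground states and the gap
-/

namespace Pool.Agent.W887.CG

open Finset

section General

variable {V K : Type*} [Fintype V] [Fintype K] [DecidableEq K]

theorem sum_cnt_sq (σ : V → K) :
    ∑ x, ∑ y, (if σ x = σ y then 1 else 0) = ∑ c, cnt σ c ^ 2 := by
  rw [sum_cnt σ V σ, ← Finset.sum_fiberwise (s := univ) (g := σ) (f := fun y => cnt σ (σ y))]
  refine Finset.sum_congr rfl fun c _ => ?_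
  rw [Finset.sum_congr rfl (g := fun _ => cnt σ c)]
  · rw [Finset.sum_const, smul_eq_mul, sq]
    rfl
  · intro x hx
    rw [(Finset.mem_filter.1 hx).2]

theorem sum_cnt_one (σ : V → K) : ∑ c, cnt σ c = Fintype.card V := by
  have h := Finset.card_eq_sum_card_fiberwise (s := (univ : Finset V)) (t := (univ : Finset K))
    (f := σ) (fun _ _ => Finset.mem_coe.2 (Finset.mem_univ _))
  rw [Finset.card_univ] at h
  rw [h]
  rfl

omit [Fintype K] in
theorem sum_sq_le_sq_sum (s : Finset K) (g : K → ℕ) : ∑ c ∈ s, g c ^ 2 ≤ (∑ c ∈ s, g c) ^ 2 := by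
  induction s using Finset.induction_on with
  | empty => simp
  | insert a s ha ih =>
    rw [Finset.sum_insert ha, Finset.sum_insert ha]
    nlinarith [Nat.zero_le (g a * ∑ c ∈ s, g c)]

theorem sum_cnt_sq_le (σ : V → K) : ∑ c, cnt σ c ^ 2 ≤ Fintype.card V ^ 2 := by
  rw [← sum_cnt_one σ]
  exact sum_sq_le_sq_sum _ _

theorem sum_cnt_sq_const (σ : V → K) (c : K) (h : ∀ v, σ v = c) :
    ∑ c, cnt σ c ^ 2 = Fintype.card V ^ 2 := by
  rw [Finset.sum_eq_single c]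
  · congr 1
    rw [cnt, ← Finset.card_univ]
    congr 1
    ext v
    simp [h v]
  · intro d _ hd
    have : cnt σ d = 0 := by
      rw [cnt, Finset.card_eq_zero]
      ext v
      simp [h v, hd.symm]
    rw [this]; rfl
  · simp

/-- a part that is not monochromatic -/
theorem sum_cnt_sq_split (σ : V → K) (v w : V) (hvw : σ v ≠ σ w) :
    ∑ c, cnt σ c ^ 2 + 2 * (Fintype.card V - 1) ≤ Fintype.card V ^ 2 := by
  have h1 := sum_cnt_one σ
  have h2 : ∑ c, cnt σ c ^ 2 = cnt σ (σ v) ^ 2 + ∑ c ∈ univ.erase (σ v), cnt σ c ^ 2 :=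
    (Finset.add_sum_erase _ _ (mem_univ _)).symm
  have h3 : cnt σ (σ v) + ∑ c ∈ univ.erase (σ v), cnt σ c = Fintype.card V := by
    rw [← h1]
    exact Finset.add_sum_erase _ _ (mem_univ _)
  have h4 := sum_sq_le_sq_sum (univ.erase (σ v)) (cnt σ)
  have h5 : 1 ≤ cnt σ (σ v) := Finset.card_pos.2 ⟨v, by simp⟩
  have h6 : 1 ≤ ∑ c ∈ univ.erase (σ v), cnt σ c := by
    have h7 : 1 ≤ cnt σ (σ w) := Finset.card_pos.2 ⟨w, by simp⟩
    exact h7.trans (Finset.single_le_sum (f := cnt σ) (fun _ _ => Nat.zero_le _)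
      (Finset.mem_erase.2 ⟨hvw.symm, mem_univ _⟩))
  rw [h2, ← h3]
  generalize cnt σ (σ v) = x at *
  generalize ∑ c ∈ univ.erase (σ v), cnt σ c = y at *
  obtain ⟨x, rfl⟩ : ∃ z, x = z + 1 := ⟨x - 1, by omega⟩
  obtain ⟨y, rfl⟩ : ∃ z, y = z + 1 := ⟨y - 1, by omega⟩
  have h8 : x + 1 + (y + 1) - 1 = x + y + 1 := by omega
  rw [h8]
  nlinarith [Nat.zero_le (x * y)]

end General

section Parts

variable {I K : Type*} [Fintype I] [DecidableEq I] [Fintype K] [DecidableEq K]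

/-- the colours in the part `i` -/
def pc {a : I → ℕ} (σ : (Σ i, Fin (a i)) → K) (i : I) : Fin (a i) → K := fun j => σ ⟨i, j⟩

omit [DecidableEq I] [Fintype K] in
theorem cnt_eq_sum (a : I → ℕ) (σ : (Σ i, Fin (a i)) → K) (c : K) :
    cnt σ c = ∑ i, cnt (pc σ i) c := by
  rw [cnt, Finset.card_filter, Fintype.sum_sigma]
  refine Finset.sum_congr rfl fun i _ => ?_
  rw [cnt, Finset.card_filter]
  rfl

omit [DecidableEq I] in
theorem dm_G0 (a : I → ℕ) (σ : (Σ i, Fin (a i)) → K) :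
    dm (G0 a) σ + ∑ i, ∑ c, cnt (pc σ i) c ^ 2 = ∑ c, cnt σ c ^ 2 := by
  classical
  rw [← sum_cnt_sq, dm_eq_sum]
  have h : ∑ i, ∑ c, cnt (pc σ i) c ^ 2 =
      ∑ x : (Σ i, Fin (a i)), ∑ y : (Σ i, Fin (a i)),
        if x.1 = y.1 ∧ σ x = σ y then 1 else 0 := by
    rw [Fintype.sum_sigma]
    refine Finset.sum_congr rfl fun i _ => ?_
    rw [← sum_cnt_sq]
    refine Finset.sum_congr rfl fun u _ => ?_
    rw [Fintype.sum_sigma, Finset.sum_eq_single i]
    · refine Finset.sum_congr rfl fun w _ => ?_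
      by_cases h5 : σ ⟨i, u⟩ = σ ⟨i, w⟩ <;> simp [pc, h5]
    · intro j _ hj
      refine Finset.sum_eq_zero fun w _ => ?_
      rw [if_neg]
      rintro ⟨h, _⟩
      exact hj h.symm
    · simp
  rw [h, ← Finset.sum_add_distrib]
  refine Finset.sum_congr rfl fun x _ => ?_
  rw [← Finset.sum_add_distrib]
  refine Finset.sum_congr rfl fun y _ => ?_
  have h2 : (G0 a).Adj x y ↔ x.1 ≠ y.1 := Iff.rfl
  by_cases h3 : x.1 = y.1 <;> by_cases h4 : σ x = σ y <;> simp [h2, h3, h4]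

/-- the ground states: the parts are monochromatic, and every colour class that is used has
exactly `B` vertices -/
def Gr (a : I → ℕ) (B : ℕ) (σ : (Σ i, Fin (a i)) → K) : Prop :=
  ∃ f : I → K, (∀ x, σ x = f x.1) ∧
    ∀ c, (∑ i ∈ univ.filter (fun i => f i = c), a i) = 0 ∨
      (∑ i ∈ univ.filter (fun i => f i = c), a i) = B

omit [DecidableEq I] [Fintype K] in
theorem cnt_mono (a : I → ℕ) (σ : (Σ i, Fin (a i)) → K) (f : I → K) (h : ∀ x, σ x = f x.1)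
    (c : K) : cnt σ c = ∑ i ∈ univ.filter (fun i => f i = c), a i := by
  rw [cnt_eq_sum, Finset.sum_filter]
  refine Finset.sum_congr rfl fun i _ => ?_
  split_ifs with hc
  · rw [cnt]
    have : (univ.filter fun v => pc σ i v = c) = univ := by
      ext v
      simp [pc, h, hc]
    rw [this]
    simp
  · rw [cnt, Finset.card_eq_zero]
    ext v
    simp [pc, h, hc]

omit [DecidableEq I] in
theorem sum_parts_mono (a : I → ℕ) (σ : (Σ i, Fin (a i)) → K) (f : I → K)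
    (h : ∀ x, σ x = f x.1) : ∑ i, ∑ c, cnt (pc σ i) c ^ 2 = ∑ i, a i ^ 2 := by
  refine Finset.sum_congr rfl fun i _ => ?_
  rw [sum_cnt_sq_const (pc σ i) (f i) (fun v => h ⟨i, v⟩), Fintype.card_fin]

/-- the colours that are used -/
def used (a : I → ℕ) (σ : (Σ i, Fin (a i)) → K) : Finset K := univ.filter fun c => cnt σ c ≠ 0

omit [DecidableEq I] in
theorem sum_used (a : I → ℕ) (σ : (Σ i, Fin (a i)) → K) (g : ℕ → ℕ) (hg : g 0 = 0) :
    ∑ c ∈ used a σ, g (cnt σ c) = ∑ c, g (cnt σ c) := by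
  rw [used, Finset.sum_filter]
  refine Finset.sum_congr rfl fun c _ => ?_
  split_ifs with h
  · rfl
  · rw [not_not.1 h, hg]

omit [DecidableEq I] [Fintype K] in
theorem Gr_cnt {a : I → ℕ} {B : ℕ} {σ : (Σ i, Fin (a i)) → K} (h : Gr a B σ) (c : K) :
    cnt σ c = 0 ∨ cnt σ c = B := by
  obtain ⟨f, hf, hc⟩ := h
  rw [cnt_mono a σ f hf]
  exact hc c

omit [DecidableEq I] in
theorem Gr_used {a : I → ℕ} {B k0 : ℕ} (hB : 0 < B) (hn : ∑ i, a i = k0 * B)
    {σ : (Σ i, Fin (a i)) → K} (h : Gr a B σ) : (used a σ).card = k0 := by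
  have h1 := sum_cnt_one σ
  have h2 : ∑ c, cnt σ c = (used a σ).card * B := by
    rw [← sum_used a σ (fun x => x) rfl, Finset.sum_congr rfl (g := fun _ => B),
      Finset.sum_const, smul_eq_mul]
    intro c hc
    rcases Gr_cnt h c with h3 | h3
    · exact absurd h3 (Finset.mem_filter.1 hc).2
    · exact h3
  have h3 : Fintype.card (Σ i, Fin (a i)) = ∑ i, a i := by simp
  rw [h2, h3, hn] at h1
  exact Nat.eq_of_mul_eq_mul_right hB h1

omit [DecidableEq I] in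
/-- monochromatic edges of a ground state -/
theorem dm_Gr {a : I → ℕ} {B k0 e : ℕ} (hB : 0 < B) (hn : ∑ i, a i = k0 * B)
    (he : 2 * e + ∑ i, a i ^ 2 = k0 * B ^ 2)
    {σ : (Σ i, Fin (a i)) → K} (h : Gr a B σ) : dm (G0 a) σ = 2 * e := by
  have h1 := dm_G0 a σ
  have h2 : ∑ c, cnt σ c ^ 2 = k0 * B ^ 2 := by
    rw [← Gr_used hB hn h, ← sum_used a σ (fun x => x ^ 2) rfl,
      Finset.sum_congr rfl (g := fun _ => B ^ 2), Finset.sum_const, smul_eq_mul]
    intro c hc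
    rcases Gr_cnt h c with h3 | h3
    · exact absurd h3 (Finset.mem_filter.1 hc).2
    · rw [h3]
  obtain ⟨f, hf, _⟩ := h
  rw [h2, sum_parts_mono a σ f hf] at h1
  omega

omit [DecidableEq I] in
/-- **The gap**: a colouring with `k0` colours that is not a ground state has at least `t - 1`
more monochromatic edges. -/
theorem gap {a : I → ℕ} {B k0 e t : ℕ} (ht : 1 ≤ t) (ha : ∀ i, 0 < a i) (hta : ∀ i, t ∣ a i)
    (htB : t ∣ B) (hn : ∑ i, a i = k0 * B) (he : 2 * e + ∑ i, a i ^ 2 = k0 * B ^ 2)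
    {σ : (Σ i, Fin (a i)) → K} (hk : (used a σ).card = k0) (h : ¬ Gr a B σ) :
    2 * (e + (t - 1)) ≤ dm (G0 a) σ := by
  classical
  have h1 := dm_G0 a σ
  have hcard : Fintype.card (Σ i, Fin (a i)) = ∑ i, a i := by simp
  have hsum : ∑ c, cnt σ c = k0 * B := by rw [sum_cnt_one, hcard, hn]
  -- the sum of squares
  have hsq : (∑ c, cnt σ c ^ 2 : ℤ) = k0 * B ^ 2 + ∑ c ∈ used a σ, ((cnt σ c : ℤ) - B) ^ 2 := by
    have e1 : ∑ c ∈ used a σ, ((cnt σ c : ℤ) - B) ^ 2 =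
        ∑ c ∈ used a σ, (cnt σ c : ℤ) ^ 2 - 2 * B * ∑ c ∈ used a σ, (cnt σ c : ℤ) +
          (used a σ).card * B ^ 2 := by
      rw [Finset.mul_sum, ← Finset.sum_sub_distrib]
      rw [← nsmul_eq_mul, ← Finset.sum_const, ← Finset.sum_add_distrib]
      exact Finset.sum_congr rfl fun c _ => by ring
    have e2 : ∑ c ∈ used a σ, (cnt σ c : ℤ) ^ 2 = ∑ c, (cnt σ c : ℤ) ^ 2 := by
      have := sum_used a σ (fun x => x ^ 2) rfl
      exact_mod_cast this
    have e3 : ∑ c ∈ used a σ, (cnt σ c : ℤ) = k0 * B := by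
      have := sum_used a σ (fun x => x) rfl
      rw [hsum] at this
      exact_mod_cast this
    rw [e1, e2, e3, hk]
    ring
  have hnn : (0 : ℤ) ≤ ∑ c ∈ used a σ, ((cnt σ c : ℤ) - B) ^ 2 :=
    Finset.sum_nonneg fun _ _ => sq_nonneg _
  have hsq2 : k0 * B ^ 2 ≤ ∑ c, cnt σ c ^ 2 := by
    have : (k0 * B ^ 2 : ℤ) ≤ ∑ c, (cnt σ c : ℤ) ^ 2 := by rw [hsq]; omega
    exact_mod_cast this
  have hparts : ∀ i, ∑ c, cnt (pc σ i) c ^ 2 ≤ a i ^ 2 := fun i => by
    have := sum_cnt_sq_le (pc σ i)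
    rwa [Fintype.card_fin] at this
  by_cases hm : ∀ i : I, ∀ j j' : Fin (a i), σ ⟨i, j⟩ = σ ⟨i, j'⟩
  · -- all parts are monochromatic
    let f : I → K := fun i => σ ⟨i, ⟨0, ha i⟩⟩
    have hf : ∀ x, σ x = f x.1 := fun x => hm x.1 x.2 _
    have h2 := sum_parts_mono a σ f hf
    have h3 : ∃ c, cnt σ c ≠ 0 ∧ cnt σ c ≠ B := by
      by_contra hcon
      push Not at hcon
      apply h
      refine ⟨f, hf, fun c => ?_⟩
      rw [← cnt_mono a σ f hf]
      by_cases h0 : cnt σ c = 0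
      · exact Or.inl h0
      · exact Or.inr (hcon c h0)
    obtain ⟨c, hc0, hcB⟩ := h3
    have hdiv : t ∣ cnt σ c := by
      rw [cnt_mono a σ f hf]
      exact Finset.dvd_sum fun i _ => hta i
    obtain ⟨x, hx⟩ := hdiv
    obtain ⟨β, hβ⟩ := htB
    have h4 : (t : ℤ) ^ 2 ≤ ((cnt σ c : ℤ) - B) ^ 2 := by
      rw [hx, hβ]
      push_cast
      have hne : (x : ℤ) - β ≠ 0 := by
        intro h0
        apply hcB
        rw [hx, hβ]
        have : x = β := by omega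
        rw [this]
      have h5 : (1 : ℤ) ≤ ((x : ℤ) - β) ^ 2 := by
        have := sq_nonneg ((x : ℤ) - β)
        have h6 : ((x : ℤ) - β) ^ 2 ≠ 0 := pow_ne_zero 2 hne
        omega
      have h7 : ((t : ℤ) * x - t * β) ^ 2 = t ^ 2 * (x - β) ^ 2 := by ring
      rw [h7]
      nlinarith [sq_nonneg (t : ℤ)]
    have h5 : ((cnt σ c : ℤ) - B) ^ 2 ≤ ∑ c ∈ used a σ, ((cnt σ c : ℤ) - B) ^ 2 :=
      Finset.single_le_sum (f := fun c => ((cnt σ c : ℤ) - B) ^ 2) (fun _ _ => sq_nonneg _)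
        (Finset.mem_filter.2 ⟨mem_univ _, hc0⟩)
    have h6 : (k0 * B ^ 2 + t ^ 2 : ℤ) ≤ ∑ c, (cnt σ c : ℤ) ^ 2 := by rw [hsq]; omega
    have h7 : k0 * B ^ 2 + t ^ 2 ≤ ∑ c, cnt σ c ^ 2 := by exact_mod_cast h6
    have h8 : 2 * (t - 1) ≤ t ^ 2 := by
      obtain ⟨s, rfl⟩ : ∃ s, t = s + 1 := ⟨t - 1, by omega⟩
      simp only [Nat.add_sub_cancel]
      nlinarith
    omega
  · push Not at hm
    obtain ⟨i, j, j', hjj⟩ := hm
    have h2 := sum_cnt_sq_split (pc σ i) j j' hjj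
    rw [Fintype.card_fin] at h2
    have h3 : ∑ i, ∑ c, cnt (pc σ i) c ^ 2 + 2 * (a i - 1) ≤ ∑ i, a i ^ 2 := by
      rw [← Finset.add_sum_erase univ _ (mem_univ i), ← Finset.add_sum_erase univ (fun i => a i ^ 2)
        (mem_univ i)]
      have h4 : ∑ x ∈ univ.erase i, ∑ c, cnt (pc σ x) c ^ 2 ≤ ∑ x ∈ univ.erase i, a x ^ 2 :=
        Finset.sum_le_sum fun x _ => hparts x
      omega
    have h4 : t ≤ a i := Nat.le_of_dvd (ha i) (hta i)
    omega

omit [DecidableEq I] in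
/-- a colouring with one colour has many monochromatic edges -/
theorem gap_one {a : I → ℕ} {B k0 e t : ℕ} (ht : t ≤ B) (hk0 : 2 ≤ k0)
    (hn : ∑ i, a i = k0 * B) (he : 2 * e + ∑ i, a i ^ 2 = k0 * B ^ 2)
    {σ : (Σ i, Fin (a i)) → K} (hk : (used a σ).card = 1) :
    2 * (e + (t - 1)) ≤ dm (G0 a) σ := by
  have h1 := dm_G0 a σ
  have hcard : Fintype.card (Σ i, Fin (a i)) = ∑ i, a i := by simp
  have hsum : ∑ c, cnt σ c = k0 * B := by rw [sum_cnt_one, hcard, hn]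
  obtain ⟨c, hc⟩ := Finset.card_eq_one.1 hk
  have e1 : ∑ c ∈ used a σ, cnt σ c = k0 * B := by
    rw [← hsum]; exact sum_used a σ (fun x => x) rfl
  have e2 : ∑ c ∈ used a σ, cnt σ c ^ 2 = ∑ c, cnt σ c ^ 2 := sum_used a σ (fun x => x ^ 2) rfl
  rw [hc, Finset.sum_singleton] at e1 e2
  rw [← e2, e1] at h1
  have hparts : ∑ i, ∑ c, cnt (pc σ i) c ^ 2 ≤ ∑ i, a i ^ 2 := Finset.sum_le_sum fun i _ => by
    have := sum_cnt_sq_le (pc σ i)
    rwa [Fintype.card_fin] at this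
  have h2 : k0 * B ^ 2 + 2 * B ^ 2 ≤ (k0 * B) ^ 2 := by
    obtain ⟨k, rfl⟩ : ∃ k, k0 = k + 2 := ⟨k0 - 2, by omega⟩
    have : ((k + 2) * B) ^ 2 = (k + 2) * B ^ 2 + 2 * B ^ 2 + (k ^ 2 + 3 * k) * B ^ 2 := by ring
    rw [this]
    exact Nat.le_add_right _ _
  have h3 : 2 * (t - 1) ≤ 2 * B ^ 2 := by
    have : B ≤ B ^ 2 := Nat.le_self_pow (by norm_num) B
    omega
  omega

end Parts

end Pool.Agent.W887.CG
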