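import Mathlib

/-!
# Connected spanning subgraphs and colourings
-/

namespace Pool.Agent.W887.CG

open Finset

/-- the number of connected spanning subgraphs of a graph -/
noncomputable def numConn {V : Type*} (G : SimpleGraph V) : ℕ :=
  Nat.card {H : SimpleGraph V // H ≤ G ∧ H.Connected}

/-- isomorphic graphs have the same number of connected spanning subgraphs -/
theorem numConn_iso {V W : Type*} {G : SimpleGraph V} {G' : SimpleGraph W} (e : G ≃g G') :
    numConn G = numConn G' := by
  unfold numConn
  refine Nat.card_congr ⟨fun H => ⟨H.1.comap e.symm, ?_, ?_⟩, fun H => ⟨H.1.comap e, ?_, ?_⟩,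
    ?_, ?_⟩
  · intro u v h
    have := H.2.1 h
    exact e.symm.map_rel_iff.1 this
  · exact (SimpleGraph.Iso.connected_iff (SimpleGraph.Iso.comap e.symm.toEquiv H.1)).2 H.2.2
  · intro u v h
    have := H.2.1 h
    exact e.map_rel_iff.1 this
  · exact (SimpleGraph.Iso.connected_iff (SimpleGraph.Iso.comap e.toEquiv H.1)).2 H.2.2
  · rintro ⟨H, hH⟩
    apply Subtype.ext
    ext u v
    simp
  · rintro ⟨H, hH⟩
    apply Subtype.ext
    ext u v
    simp

section Mono

variable {V K : Type*}

/-- the edges of `G` whose ends have the same colour -/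
def monoG (G : SimpleGraph V) (σ : V → K) : SimpleGraph V where
  Adj u v := G.Adj u v ∧ σ u = σ v
  symm := ⟨fun _ _ h => ⟨h.1.symm, h.2.symm⟩⟩
  loopless := ⟨fun _ h => G.irrefl h.1⟩

theorem le_monoG {G H : SimpleGraph V} {σ : V → K} :
    H ≤ monoG G σ ↔ H ≤ G ∧ ∀ u v, H.Adj u v → σ u = σ v := by
  constructor
  · intro h
    exact ⟨fun u v huv => (h huv).1, fun u v huv => (h huv).2⟩
  · rintro ⟨h1, h2⟩ u v huv
    exact ⟨h1 huv, h2 u v huv⟩

variable [Fintype V]

open Classical in
/-- twice the number of monochromatic edges -/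
noncomputable def dm (G : SimpleGraph V) (σ : V → K) : ℕ :=
  (univ.filter fun p : V × V => G.Adj p.1 p.2 ∧ σ p.1 = σ p.2).card

/-- the number of spanning subgraphs is a power of two -/
theorem card_le_graph (M : SimpleGraph V) [DecidableRel M.Adj] :
    Nat.card {H : SimpleGraph V // H ≤ M} = 2 ^ M.edgeFinset.card := by
  classical
  have e : {H : SimpleGraph V // H ≤ M} ≃ Set M.edgeSet :=
    { toFun := fun H => {e | e.1 ∈ H.1.edgeSet}
      invFun := fun s => ⟨SimpleGraph.fromEdgeSet (Subtype.val '' s), by
        intro u v h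
        rw [SimpleGraph.fromEdgeSet_adj] at h
        obtain ⟨⟨x, _, hx⟩, _⟩ := h
        have := x.2
        rw [hx] at this
        exact this⟩
      left_inv := by
        rintro ⟨H, hH⟩
        apply Subtype.ext
        ext u v
        simp only [SimpleGraph.fromEdgeSet_adj, Set.mem_image, Set.mem_ofPred_eq]
        constructor
        · rintro ⟨⟨x, hx, hx2⟩, _⟩
          rw [hx2] at hx
          exact hx
        · intro h
          exact ⟨⟨⟨s(u, v), hH h⟩, h, rfl⟩, h.ne⟩
      right_inv := by
        intro s
        ext ⟨x, hx⟩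
        simp only [SimpleGraph.edgeSet_fromEdgeSet, Set.mem_ofPred_eq, Set.mem_sdiff, Set.mem_image]
        constructor
        · rintro ⟨⟨y, hy, hy2⟩, _⟩
          have : y = ⟨x, hx⟩ := Subtype.ext hy2
          rw [← this]; exact hy
        · intro h
          exact ⟨⟨_, h, rfl⟩, fun hd => M.not_isDiag_of_mem_edgeSet hx hd⟩ }
  rw [Nat.card_congr e, Nat.card_eq_fintype_card, Fintype.card_set, SimpleGraph.edgeFinset_card]

theorem two_pow_dm (G : SimpleGraph V) (σ : V → K) :
    2 ^ (dm G σ / 2) = Nat.card {H : SimpleGraph V // H ≤ monoG G σ} := by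
  classical
  rw [card_le_graph]
  congr 1
  have h := (monoG G σ).two_mul_card_edgeFinset
  have h2 : dm G σ = #(univ.filter fun (x : V × V) => (monoG G σ).Adj x.1 x.2) := by
    unfold dm
    congr 1
    ext p
    simp only [mem_filter, mem_univ, true_and]
    rfl
  rw [h2, ← h]
  omega

end Mono

section Main

variable {V K : Type*} [Fintype V] [DecidableEq V] [Fintype K] [DecidableEq K] [AddCommGroup K]

open Classical in
/-- the colourings that are constant along the edges of `H`, with value `0` at `v0` -/
noncomputable def NH (K : Type*) [Fintype K] [DecidableEq K] [AddCommGroup K]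
    (H : SimpleGraph V) (v0 : V) : Finset (V → K) :=
  univ.filter fun σ : V → K => σ v0 = 0 ∧ ∀ u v, H.Adj u v → σ u = σ v

omit [Fintype V] [DecidableEq V] [Fintype K] [DecidableEq K] [AddCommGroup K] in
theorem eq_of_reachable {H : SimpleGraph V} {σ : V → K} (h : ∀ u v, H.Adj u v → σ u = σ v)
    {u v : V} (huv : H.Reachable u v) : σ u = σ v := by
  obtain ⟨p⟩ := huv
  induction p with
  | nil => rfl
  | cons hadj _ ih => exact (h _ _ hadj).trans ih

theorem NH_connected (H : SimpleGraph V) (v0 : V) (hH : H.Connected) : (NH K H v0).card = 1 := by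
  rw [Finset.card_eq_one]
  refine ⟨fun _ => 0, ?_⟩
  ext σ
  simp only [NH, mem_filter, mem_univ, true_and, mem_singleton]
  constructor
  · rintro ⟨h1, h2⟩
    funext v
    rw [← h1]
    exact (eq_of_reachable h2 (hH.preconnected v0 v)).symm
  · rintro rfl
    simp

open Classical in
/-- shift the colours of the component of `w` -/
noncomputable def shiftC (H : SimpleGraph V) (w : V) (κ : K) (σ : V → K) : V → K :=
  fun v => if H.Reachable w v then σ v + κ else σ v

theorem shiftC_mem {H : SimpleGraph V} {v0 w : V} (hw : ¬ H.Reachable w v0) {κ : K} {σ : V → K}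
    (h : σ ∈ NH K H v0) : shiftC H w κ σ ∈ NH K H v0 := by
  simp only [NH, mem_filter, mem_univ, true_and] at h ⊢
  refine ⟨?_, fun u v huv => ?_⟩
  · simp only [shiftC, if_neg hw]
    exact h.1
  · have h3 : H.Reachable w u ↔ H.Reachable w v :=
      ⟨fun hu => hu.trans huv.reachable, fun hv => hv.trans huv.symm.reachable⟩
    simp only [shiftC, h.2 u v huv]
    by_cases hr : H.Reachable w u
    · rw [if_pos hr, if_pos (h3.1 hr)]
    · rw [if_neg hr, if_neg fun hc => hr (h3.2 hc)]

theorem NH_not_connected (H : SimpleGraph V) (v0 : V) (hH : ¬ H.Connected) :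
    Fintype.card K ∣ (NH K H v0).card := by
  classical
  obtain ⟨w, hw⟩ : ∃ w, ¬ H.Reachable w v0 := by
    by_contra hc
    push Not at hc
    apply hH
    have : Nonempty V := ⟨v0⟩
    exact ⟨fun u v => (hc u).trans (hc v).symm⟩
  have e : (NH K H v0) ≃ K × {σ // σ ∈ (NH K H v0).filter fun σ => σ w = 0} :=
    { toFun := fun σ => (σ.1 w, ⟨shiftC H w (-(σ.1 w)) σ.1, by
        rw [mem_filter]
        refine ⟨shiftC_mem hw σ.2, ?_⟩
        simp [shiftC]⟩)
      invFun := fun p => ⟨shiftC H w p.1 p.2.1, shiftC_mem hw (mem_filter.1 p.2.2).1⟩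
      left_inv := by
        rintro ⟨σ, hσ⟩
        apply Subtype.ext
        funext v
        simp only [shiftC]
        split_ifs with h
        · simp
        · rfl
      right_inv := by
        rintro ⟨κ, σ, hσ⟩
        have h0 : σ w = 0 := (mem_filter.1 hσ).2
        refine Prod.ext ?_ (Subtype.ext ?_)
        · simp [shiftC, h0]
        · funext v
          simp only [shiftC]
          split_ifs with h1 h2
          · rw [h0]; simp
          · exact absurd (SimpleGraph.Reachable.refl w) h2
          · rfl }
  have h := Fintype.card_congr e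
  rw [Fintype.card_prod, Fintype.card_coe] at h
  exact ⟨_, h⟩

/-- **Connected spanning subgraphs and colourings.** Modulo the number of colours, the number of
connected spanning subgraphs is the sum of `2 ^ (number of monochromatic edges)` over the
colourings with a fixed colour at `v0`. -/
theorem numConn_modEq (G : SimpleGraph V) (v0 : V) :
    (∑ σ ∈ univ.filter (fun σ : V → K => σ v0 = 0), 2 ^ (dm G σ / 2)) ≡ numConn G
      [MOD Fintype.card K] := by
  classical
  have h1 : (∑ σ ∈ univ.filter (fun σ : V → K => σ v0 = 0), 2 ^ (dm G σ / 2)) =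
      ∑ H ∈ univ.filter (fun H : SimpleGraph V => H ≤ G), (NH K H v0).card := by
    have h2 : ∀ σ : V → K, 2 ^ (dm G σ / 2) =
        ∑ H ∈ univ.filter (fun H : SimpleGraph V => H ≤ G),
          if ∀ u v, H.Adj u v → σ u = σ v then 1 else 0 := by
      intro σ
      rw [two_pow_dm, Nat.card_eq_fintype_card, Fintype.card_subtype, ← Finset.card_filter,
        Finset.filter_filter]
      congr 1
      ext H
      simp only [mem_filter, mem_univ, true_and, le_monoG]
    simp_rw [h2]
    rw [Finset.sum_comm]
    refine Finset.sum_congr rfl fun H _ => ?_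
    rw [← Finset.card_filter, Finset.filter_filter]
    rfl
  have h3 : numConn G = ∑ H ∈ univ.filter (fun H : SimpleGraph V => H ≤ G),
      if H.Connected then 1 else 0 := by
    unfold numConn
    rw [← Finset.card_filter, Finset.filter_filter, Nat.card_eq_fintype_card,
      Fintype.card_subtype]
  rw [h1, h3]
  have key : ∀ H ∈ univ.filter (fun H : SimpleGraph V => H ≤ G),
      (NH K H v0).card ≡ (if H.Connected then 1 else 0) [MOD Fintype.card K] := by
    intro H _
    split_ifs with h
    · rw [NH_connected H v0 h]
    · exact (Nat.modEq_zero_iff_dvd).2 (NH_not_connected H v0 h)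
  generalize (univ.filter (fun H : SimpleGraph V => H ≤ G)) = S at key
  induction S using Finset.induction_on with
  | empty => rfl
  | insert a S ha ih =>
    rw [Finset.sum_insert ha, Finset.sum_insert ha]
    exact (key a (Finset.mem_insert_self _ _)).add
      (ih fun H hH => key H (Finset.mem_insert_of_mem hH))

end Main

end Pool.Agent.W887.CG
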