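import Pool.Agent.W887.CG.Engine

/-!
# Parts of a complete multipartite graph encoding a 0-1 matrix: groups of equal sum
-/

namespace Pool.Agent.W887.CG

open Finset

/-- bound for the small parts of the sizes -/
def Uc (n : ℕ) : ℕ := 2 * n * n + 2 * n
/-- the unit of the types of the items -/
def Sc (n : ℕ) : ℕ := 4 * Uc n + 4
/-- the large unit -/
def Hc (n : ℕ) : ℕ := 9 * Sc n
/-- the sum of a group -/
def Bc (n : ℕ) : ℕ := 3 * Hc n + 7 * Sc n + Uc n

/-- small part of a head item -/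
def z1 (n r c : ℕ) : ℕ := Uc n - (2 * r + 2 * n * (c + 1))
/-- small part of a row item -/
def z2 (r : ℕ) (R : Bool) : ℕ := 2 * r + R.toNat
/-- small part of a column item -/
def z3 (n c : ℕ) (C : Bool) : ℕ := 2 * n * (c + 1) - C.toNat

/-- size of a head item -/
def s1 (n r c : ℕ) : ℕ := Hc n + 4 * Sc n + z1 n r c
/-- size of a row item -/
def s2 (n r : ℕ) (R : Bool) : ℕ := Hc n + Sc n + z2 r R
/-- size of a column item -/
def s3 (n c : ℕ) (C : Bool) : ℕ := Hc n + 2 * Sc n + z3 n c C

theorem toNat_le (b : Bool) : b.toNat ≤ 1 := by cases b <;> simp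

theorem code_le {n r c : ℕ} (hr : r < n) (hc : c < n) : 2 * r + 2 * n * (c + 1) ≤ Uc n := by
  unfold Uc
  have h : 2 * n * (c + 1) ≤ 2 * n * n := Nat.mul_le_mul_left _ hc
  omega

theorem z2_le {n r : ℕ} (hr : r < n) (R : Bool) : z2 r R ≤ Uc n := by
  unfold z2 Uc
  have := toNat_le R
  have h : 0 ≤ 2 * n * n := Nat.zero_le _
  omega

theorem z3_le {n c : ℕ} (hc : c < n) (C : Bool) : z3 n c C ≤ Uc n := by
  unfold z3 Uc
  have h : 2 * n * (c + 1) ≤ 2 * n * n := Nat.mul_le_mul_left _ hc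
  omega

/-- the labels of the items of a group match -/
theorem codes_match {n r c r2 c3 : ℕ} {R C : Bool} (hr : r < n) (hc : c < n) (hr2 : r2 < n)
    (_hc3 : c3 < n) (h : z1 n r c + z2 r2 R + z3 n c3 C = Uc n) : r2 = r ∧ c3 = c ∧ R = C := by
  have h1 := code_le hr hc
  have h2 : C.toNat ≤ 2 * n * (c3 + 1) := by
    have := toNat_le C
    have h3 : 2 * n * 1 ≤ 2 * n * (c3 + 1) := Nat.mul_le_mul_left _ (by omega)
    omega
  unfold z1 z2 z3 at h
  have hR := toNat_le R
  have hC := toNat_le C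
  have e : 2 * r2 + R.toNat + 2 * n * (c3 + 1) = 2 * r + C.toNat + 2 * n * (c + 1) := by omega
  have hcc : c3 = c := by
    rcases Nat.lt_trichotomy c3 c with hlt | heq | hgt
    · exfalso
      have h4 : 2 * n * (c3 + 1 + 1) ≤ 2 * n * (c + 1) := Nat.mul_le_mul_left _ (by omega)
      have h5 : 2 * n * (c3 + 1 + 1) = 2 * n * (c3 + 1) + 2 * n := by ring
      omega
    · exact heq
    · exfalso
      have h4 : 2 * n * (c + 1 + 1) ≤ 2 * n * (c3 + 1) := Nat.mul_le_mul_left _ (by omega)
      have h5 : 2 * n * (c + 1 + 1) = 2 * n * (c + 1) + 2 * n := by ring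
      omega
  subst hcc
  refine ⟨by omega, rfl, ?_⟩
  have : R.toNat = C.toNat := by omega
  cases R <;> cases C <;> simp_all

theorem codes_sum {n r c : ℕ} {R : Bool} (hr : r < n) (hc : c < n) :
    z1 n r c + z2 r R + z3 n c R = Uc n := by
  have h1 := code_le hr hc
  have h2 : R.toNat ≤ 2 * n * (c + 1) := by
    have := toNat_le R
    have h3 : 2 * n * 1 ≤ 2 * n * (c + 1) := Nat.mul_le_mul_left _ (by omega)
    omega
  unfold z1 z2 z3
  omega

theorem sum_group {n r c : ℕ} {R : Bool} (hr : r < n) (hc : c < n) :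
    s1 n r c + s2 n r R + s3 n c R = Bc n := by
  have := codes_sum (R := R) hr hc
  unfold s1 s2 s3 Bc
  omega

/-- a group has one item of each kind -/
theorem group_num {n x1 x2 x3 z : ℕ} (hz : z ≤ (x1 + x2 + x3) * Uc n)
    (h : Hc n * (x1 + x2 + x3) + Sc n * (4 * x1 + x2 + 2 * x3) + z = Bc n) :
    x1 = 1 ∧ x2 = 1 ∧ x3 = 1 ∧ z = Uc n := by
  unfold Bc Hc Sc at h
  generalize Uc n = U at *
  have hx : x1 + x2 + x3 < 4 := by
    by_contra hc
    have h1 : 9 * (4 * U + 4) * 4 ≤ 9 * (4 * U + 4) * (x1 + x2 + x3) :=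
      Nat.mul_le_mul_left _ (by omega)
    omega
  have h1 : x1 < 4 := by omega
  have h2 : x2 < 4 := by omega
  have h3 : x3 < 4 := by omega
  interval_cases x1 <;> interval_cases x2 <;> interval_cases x3 <;> omega

section Items

variable {n : ℕ} {E D : Type} [Fintype E] [Fintype D]

/-- the sizes of the items: heads, dummies, row items, column items -/
def sI (t : ℕ) (row col : E → Fin n) (R C : E → Bool) : (E ⊕ D) ⊕ (E ⊕ E) → ℕ
  | .inl (.inl e) => t * s1 n (row e) (col e)
  | .inl (.inr _) => t * Bc n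
  | .inr (.inl e) => t * s2 n (row e) (R e)
  | .inr (.inr e) => t * s3 n (col e) (C e)

variable {K : Type*} [DecidableEq K]

/-- the sum of a class -/
theorem class_sum (t : ℕ) (row col : E → Fin n) (R C : E → Bool) (f : (E ⊕ D) ⊕ (E ⊕ E) → K)
    (c : K) : ∑ x ∈ univ.filter (fun x => f x = c), sI (D := D) t row col R C x =
    t * (∑ e ∈ univ.filter (fun e => f (.inl (.inl e)) = c), s1 n (row e) (col e) +
      (univ.filter (fun d => f (.inl (.inr d)) = c)).card * Bc n +
      (∑ e ∈ univ.filter (fun e => f (.inr (.inl e)) = c), s2 n (row e) (R e) +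
      ∑ e ∈ univ.filter (fun e => f (.inr (.inr e)) = c), s3 n (col e) (C e))) := by
  rw [Finset.sum_filter, Fintype.sum_sum_type, Fintype.sum_sum_type, Fintype.sum_sum_type]
  simp only [sI]
  rw [mul_add, mul_add, mul_add, Finset.mul_sum, Finset.mul_sum, Finset.mul_sum, Finset.sum_filter,
    Finset.sum_filter, Finset.sum_filter, Finset.card_filter, Finset.sum_mul, Finset.mul_sum]
  have h : ∀ i : D, t * ((if f (Sum.inl (Sum.inr i)) = c then 1 else 0) * Bc n) =
      if f (Sum.inl (Sum.inr i)) = c then t * Bc n else 0 := fun i => by split_ifs <;> simp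
  simp only [h]

theorem Bc_pos (n : ℕ) : 0 < Bc n := by unfold Bc Hc Sc; omega

theorem Hc_pos (n : ℕ) : 0 < Hc n := by unfold Hc Sc; omega

/-- **The structure of a group of sum `Bc n`.** -/
theorem group_struct {t : ℕ} (ht : 0 < t) (row col : E → Fin n) (R C : E → Bool)
    (f : (E ⊕ D) ⊕ (E ⊕ E) → K) (c : K)
    (h : ∑ x ∈ univ.filter (fun x => f x = c), sI (D := D) t row col R C x = t * Bc n) :
    ((univ.filter (fun d => f (.inl (.inr d)) = c)).card = 1 ∧
      (∀ e, f (.inl (.inl e)) ≠ c) ∧ (∀ e, f (.inr (.inl e)) ≠ c) ∧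
      (∀ e, f (.inr (.inr e)) ≠ c)) ∨
    ((∀ d, f (.inl (.inr d)) ≠ c) ∧ ∃ e r s : E,
      (univ.filter (fun e => f (.inl (.inl e)) = c)) = {e} ∧
      (univ.filter (fun e => f (.inr (.inl e)) = c)) = {r} ∧
      (univ.filter (fun e => f (.inr (.inr e)) = c)) = {s} ∧
      row r = row e ∧ col s = col e ∧ R r = C s) := by
  rw [class_sum] at h
  have h0 := Nat.eq_of_mul_eq_mul_left ht h
  set E1 := univ.filter (fun e => f (.inl (.inl e)) = c) with hE1
  set Dd := univ.filter (fun d => f (.inl (.inr d)) = c) with hDd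
  set E2 := univ.filter (fun e => f (.inr (.inl e)) = c) with hE2
  set E3 := univ.filter (fun e => f (.inr (.inr e)) = c) with hE3
  have e1 : ∑ e ∈ E1, s1 n (row e) (col e) = E1.card * (Hc n + 4 * Sc n) +
      ∑ e ∈ E1, z1 n (row e) (col e) := by
    unfold s1
    rw [Finset.sum_add_distrib, Finset.sum_const, smul_eq_mul]
  have e2 : ∑ e ∈ E2, s2 n (row e) (R e) = E2.card * (Hc n + Sc n) +
      ∑ e ∈ E2, z2 (row e) (R e) := by
    unfold s2
    rw [Finset.sum_add_distrib, Finset.sum_const, smul_eq_mul]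
  have e3 : ∑ e ∈ E3, s3 n (col e) (C e) = E3.card * (Hc n + 2 * Sc n) +
      ∑ e ∈ E3, z3 n (col e) (C e) := by
    unfold s3
    rw [Finset.sum_add_distrib, Finset.sum_const, smul_eq_mul]
  have b1 : ∑ e ∈ E1, z1 n (row e) (col e) ≤ E1.card * Uc n := by
    rw [← smul_eq_mul, ← Finset.sum_const]
    exact Finset.sum_le_sum fun e _ => Nat.sub_le _ _
  have b2 : ∑ e ∈ E2, z2 (row e) (R e) ≤ E2.card * Uc n := by
    rw [← smul_eq_mul, ← Finset.sum_const]
    exact Finset.sum_le_sum fun e _ => z2_le (row e).2 _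
  have b3 : ∑ e ∈ E3, z3 n (col e) (C e) ≤ E3.card * Uc n := by
    rw [← smul_eq_mul, ← Finset.sum_const]
    exact Finset.sum_le_sum fun e _ => z3_le (col e).2 _
  rw [e1, e2, e3] at h0
  have hempty : ∀ {α : Type} [Fintype α] (g : α → K), (univ.filter (fun e => g e = c)).card = 0 →
      ∀ e, g e ≠ c := by
    intro α _ g hg e he
    rw [Finset.card_eq_zero] at hg
    have : e ∈ univ.filter (fun e => g e = c) := by simp [he]
    rw [hg] at this
    simp at this
  have hH := Hc_pos n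
  rcases Nat.eq_zero_or_pos Dd.card with hd | hd
  · right
    rw [hd, zero_mul, add_zero] at h0
    have hz : ∑ e ∈ E1, z1 n (row e) (col e) + ∑ e ∈ E2, z2 (row e) (R e) +
        ∑ e ∈ E3, z3 n (col e) (C e) ≤ (E1.card + E2.card + E3.card) * Uc n := by
      rw [add_mul, add_mul]; omega
    have h1 : Hc n * (E1.card + E2.card + E3.card) + Sc n * (4 * E1.card + E2.card +
        2 * E3.card) + (∑ e ∈ E1, z1 n (row e) (col e) + ∑ e ∈ E2, z2 (row e) (R e) +
        ∑ e ∈ E3, z3 n (col e) (C e)) = Bc n := by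
      rw [← h0]; ring
    obtain ⟨x1, x2, x3, hz2⟩ := group_num hz h1
    obtain ⟨e, he⟩ := Finset.card_eq_one.1 x1
    obtain ⟨r, hr⟩ := Finset.card_eq_one.1 x2
    obtain ⟨s, hs⟩ := Finset.card_eq_one.1 x3
    rw [he, hr, hs, Finset.sum_singleton, Finset.sum_singleton, Finset.sum_singleton] at hz2
    obtain ⟨m1, m2, m3⟩ := codes_match (row e).2 (col e).2 (row r).2 (col s).2 hz2
    exact ⟨hempty (fun d : D => f (.inl (.inr d))) hd, e, r, s, he, hr, hs, Fin.ext m1,
      Fin.ext m2, m3⟩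
  · left
    have h1 : Bc n ≤ Dd.card * Bc n := Nat.le_mul_of_pos_left _ hd
    have h2 : Dd.card * Bc n = Bc n := by omega
    have h3 : Dd.card = 1 := by
      have : Dd.card * Bc n = 1 * Bc n := by rw [h2, one_mul]
      exact Nat.eq_of_mul_eq_mul_right (Bc_pos n) this
    have h4 : E1.card * (Hc n + 4 * Sc n) = 0 := by omega
    have h5 : E2.card * (Hc n + Sc n) = 0 := by omega
    have h6 : E3.card * (Hc n + 2 * Sc n) = 0 := by omega
    have h4' : E1.card = 0 := by
      rcases Nat.mul_eq_zero.1 h4 with h | h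
      · exact h
      · omega
    have h5' : E2.card = 0 := by
      rcases Nat.mul_eq_zero.1 h5 with h | h
      · exact h
      · omega
    have h6' : E3.card = 0 := by
      rcases Nat.mul_eq_zero.1 h6 with h | h
      · exact h
      · omega
    exact ⟨h3, hempty (fun d : E => f (.inl (.inl d))) h4',
      hempty (fun d : E => f (.inr (.inl d))) h5', hempty (fun d : E => f (.inr (.inr d))) h6'⟩

end Items

end Pool.Agent.W887.CG
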