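import Pool.Agent.W887.CG.Matrix

/-!
# The instances attached to a 0-1 matrix
-/

namespace Pool.Agent.W887.CG

open Finset
open Pool.Agent.H549R2.Convex (ent F F_eq_card)

theorem list_equiv {V α : Type} [DecidableEq α] (L : List α) (lab : V → α) (hnd : L.Nodup)
    (hinj : Function.Injective lab) (hmem : ∀ v, lab v ∈ L) (hsurj : ∀ u ∈ L, ∃ v, lab v = u) :
    ∃ φ : V ≃ Fin L.length, ∀ v, L[(φ v).val] = lab v := by
  let φ : V → Fin L.length := fun v => ⟨L.idxOf (lab v), List.idxOf_lt_length_of_mem (hmem v)⟩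
  have hget : ∀ v, L[L.idxOf (lab v)]'(List.idxOf_lt_length_of_mem (hmem v)) = lab v :=
    fun v => List.getElem_idxOf _
  have hφi : Function.Injective φ := by
    intro v w h
    apply hinj
    rw [← hget v, ← hget w]
    have : L.idxOf (lab v) = L.idxOf (lab w) := congrArg Fin.val h
    simp only [this]
  have hφs : Function.Surjective φ := by
    intro i
    obtain ⟨v, hv⟩ := hsurj L[i.val] (List.getElem_mem i.2)
    refine ⟨v, Fin.ext ?_⟩
    change L.idxOf (lab v) = i.val
    rw [hv]
    exact hnd.idxOf_getElem _ _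
  exact ⟨Equiv.ofBijective φ ⟨hφi, hφs⟩, hget⟩

/-- the ones of the matrix -/
def ed (A : List (List Bool)) : List (ℕ × ℕ) :=
  (List.range A.length).flatMap fun i =>
    ((List.range A.length).filter fun j => ent A i j).map fun j => (i, j)

theorem mem_ed {A : List (List Bool)} {e : ℕ × ℕ} :
    e ∈ ed A ↔ e.1 < A.length ∧ e.2 < A.length ∧ ent A e.1 e.2 = true := by
  obtain ⟨i, j⟩ := e
  simp only [ed, List.mem_flatMap, List.mem_range, List.mem_map, List.mem_filter, Prod.mk.injEq]
  constructor
  · rintro ⟨i', hi', j', ⟨hj', he⟩, h1, h2⟩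
    subst h1 h2
    exact ⟨hi', hj', he⟩
  · rintro ⟨h1, h2, h3⟩
    exact ⟨i, h1, j, ⟨h2, h3⟩, rfl, rfl⟩

theorem nodup_ed (A : List (List Bool)) : (ed A).Nodup := by
  unfold ed
  rw [List.nodup_flatMap]
  constructor
  · intro p _
    refine List.Nodup.map ?_ (List.nodup_range.filter _)
    intro x y h
    simpa using h
  · refine List.Pairwise.imp_of_mem ?_ (List.nodup_range (n := A.length))
    intro p q _ _ hpq
    rw [Function.onFun, List.disjoint_left]
    intro u hu hv
    rw [List.mem_map] at hu hv
    obtain ⟨x, _, rfl⟩ := hu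
    obtain ⟨y, _, hy⟩ := hv
    simp only [Prod.mk.injEq] at hy
    exact hpq hy.1.symm

/-- is the one the first one in its row -/
def fr (A : List (List Bool)) (e : ℕ × ℕ) : Bool :=
  (List.range A.length).all fun j => decide (e.2 ≤ j) || !ent A e.1 j
/-- is the one the first one in its column -/
def fc (A : List (List Bool)) (e : ℕ × ℕ) : Bool :=
  (List.range A.length).all fun i => decide (e.1 ≤ i) || !ent A i e.2

/-- the sizes of the parts -/
def partsL (A : List (List Bool)) (t d : ℕ) : List ℕ :=
  ((ed A).map (fun e => t * s1 A.length e.1 e.2) ++ List.replicate d (t * Bc A.length)) ++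
    ((ed A).map (fun e => t * s2 A.length e.1 (fr A e)) ++
      (ed A).map (fun e => t * s3 A.length e.2 (fc A e)))

/-- no row and no column is zero -/
def NonDeg (A : List (List Bool)) : Prop :=
  (∀ i < A.length, ∃ j < A.length, ent A i j = true) ∧
    ∀ j < A.length, ∃ i < A.length, ent A i j = true

section Types

variable (A : List (List Bool))

/-- the type of the ones -/
abbrev EA : Type := {p : Fin A.length × Fin A.length // ent A p.1.val p.2.val = true}

/-- row of a one -/
def rw' (e : EA A) : Fin A.length := e.1.1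
/-- column of a one -/
def cl' (e : EA A) : Fin A.length := e.1.2
/-- first in the row -/
def R' (e : EA A) : Bool := fr A (e.1.1.val, e.1.2.val)
/-- first in the column -/
def C' (e : EA A) : Bool := fc A (e.1.1.val, e.1.2.val)

theorem exists_idxE : ∃ φ : EA A ≃ Fin (ed A).length,
    ∀ e, (ed A)[(φ e).val] = ((e.1.1.val, e.1.2.val) : ℕ × ℕ) := by
  refine list_equiv (ed A) (fun e : EA A => ((e.1.1.val, e.1.2.val) : ℕ × ℕ)) (nodup_ed A) ?_ ?_ ?_
  · intro e e' h
    simp only [Prod.mk.injEq] at h
    exact Subtype.ext (Prod.ext (Fin.ext h.1) (Fin.ext h.2))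
  · intro e
    exact mem_ed.2 ⟨e.1.1.2, e.1.2.2, e.2⟩
  · intro u hu
    obtain ⟨h1, h2, h3⟩ := mem_ed.1 hu
    exact ⟨⟨(⟨u.1, h1⟩, ⟨u.2, h2⟩), h3⟩, rfl⟩

theorem card_EA : Fintype.card (EA A) = (ed A).length := by
  obtain ⟨φ, _⟩ := exists_idxE A
  rw [Fintype.card_congr φ, Fintype.card_fin]

variable {A}

theorem fr_iff {i j : ℕ} (hj : j ≤ A.length) :
    fr A (i, j) = true ↔ ∀ j' < j, ent A i j' = false := by
  simp only [fr, List.all_eq_true, List.mem_range, Bool.or_eq_true, decide_eq_true_eq,
    Bool.not_eq_true']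
  exact ⟨fun h j' hj' => (h j' (by omega)).resolve_left (by omega),
    fun h x _ => (Nat.lt_or_ge x j).elim (fun hx => Or.inr (h x hx)) Or.inl⟩

theorem fc_iff {i j : ℕ} (hi : i ≤ A.length) :
    fc A (i, j) = true ↔ ∀ i' < i, ent A i' j = false := by
  simp only [fc, List.all_eq_true, List.mem_range, Bool.or_eq_true, decide_eq_true_eq,
    Bool.not_eq_true']
  exact ⟨fun h j' hj' => (h j' (by omega)).resolve_left (by omega),
    fun h x _ => (Nat.lt_or_ge x i).elim (fun hx => Or.inr (h x hx)) Or.inl⟩

theorem tr_row (h : NonDeg A) : Tr (rw' A) (R' A) := by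
  classical
  intro i
  obtain ⟨j, hj, hij⟩ := h.1 i.val i.2
  have hex : ∃ j, ent A i.val j = true := ⟨j, hij⟩
  have hle : Nat.find hex ≤ j := Nat.find_le hij
  refine ⟨⟨(i, ⟨Nat.find hex, by omega⟩), Nat.find_spec hex⟩, ⟨rfl, ?_⟩, ?_⟩
  · refine (fr_iff (by simp only; omega)).2 fun j' hj' => ?_
    have := Nat.find_min hex hj'
    simpa using this
  · rintro ⟨⟨i', j'⟩, he⟩ ⟨h1, h2⟩
    have h1' : i' = i := h1
    subst h1'
    have h3 := (fr_iff j'.2.le).1 h2
    have h4 : j'.val = Nat.find hex := by
      rcases Nat.lt_trichotomy j'.val (Nat.find hex) with hl | he' | hg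
      · exact absurd he (Nat.find_min hex hl)
      · exact he'
      · have := h3 _ hg
        rw [Nat.find_spec hex] at this
        exact absurd this (by simp)
    exact Subtype.ext (Prod.ext rfl (Fin.ext h4))

theorem tr_col (h : NonDeg A) : Tr (cl' A) (C' A) := by
  classical
  intro j
  obtain ⟨i, hi, hij⟩ := h.2 j.val j.2
  have hex : ∃ i, ent A i j.val = true := ⟨i, hij⟩
  have hle : Nat.find hex ≤ i := Nat.find_le hij
  refine ⟨⟨(⟨Nat.find hex, by omega⟩, j), Nat.find_spec hex⟩, ⟨rfl, ?_⟩, ?_⟩
  · refine (fc_iff (by simp only; omega)).2 fun j' hj' => ?_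
    have := Nat.find_min hex hj'
    simpa using this
  · rintro ⟨⟨i', j'⟩, he⟩ ⟨h1, h2⟩
    have h1' : j' = j := h1
    subst h1'
    have h3 := (fc_iff i'.2.le).1 h2
    have h4 : i'.val = Nat.find hex := by
      rcases Nat.lt_trichotomy i'.val (Nat.find hex) with hl | he' | hg
      · exact absurd he (Nat.find_min hex hl)
      · exact he'
      · have := h3 _ hg
        rw [Nat.find_spec hex] at this
        exact absurd this (by simp)
    exact Subtype.ext (Prod.ext (Fin.ext h4) rfl)

/-- number of ones in a row -/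
def rdeg (A : List (List Bool)) (i : ℕ) : ℕ := ((List.range A.length).filter fun j => ent A i j).length
/-- number of ones in a column -/
def cdeg (A : List (List Bool)) (j : ℕ) : ℕ := ((List.range A.length).filter fun i => ent A i j).length

theorem filter_range_card (n : ℕ) (p : ℕ → Bool) :
    ((List.range n).filter p).length = (univ.filter fun i : Fin n => p i.val = true).card := by
  have h0 : (fun b => decide (p b = true)) = p := by
    funext b
    cases p b <;> rfl
  have h1 : ((List.range n).filter p).length =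
      ((Finset.range n).filter fun i => p i = true).card := by
    conv_lhs => rw [← h0]
    rfl
  rw [h1, Finset.card_filter, Finset.card_filter, Finset.sum_range]

theorem deg_row (i : Fin A.length) : deg (rw' A) i = rdeg A i.val := by
  rw [rdeg, filter_range_card, deg]
  refine Finset.card_bij (fun e _ => e.1.2) ?_ ?_ ?_
  · intro e he
    have h1 : e.1.1 = i := (mem_filter.1 he).2
    rw [mem_filter]
    refine ⟨mem_univ _, ?_⟩
    rw [← h1]
    exact e.2
  · intro e he e' he' h
    have h1 : e.1.1 = i := (mem_filter.1 he).2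
    have h2 : e'.1.1 = i := (mem_filter.1 he').2
    exact Subtype.ext (Prod.ext (h1.trans h2.symm) h)
  · intro j hj
    exact ⟨⟨(i, j), (mem_filter.1 hj).2⟩, by rw [mem_filter]; exact ⟨mem_univ _, rfl⟩, rfl⟩

theorem deg_col (j : Fin A.length) : deg (cl' A) j = cdeg A j.val := by
  rw [cdeg, filter_range_card, deg]
  refine Finset.card_bij (fun e _ => e.1.1) ?_ ?_ ?_
  · intro e he
    have h1 : e.1.2 = j := (mem_filter.1 he).2
    rw [mem_filter]
    refine ⟨mem_univ _, ?_⟩
    rw [← h1]
    exact e.2
  · intro e he e' he' h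
    have h1 : e.1.2 = j := (mem_filter.1 he).2
    have h2 : e'.1.2 = j := (mem_filter.1 he').2
    exact Subtype.ext (Prod.ext h (h1.trans h2.symm))
  · intro i hi
    exact ⟨⟨(i, j), (mem_filter.1 hi).2⟩, by rw [mem_filter]; exact ⟨mem_univ _, rfl⟩, rfl⟩

/-- the product of the factorials -/
def QF (A : List (List Bool)) : ℕ :=
  ((List.range A.length).map fun i => (rdeg A i - 1).factorial).prod *
    ((List.range A.length).map fun i => (cdeg A i - 1).factorial).prod

theorem QF_pos (A : List (List Bool)) : 0 < QF A := by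
  unfold QF
  apply Nat.mul_pos <;>
  · apply List.prod_pos
    intro x hx
    rw [List.mem_map] at hx
    obtain ⟨y, _, rfl⟩ := hx
    exact Nat.factorial_pos _

theorem prod_range_fin (n : ℕ) (g : ℕ → ℕ) : ((List.range n).map g).prod = ∏ i : Fin n, g i.val := by
  rw [← Finset.prod_range (f := g)]
  rfl

/-- **The number of pairs of permutations is the permanent times the product of the
factorials.** -/
theorem card_PP_eq (hsq : ∀ r ∈ A, r.length = A.length) (h : NonDeg A) :
    (PP (rw' A) (cl' A) (R' A) (C' A)).card = QF A * F A := by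
  classical
  rw [card_PP _ _ _ _ (tr_row h) (tr_col h), card_transversals, F_eq_card A hsq, QF,
    prod_range_fin, prod_range_fin]
  · simp_rw [deg_row, deg_col]
    congr 2
    ext σ
    simp only [mem_filter, mem_univ, true_and]
    constructor
    · intro hσ j
      obtain ⟨e, h1, h2⟩ := hσ j
      rw [← h1]
      have h3 : e.1.2 = j := h2
      rw [← h3]
      exact e.2
    · intro hσ j
      exact ⟨⟨(σ j, j), hσ j⟩, rfl, rfl⟩
  · intro e e' h1 h2
    exact Subtype.ext (Prod.ext h1 h2)

theorem card_PP_le (A : List (List Bool)) :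
    (PP (rw' A) (cl' A) (R' A) (C' A)).card < 2 ^ (2 * (ed A).length * (ed A).length + 1) := by
  have h1 : (PP (rw' A) (cl' A) (R' A) (C' A)).card ≤
      (Fintype.card (EA A)).factorial * (Fintype.card (EA A)).factorial := by
    refine (Finset.card_filter_le _ _).trans ?_
    rw [Finset.card_univ, Fintype.card_prod, Fintype.card_perm]
  rw [card_EA] at h1
  set K := (ed A).length
  have h2 : K.factorial ≤ 2 ^ (K * K) := by
    calc K.factorial ≤ K ^ K := Nat.factorial_le_pow _
      _ ≤ (2 ^ K) ^ K := Nat.pow_le_pow_left Nat.lt_two_pow_self.le _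
      _ = 2 ^ (K * K) := by rw [pow_mul]
  calc (PP (rw' A) (cl' A) (R' A) (C' A)).card ≤ 2 ^ (K * K) * 2 ^ (K * K) :=
        h1.trans (Nat.mul_le_mul h2 h2)
    _ = 2 ^ (2 * K * K) := by rw [← pow_add]; congr 1; ring
    _ < 2 ^ (2 * K * K + 1) := Nat.pow_lt_pow_right (by norm_num) (Nat.lt_succ_self _)

end Types

end Pool.Agent.W887.CG
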