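import Pool.Agent.W887.CG.Inst

/-!
# The two cographs attached to a 0-1 matrix
-/

namespace Pool.Agent.W887.CG

open Finset
open Pool.Agent.H549R2.Convex (ent F)

section Params

variable (A : List (List Bool))

/-- number of ones -/
def pK : ℕ := (ed A).length
/-- exponent for the number of groups -/
def pI : ℕ := (pK A).size
/-- number of groups -/
def pk0 : ℕ := KZ (pI A)
/-- number of binary digits to be recovered -/
def pg : ℕ := 2 * pK A * pK A + 1
/-- the scaling factor -/
def pt : ℕ := pk0 A + pg A + 1
/-- the sum of a group -/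
def pB : ℕ := pt A * Bc A.length
/-- exponent for the second cliques -/
def pm : ℕ := (pk0 A * pB A).size
/-- number of dummy parts -/
def pd : ℕ := pk0 A - pK A
/-- the parts of the first graph -/
def parts1 : List ℕ := partsL A (pt A) (pd A)
/-- the parts of the second graph -/
def parts2 : List ℕ := List.replicate (pk0 A) (pB A)
/-- the number of monochromatic edges of the ground states -/
def pe : ℕ := (pk0 A * pB A ^ 2 - ((parts1 A).map fun x => x ^ 2).sum) / 2
/-- number of cliques of each kind -/
def pb : ℕ := pe A + pt A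
/-- the cliques -/
def clqs : List ℕ := List.replicate (pb A) (JA (pI A)) ++ List.replicate (pb A) (JB (pI A) (pm A))
/-- the first cograph -/
def cg1 : List (List Bool) := matG (parts1 A) (clqs A)
/-- the second cograph -/
def cg2 : List (List Bool) := matG (parts2 A) (clqs A)

theorem pK_le : pK A ≤ pk0 A := by
  unfold pk0 KZ pI
  have h1 : pK A < 2 ^ (pK A).size := Nat.lt_size_self _
  have h2 : 2 ^ (pK A).size ≤ 4 ^ (pK A).size := Nat.pow_le_pow_left (by norm_num) _
  omega

theorem length_parts1 : (parts1 A).length = ((ed A).length + pd A) + ((ed A).length +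
    (ed A).length) := by
  simp [parts1, partsL]
  omega

/-- the items and the parts -/
theorem exists_idx1 : ∃ idx : ((EA A ⊕ Fin (pd A)) ⊕ (EA A ⊕ EA A)) ≃ Fin (parts1 A).length,
    ∀ x, (parts1 A).getD (idx x) 0 = sI (D := Fin (pd A)) (pt A) (rw' A) (cl' A) (R' A) (C' A) x := by
  obtain ⟨φ, hφ⟩ := exists_idxE A
  let idx : ((EA A ⊕ Fin (pd A)) ⊕ (EA A ⊕ EA A)) ≃ Fin (parts1 A).length :=
    ((((φ.sumCongr (Equiv.refl _)).trans finSumFinEquiv).sumCongr
      ((φ.sumCongr φ).trans finSumFinEquiv)).trans finSumFinEquiv).trans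
      (finCongr (length_parts1 A).symm)
  have v1 : ∀ e : EA A, (idx (.inl (.inl e))).val = (φ e).val := fun e => by
    simp [idx]
  have v2 : ∀ d : Fin (pd A), (idx (.inl (.inr d))).val = (ed A).length + d.val := fun e => by
    simp [idx]
  have v3 : ∀ e : EA A, (idx (.inr (.inl e))).val = ((ed A).length + pd A) + (φ e).val :=
    fun e => by simp [idx]
  have v4 : ∀ e : EA A, (idx (.inr (.inr e))).val = ((ed A).length + pd A) +
      ((ed A).length + (φ e).val) := fun e => by
    simp [idx]
    omega
  have hl : ∀ e : EA A, (φ e).val < (ed A).length := fun e => (φ e).2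
  refine ⟨idx, ?_⟩
  rintro ((e | d) | (e | e))
  · rw [v1, parts1, partsL, List.getD_append _ _ _ _ (by simp; have := hl e; omega),
      List.getD_append _ _ _ _ (by simp [hl e]),
      List.getD_eq_getElem _ _ (by simp [hl e]), List.getElem_map, hφ]
    rfl
  · rw [v2, parts1, partsL, List.getD_append _ _ _ _ (by simp),
      List.getD_append_right _ _ _ _ (by simp), List.length_map, Nat.add_sub_cancel_left,
      List.getD_eq_getElem _ _ (by simp), List.getElem_replicate]
    rfl
  · rw [v3, parts1, partsL, List.getD_append_right _ _ _ _ (by simp),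
      List.getD_append _ _ _ _ (by simp [hl e]), List.length_append, List.length_map,
      List.length_replicate, Nat.add_sub_cancel_left, List.getD_eq_getElem _ _ (by simp [hl e]),
      List.getElem_map, hφ]
    rfl
  · rw [v4, parts1, partsL, List.getD_append_right _ _ _ _ (by simp),
      List.getD_append_right _ _ _ _ (by simp), List.length_append, List.length_map,
      List.length_replicate, Nat.add_sub_cancel_left, List.length_map, Nat.add_sub_cancel_left,
      List.getD_eq_getElem _ _ (by simp [hl e]), List.getElem_map, hφ]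
    rfl

/-- the heads and the parts of the second graph -/
theorem exists_idx2 : ∃ idx : (EA A ⊕ Fin (pd A)) ≃ Fin (parts2 A).length,
    ∀ x, (parts2 A).getD (idx x) 0 = pB A := by
  obtain ⟨φ, _⟩ := exists_idxE A
  have hlen : (ed A).length + pd A = (parts2 A).length := by
    have := pK_le A
    simp only [parts2, List.length_replicate, pd, pK] at *
    omega
  refine ⟨((φ.sumCongr (Equiv.refl _)).trans finSumFinEquiv).trans (finCongr hlen), fun x => ?_⟩
  have h := (((φ.sumCongr (Equiv.refl _)).trans finSumFinEquiv).trans (finCongr hlen) x).2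
  rw [List.getD_eq_getElem _ _ h]
  simp [parts2]

/-- the cliques -/
theorem exists_idx3 (b x y : ℕ) : ∃ idx : (Fin b ⊕ Fin b) ≃
    Fin (List.replicate b x ++ List.replicate b y).length,
    ∀ z, (List.replicate b x ++ List.replicate b y).getD (idx z) 0 =
      Sum.elim (fun _ => x) (fun _ => y) z := by
  have hlen : b + b = (List.replicate b x ++ List.replicate b y).length := by simp
  refine ⟨finSumFinEquiv.trans (finCongr hlen), ?_⟩
  rintro (z | z)
  · have v : ((finSumFinEquiv.trans (finCongr hlen)) (.inl z)).val = z.val := by simp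
    rw [v, List.getD_append _ _ _ _ (by simp), List.getD_eq_getElem _ _ (by simp)]
    simp
  · have v : ((finSumFinEquiv.trans (finCongr hlen)) (.inr z)).val = b + z.val := by
      simp
      omega
    rw [v, List.getD_append_right _ _ _ _ (by simp), List.length_replicate,
      Nat.add_sub_cancel_left, List.getD_eq_getElem _ _ (by simp)]
    simp

theorem numConn_cg1 : numConn (gr (cg1 A)) =
    numConn (GJ (sI (D := Fin (pd A)) (pt A) (rw' A) (cl' A) (R' A) (C' A))
      (Jf (pI A) (pm A) (pb A))) := by
  obtain ⟨idx, hidx⟩ := exists_idx1 A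
  obtain ⟨idx', hidx'⟩ := exists_idx3 (pb A) (JA (pI A)) (JB (pI A) (pm A))
  obtain ⟨e⟩ := iso_matG _ (Jf (pI A) (pm A) (pb A)) (parts1 A) (clqs A) idx hidx idx' hidx'
  exact numConn_iso e

theorem numConn_cg2 : numConn (gr (cg2 A)) =
    numConn (GJ (fun _ : EA A ⊕ Fin (pd A) => pt A * Bc A.length)
      (Jf (pI A) (pm A) (pb A))) := by
  obtain ⟨idx, hidx⟩ := exists_idx2 A
  obtain ⟨idx', hidx'⟩ := exists_idx3 (pb A) (JA (pI A)) (JB (pI A) (pm A))
  obtain ⟨e⟩ := iso_matG _ (Jf (pI A) (pm A) (pb A)) (parts2 A) (clqs A) idx hidx idx' hidx'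
  exact numConn_iso e

theorem sum_parts1 : ((parts1 A).map fun x => x ^ 2).sum =
    ∑ x, sI (D := Fin (pd A)) (pt A) (rw' A) (cl' A) (R' A) (C' A) x ^ 2 := by
  obtain ⟨idx, hidx⟩ := exists_idx1 A
  simp_rw [← hidx]
  rw [idx.sum_comp (fun j : Fin (parts1 A).length => (parts1 A).getD j.val 0 ^ 2)]
  generalize parts1 A = l
  rw [Finset.sum_fin_eq_sum_range]
  induction l using List.reverseRecOn with
  | nil => simp
  | append_singleton l x ih =>
    rw [List.map_append, List.sum_append, ih, List.length_append, List.length_singleton,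
      Finset.sum_range_succ]
    congr 1
    · refine Finset.sum_congr rfl fun i hi => ?_
      rw [Finset.mem_range] at hi
      rw [dif_pos hi, dif_pos (by omega)]
      simp only
      rw [List.getD_append _ _ _ _ hi]
    · rw [dif_pos (by omega)]
      simp

variable {A}

/-- **The numbers of connected spanning subgraphs of the two cographs.** -/
theorem inst (hsq : ∀ r ∈ A, r.length = A.length) (h : NonDeg A) (hpos : 0 < A.length) :
    ∃ v o : ℕ, Odd o ∧ numConn (gr (cg2 A)) = 2 ^ v * o ∧ ∃ r : ℤ,
      (numConn (gr (cg1 A)) : ℤ) = 2 ^ (pe A + v) * ((QF A * F A : ℕ) * o + 2 ^ pg A * r) := by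
  classical
  obtain ⟨j, hj, h0j⟩ := h.1 0 hpos
  have e0 : EA A := ⟨(⟨0, hpos⟩, ⟨j, hj⟩), h0j⟩
  have hED : Fintype.card (EA A) + Fintype.card (Fin (pd A)) = KZ (pI A) := by
    rw [card_EA, Fintype.card_fin]
    have := pK_le A
    unfold pd
    simp only [pK, pk0] at *
    omega
  have hn2 : KZ (pI A) * (pt A * Bc A.length) < 4 ^ (pI A + 1) * 2 ^ pm A := by
    have h1 : pk0 A * pB A < 2 ^ pm A := Nat.lt_size_self _
    have h2 : 1 ≤ 4 ^ (pI A + 1) := Nat.one_le_pow _ _ (by norm_num)
    calc KZ (pI A) * (pt A * Bc A.length) = pk0 A * pB A := rfl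
      _ < 2 ^ pm A := h1
      _ ≤ 4 ^ (pI A + 1) * 2 ^ pm A := Nat.le_mul_of_pos_left _ h2
  have hsum := sum_sI (D := Fin (pd A)) (pt A) (rw' A) (cl' A) (R' A) (C' A) (tr_row h) (tr_col h)
  rw [hED] at hsum
  have he := exists_half (sI (D := Fin (pd A)) (pt A) (rw' A) (cl' A) (R' A) (C' A)) (KZ (pI A))
    (pt A * Bc A.length) hsum (fun x => sI_le _ _ _ _ _ x)
  have hm := main_math (D := Fin (pd A)) (rw' A) (cl' A) (R' A) (C' A) (tr_row h) (tr_col h) e0
    (i := pI A) (m := pm A) (b := pb A) (t := pt A) (g := pg A) (e := pe A) hED hn2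
    (by
      have e1 : pe A = (KZ (pI A) * (pt A * Bc A.length) ^ 2 -
          ∑ x, sI (D := Fin (pd A)) (pt A) (rw' A) (cl' A) (R' A) (C' A) x ^ 2) / 2 := by
        rw [← sum_parts1]
        rfl
      rw [e1]
      exact he)
    (by unfold pb; omega) (by unfold pt; simp only [pk0]; omega)
  rw [card_PP_eq hsq h, ← numConn_cg1, ← numConn_cg2] at hm
  exact hm

end Params

end Pool.Agent.W887.CG
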