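import Pool.Agent.W887.CG.Parity

/-!
# Colour sums of cliques as coefficients of 2-adic power series
-/

namespace Pool.Agent.W887.CG

open PowerSeries

theorem factorial_split (j : ℕ) (hj : j ≠ 0) :
    ∃ v o : ℕ, j.factorial = 2 ^ v * o ∧ Odd o ∧ v < j := by
  obtain ⟨v, o, ho, h⟩ := Nat.exists_eq_two_pow_mul_odd (n := j.factorial) (Nat.factorial_ne_zero j)
  refine ⟨v, o, h, ho, ?_⟩
  have h1 := Nat.emultiplicity_two_factorial_lt hj
  have h2 : (v : ℕ∞) ≤ emultiplicity 2 j.factorial :=
    le_emultiplicity_of_pow_dvd (by rw [h]; exact Dvd.intro _ rfl)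
  exact_mod_cast h2.trans_lt h1

theorem isUnit_odd {o : ℕ} (ho : Odd o) : IsUnit (o : ℤ_[2]) := by
  rw [PadicInt.isUnit_iff]
  have h := PadicInt.norm_lt_one_iff_dvd (p := 2) (o : ℤ_[2])
  have h1 : ¬ ((2 : ℕ) : ℤ_[2]) ∣ (o : ℤ_[2]) := by
    intro hd
    have := (PadicInt.pow_p_dvd_int_iff (p := 2) 1 (o : ℤ)).1 (by simpa using hd)
    rw [pow_one] at this
    have h2 : 2 ∣ o := by exact_mod_cast this
    rw [Nat.odd_iff] at ho
    omega
  have h2 : ¬ ‖(o : ℤ_[2])‖ < 1 := fun hh => h1 (by exact_mod_cast h.1 hh)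
  exact le_antisymm (PadicInt.norm_le_one _) (not_lt.1 h2)

theorem choose_two_ge (j : ℕ) : j ≤ j.choose 2 + 1 := by
  induction j with
  | zero => simp
  | succ j ih =>
    rw [Nat.choose_succ_succ' j 1, Nat.choose_one_right]
    rcases Nat.eq_zero_or_pos j with h | h
    · subst h; simp
    · omega

theorem choose_two_ge' (j : ℕ) (hj : 3 ≤ j) : j ≤ j.choose 2 := by
  obtain ⟨i, rfl⟩ : ∃ i, j = i + 3 := ⟨j - 3, by omega⟩
  have e : (i + 3).choose 2 = (i + 2) + (i + 2).choose 2 := by
    rw [Nat.choose_succ_succ' (i + 2) 1, Nat.choose_one_right]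
  have := choose_two_ge (i + 2)
  omega

theorem exists_coef (j : ℕ) : ∃ x : ℤ_[2], (j.factorial : ℤ_[2]) * x = 2 ^ j.choose 2 ∧
    PadicInt.toZMod x = if j < 3 then 1 else 0 := by
  rcases Nat.lt_or_ge j 3 with hj | hj
  · refine ⟨1, ?_, by simp [hj]⟩
    interval_cases j <;> simp [Nat.factorial, Nat.choose]
  · obtain ⟨v, o, h, ho, hv⟩ := factorial_split j (by omega)
    obtain ⟨u, hu⟩ := isUnit_odd ho
    have h3 := choose_two_ge' j hj
    refine ⟨2 ^ (j.choose 2 - v) * ((u⁻¹ : ℤ_[2]ˣ) : ℤ_[2]), ?_, ?_⟩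
    · rw [h]
      push_cast
      rw [← hu]
      calc (2 : ℤ_[2]) ^ v * u * (2 ^ (j.choose 2 - v) * ((u⁻¹ : ℤ_[2]ˣ) : ℤ_[2]))
          = (2 ^ v * 2 ^ (j.choose 2 - v)) * (u * ((u⁻¹ : ℤ_[2]ˣ) : ℤ_[2])) := by ring
        _ = 2 ^ j.choose 2 := by
          rw [← pow_add, Units.mul_inv, mul_one]
          congr 1
          omega
    · rw [if_neg (by omega), map_mul, map_pow]
      have h2 : PadicInt.toZMod (2 : ℤ_[2]) = 0 := by
        have : PadicInt.toZMod (2 : ℤ_[2]) = (2 : ZMod 2) := map_ofNat _ 2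
        rw [this]; decide
      rw [h2, zero_pow (by omega), zero_mul]

/-- the coefficients `2 ^ (j choose 2) / j!` -/
noncomputable def phc (j : ℕ) : ℤ_[2] := (exists_coef j).choose

theorem phc_spec (j : ℕ) : (j.factorial : ℤ_[2]) * phc j = 2 ^ j.choose 2 :=
  (exists_coef j).choose_spec.1

theorem phc_mod (j : ℕ) : PadicInt.toZMod (phc j) = if j < 3 then 1 else 0 :=
  (exists_coef j).choose_spec.2

/-- the power series `∑ 2 ^ (j choose 2) X ^ j / j!` -/
noncomputable def phi : PowerSeries ℤ_[2] := PowerSeries.mk phc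

theorem phc_succ (j : ℕ) : phc (j + 1) * ((j : ℤ_[2]) + 1) = 2 ^ j * phc j := by
  have h1 := phc_spec (j + 1)
  have h2 := phc_spec j
  have h3 : (j.factorial : ℤ_[2]) ≠ 0 := by exact_mod_cast Nat.factorial_ne_zero j
  apply mul_left_cancel₀ h3
  rw [Nat.factorial_succ] at h1
  push_cast at h1
  rw [Nat.choose_succ_succ' j 1, Nat.choose_one_right, pow_add, ← h2] at h1
  linear_combination h1

theorem deriv_rescale (x : ℤ_[2]) :
    derivative ℤ_[2] (rescale x phi) = C x * rescale (x * 2) phi := by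
  ext j
  rw [coeff_derivative, coeff_rescale, coeff_C_mul, coeff_rescale, phi, coeff_mk, coeff_mk]
  have h := phc_succ j
  rw [mul_pow, pow_succ]
  linear_combination x ^ j * x * h

theorem leibniz_prod' {ι : Type*} [DecidableEq ι] (s : Finset ι) (f : ι → PowerSeries ℤ_[2]) :
    derivative ℤ_[2] (∏ i ∈ s, f i) = ∑ i ∈ s, (∏ j ∈ s.erase i, f j) * derivative ℤ_[2] (f i) := by
  induction s using Finset.induction_on with
  | empty => simp
  | insert a s ha ih =>
    rw [Finset.prod_insert ha, Derivation.leibniz, Finset.sum_insert ha, Finset.erase_insert ha, ih,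
      smul_eq_mul, smul_eq_mul, Finset.mul_sum, add_comm]
    congr 1
    refine Finset.sum_congr rfl fun i hi => ?_
    have hia : i ≠ a := fun h => ha (h ▸ hi)
    rw [Finset.erase_insert_of_ne (Ne.symm hia), Finset.prod_insert
      (fun h => ha (Finset.mem_of_mem_erase h))]
    ring

section Colours

variable {K : Type*} [Fintype K] [DecidableEq K]

/-- The colour sum of a clique, in recursive form: colour the first vertex with `c`, then the
remaining ones. -/
def Yr : ℕ → (K → ℕ) → ℕ
  | 0, _ => 1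
  | J + 1, s => ∑ c, 2 ^ s c * Yr J (Function.update s c (s c + 1))

/-- the power series of all colours -/
noncomputable def HH (s : K → ℕ) : PowerSeries ℤ_[2] := ∏ c, rescale (2 ^ s c) phi

theorem deriv_HH (s : K → ℕ) : derivative ℤ_[2] (HH s) =
    ∑ c, C (2 ^ s c) * HH (Function.update s c (s c + 1)) := by
  unfold HH
  rw [leibniz_prod']
  refine Finset.sum_congr rfl fun c _ => ?_
  rw [deriv_rescale, ← Finset.mul_prod_erase Finset.univ _ (Finset.mem_univ c)]
  simp only [Function.update_self]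
  have h : ∏ j ∈ Finset.univ.erase c, rescale (2 ^ s j : ℤ_[2]) phi =
      ∏ x ∈ Finset.univ.erase c, rescale (2 ^ Function.update s c (s c + 1) x : ℤ_[2]) phi := by
    refine Finset.prod_congr rfl fun i hi => ?_
    rw [Function.update_of_ne (Finset.ne_of_mem_erase hi)]
  rw [h, ← pow_succ]
  ring

/-- **The colour sum as a coefficient.** -/
theorem Yr_eq (J : ℕ) : ∀ s : K → ℕ, (Yr J s : ℤ_[2]) = J.factorial * coeff J (HH s) := by
  induction J with
  | zero =>
    intro s
    simp only [Yr, Nat.cast_one, Nat.factorial_zero, one_mul, HH]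
    rw [coeff_zero_eq_constantCoeff, map_prod]
    symm
    refine Finset.prod_eq_one fun c _ => ?_
    rw [← coeff_zero_eq_constantCoeff, coeff_rescale, phi, coeff_mk, pow_zero, one_mul]
    simpa using phc_spec 0
  | succ J ih =>
    intro s
    simp only [Yr]
    push_cast
    have h1 : (J.factorial : ℤ_[2]) * coeff J (derivative ℤ_[2] (HH s)) =
        ((J + 1).factorial : ℤ_[2]) * coeff (J + 1) (HH s) := by
      rw [coeff_derivative, Nat.factorial_succ]
      push_cast
      ring
    rw [← h1, deriv_HH, map_sum, Finset.mul_sum]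
    refine Finset.sum_congr rfl fun c _ => ?_
    rw [ih, coeff_C_mul]
    ring

theorem map_rescale_pow (s : ℕ) : PowerSeries.map PadicInt.toZMod (rescale (2 ^ s : ℤ_[2]) phi) =
    if s = 0 then (tri : PowerSeries (ZMod 2)) else 1 := by
  ext j
  rw [coeff_map, coeff_rescale, map_mul, phi, coeff_mk, phc_mod, map_pow, map_pow]
  have h2 : PadicInt.toZMod (2 : ℤ_[2]) = 0 := by
    have : PadicInt.toZMod (2 : ℤ_[2]) = (2 : ZMod 2) := map_ofNat _ 2
    rw [this]; decide
  rw [h2]
  split_ifs with h3 h4 h4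
  · subst h4
    rw [pow_zero, one_pow, Polynomial.coeff_coe, tri]
    interval_cases j <;> simp [Polynomial.coeff_one, Polynomial.coeff_X]
  · rw [zero_pow h4, coeff_one]
    by_cases hj : j = 0
    · subst hj; simp
    · simp [hj]
  · subst h4
    rw [Polynomial.coeff_coe, tri]
    simp only [Polynomial.coeff_add, Polynomial.coeff_one, Polynomial.coeff_X,
      Polynomial.coeff_X_pow]
    rw [if_neg (by omega), if_neg (by omega), if_neg (by omega)]
    simp
  · rw [coeff_one, if_neg (by omega)]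
    simp

omit [DecidableEq K] in
/-- the parity of the coefficient is the parity of a trinomial coefficient; the exponent is the
number of unused colours -/
theorem toZMod_coeff_HH (J : ℕ) (s : K → ℕ) : PadicInt.toZMod (coeff J (HH s)) =
    tc (Finset.univ.filter fun c => s c = 0).card J := by
  rw [← coeff_map, HH, map_prod]
  simp_rw [map_rescale_pow]
  rw [Finset.prod_ite, Finset.prod_const_one, mul_one, Finset.prod_const, ← Polynomial.coe_pow,
    Polynomial.coeff_coe, tc]

end Colours

end Pool.Agent.W887.CG
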