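import Pool.Agent.W887.CG.Graph
import Pool.Agent.W887.CG.Series

/-!
# The colour sum of the join of a complete multipartite graph with a disjoint union of cliques
-/

namespace Pool.Agent.W887.CG

open Finset

section Defs

variable {I ι : Type*}

/-- complete multipartite graph with parts of sizes `a i` -/
def G0 (a : I → ℕ) : SimpleGraph (Σ i, Fin (a i)) where
  Adj x y := x.1 ≠ y.1
  symm := ⟨fun _ _ h => Ne.symm h⟩
  loopless := ⟨fun _ h => h rfl⟩

/-- adjacency in the join of the complete multipartite graph with parts of sizes `a i` and the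
disjoint union of the cliques with `J i` vertices -/
def adjGJ (a : I → ℕ) (J : ι → ℕ) : (Σ i, Fin (a i)) ⊕ (Σ i, Fin (J i)) →
    (Σ i, Fin (a i)) ⊕ (Σ i, Fin (J i)) → Prop
  | .inl x, .inl y => x.1 ≠ y.1
  | .inr x, .inr y => x.1 = y.1 ∧ x ≠ y
  | .inl _, .inr _ => True
  | .inr _, .inl _ => True

/-- the join of the complete multipartite graph with parts of sizes `a i` and the
disjoint union of the cliques with `J i` vertices -/
def GJ (a : I → ℕ) (J : ι → ℕ) : SimpleGraph ((Σ i, Fin (a i)) ⊕ (Σ i, Fin (J i))) where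
  Adj := adjGJ a J
  symm := ⟨by
    rintro (x | x) (y | y) h
    · exact Ne.symm h
    · trivial
    · trivial
    · exact ⟨h.1.symm, Ne.symm h.2⟩⟩
  loopless := ⟨by
    rintro (x | x) h
    · exact h rfl
    · exact h.2 rfl⟩

end Defs

section Dm

variable {V K : Type*} [Fintype V] [Fintype K] [DecidableEq K]

omit [Fintype K] in
open Classical in
theorem dm_eq_sum (G : SimpleGraph V) (σ : V → K) :
    dm G σ = ∑ x, ∑ y, if G.Adj x y ∧ σ x = σ y then 1 else 0 := by
  unfold dm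
  rw [Finset.card_filter, Fintype.sum_prod_type]
  refine Finset.sum_congr rfl fun x _ => Finset.sum_congr rfl fun y _ => ?_
  by_cases h : G.Adj x y ∧ σ x = σ y
  · rw [if_pos h, if_pos h]
  · rw [if_neg h, if_neg h]

/-- number of vertices of a colour -/
def cnt (σ : V → K) (c : K) : ℕ := (univ.filter fun v => σ v = c).card

omit [Fintype K] in
theorem sum_cnt (σ : V → K) (W : Type*) [Fintype W] (τ : W → K) :
    ∑ x, ∑ y, (if σ x = τ y then 1 else 0) = ∑ y, cnt σ (τ y) := by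
  rw [Finset.sum_comm]
  refine Finset.sum_congr rfl fun y _ => ?_
  rw [cnt, Finset.card_filter]

/-- number of equally coloured ordered pairs of distinct vertices of a clique -/
def dk {J : ℕ} (τ : Fin J → K) : ℕ := ∑ x, ∑ y, if x ≠ y ∧ τ x = τ y then 1 else 0

omit [Fintype K] in
theorem dk_cons {J : ℕ} (c : K) (τ : Fin J → K) :
    dk (Fin.cons c τ : Fin (J + 1) → K) = dk τ + 2 * cnt τ c := by
  unfold dk
  rw [Fin.sum_univ_succ]
  simp only [Fin.sum_univ_succ, ne_eq, not_true_eq_false, false_and, if_false, Fin.cons_zero,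
    Fin.cons_succ, zero_add]
  have h1 : ∀ x : Fin J, (0 : Fin (J + 1)) ≠ x.succ := fun x => (Fin.succ_ne_zero x).symm
  have h2 : ∀ x : Fin J, x.succ ≠ (0 : Fin (J + 1)) := fun x => Fin.succ_ne_zero x
  simp only [h1, h2, not_false_eq_true, true_and, Fin.succ_inj]
  rw [Finset.sum_add_distrib]
  have h3 : ∑ x : Fin J, (if c = τ x then 1 else 0) = cnt τ c := by
    rw [cnt, Finset.card_filter]
    exact Finset.sum_congr rfl fun x _ => by simp only [eq_comm]
  have h4 : ∑ x : Fin J, (if τ x = c then 1 else 0) = cnt τ c := by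
    rw [cnt, Finset.card_filter]
  rw [h3, h4]
  ring

omit [Fintype K] in
theorem even_dk {J : ℕ} (τ : Fin J → K) : ∃ m, dk τ = 2 * m := by
  induction J with
  | zero => exact ⟨0, by simp [dk]⟩
  | succ J ih =>
    obtain ⟨m, hm⟩ := ih (Fin.tail τ)
    refine ⟨m + cnt (Fin.tail τ) (τ 0), ?_⟩
    conv_lhs => rw [← Fin.cons_self_tail τ]
    rw [dk_cons, hm]
    ring

omit [Fintype K] in
theorem sum_update (s : K → ℕ) (c : K) {J : ℕ} (τ : Fin J → K) :
    ∑ u, Function.update s c (s c + 1) (τ u) = ∑ u, s (τ u) + cnt τ c := by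
  rw [cnt, Finset.card_filter, ← Finset.sum_add_distrib]
  refine Finset.sum_congr rfl fun u _ => ?_
  by_cases h : τ u = c
  · rw [h, Function.update_self, if_pos rfl]
  · rw [Function.update_of_ne h, if_neg h, add_zero]

/-- the colour sum of a clique in explicit form -/
theorem Yr_eq_sum (J : ℕ) : ∀ s : K → ℕ,
    Yr J s = ∑ τ : Fin J → K, 2 ^ (dk τ / 2 + ∑ u, s (τ u)) := by
  induction J with
  | zero => intro s; simp [Yr, dk]
  | succ J ih =>
    intro s
    rw [Yr, ← (Fin.consEquiv (fun _ => K)).sum_comp, Fintype.sum_prod_type]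
    refine Finset.sum_congr rfl fun c _ => ?_
    rw [ih, Finset.mul_sum]
    refine Finset.sum_congr rfl fun τ _ => ?_
    rw [← pow_add]
    congr 1
    have e : (Fin.consEquiv (fun _ => K)) (c, τ) = (Fin.cons c τ : Fin (J + 1) → K) := rfl
    rw [e, dk_cons, sum_update, Fin.sum_univ_succ]
    simp only [Fin.cons_zero, Fin.cons_succ]
    obtain ⟨m, hm⟩ := even_dk τ
    omega

end Dm

section Sum

variable {I ι K : Type*} [Fintype I] [DecidableEq I] [Fintype ι] [DecidableEq ι] [Fintype K]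
  [DecidableEq K]

omit [DecidableEq I] [Fintype K] in
theorem dm_GJ (a : I → ℕ) (J : ι → ℕ) (σ : (Σ i, Fin (a i)) → K) (τ : ∀ i : ι, Fin (J i) → K) :
    dm (GJ a J) (Sum.elim σ fun x => τ x.1 x.2) =
      dm (G0 a) σ + ∑ i, (dk (τ i) + 2 * ∑ u, cnt σ (τ i u)) := by
  classical
  rw [dm_eq_sum, dm_eq_sum, Fintype.sum_sum_type]
  simp only [Fintype.sum_sum_type, Sum.elim_inl, Sum.elim_inr]
  have h1 : ∀ x y : (Σ i, Fin (a i)), (GJ a J).Adj (.inl x) (.inl y) ↔ (G0 a).Adj x y :=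
    fun _ _ => Iff.rfl
  have h2 : ∀ (x : (Σ i, Fin (a i))) (y : (Σ i, Fin (J i))),
      (GJ a J).Adj (.inl x) (.inr y) ↔ True := fun _ _ => Iff.rfl
  have h3 : ∀ (x : (Σ i, Fin (a i))) (y : (Σ i, Fin (J i))),
      (GJ a J).Adj (.inr y) (.inl x) ↔ True := fun _ _ => Iff.rfl
  have h4 : ∀ (x y : (Σ i, Fin (J i))),
      (GJ a J).Adj (.inr x) (.inr y) ↔ x.1 = y.1 ∧ x ≠ y := fun _ _ => Iff.rfl
  simp only [h1, h2, h3, h4, true_and]
  rw [Finset.sum_add_distrib, Finset.sum_add_distrib]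
  have e1 : ∑ x, ∑ y : (Σ i, Fin (J i)), (if σ x = τ y.1 y.2 then 1 else 0) =
      ∑ i, ∑ u, cnt σ (τ i u) := by
    rw [sum_cnt σ (Σ i, Fin (J i)) (fun y => τ y.1 y.2), Fintype.sum_sigma]
  have e2 : ∑ y : (Σ i, Fin (J i)), ∑ x, (if τ y.1 y.2 = σ x then 1 else 0) =
      ∑ i, ∑ u, cnt σ (τ i u) := by
    rw [← e1, Finset.sum_comm]
    simp only [eq_comm]
  have e3 : ∑ x : (Σ i, Fin (J i)), ∑ y : (Σ i, Fin (J i)),
      (if (x.1 = y.1 ∧ x ≠ y) ∧ τ x.1 x.2 = τ y.1 y.2 then 1 else 0) = ∑ i, dk (τ i) := by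
    rw [Fintype.sum_sigma]
    refine Finset.sum_congr rfl fun i _ => ?_
    unfold dk
    refine Finset.sum_congr rfl fun u _ => ?_
    rw [Fintype.sum_sigma, Finset.sum_eq_single i]
    · refine Finset.sum_congr rfl fun w _ => ?_
      congr 1
      simp
    · intro j _ hj
      refine Finset.sum_eq_zero fun w _ => ?_
      rw [if_neg]
      rintro ⟨⟨h, _⟩, _⟩
      exact hj h.symm
    · simp
  rw [e1, e2, e3, Finset.sum_add_distrib, ← Finset.mul_sum]
  ring

omit [Fintype K] [DecidableEq K] in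
theorem even_dm {V : Type*} [Fintype V] (G : SimpleGraph V) (σ : V → K) : 2 ∣ dm G σ := by
  classical
  have h := (monoG G σ).two_mul_card_edgeFinset
  have h2 : dm G σ = #(univ.filter fun (x : V × V) => (monoG G σ).Adj x.1 x.2) := by
    unfold dm
    congr 1
    ext p
    simp only [mem_filter, mem_univ, true_and]
    rfl
  rw [h2, ← h]
  exact Dvd.intro _ rfl

/-- **Factorisation of the colour sum of the join.** -/
theorem sum_GJ [Zero K] (a : I → ℕ) (J : ι → ℕ) (v0 : Σ i, Fin (a i)) :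
    (∑ ρ ∈ univ.filter (fun ρ : (Σ i, Fin (a i)) ⊕ (Σ i, Fin (J i)) → K => ρ (.inl v0) = 0),
      2 ^ (dm (GJ a J) ρ / 2)) =
    ∑ σ ∈ univ.filter (fun σ : (Σ i, Fin (a i)) → K => σ v0 = 0),
      2 ^ (dm (G0 a) σ / 2) * ∏ i, Yr (J i) (cnt σ) := by
  classical
  rw [Finset.sum_filter, Finset.sum_filter]
  have e := (Equiv.sumArrowEquivProdArrow (Σ i, Fin (a i)) (Σ i, Fin (J i)) K).symm.sum_comp
    (fun ρ => if ρ (.inl v0) = 0 then 2 ^ (dm (GJ a J) ρ / 2) else 0)
  rw [← e, Fintype.sum_prod_type]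
  refine Finset.sum_congr rfl fun σ _ => ?_
  have hs : ∀ τ : (Σ i, Fin (J i)) → K,
      (Equiv.sumArrowEquivProdArrow (Σ i, Fin (a i)) (Σ i, Fin (J i)) K).symm (σ, τ) =
        Sum.elim σ τ := fun _ => rfl
  simp only [hs, Sum.elim_inl]
  split_ifs with h0
  · have e2 := (Equiv.piCurry (fun (i : ι) (_ : Fin (J i)) => K)).symm.sum_comp
      (fun τ : (Σ i, Fin (J i)) → K => 2 ^ (dm (GJ a J) (Sum.elim σ τ) / 2))
    rw [← e2]
    have e3 : ∀ τ : ∀ i : ι, Fin (J i) → K,
        (Equiv.piCurry (fun (i : ι) (_ : Fin (J i)) => K)).symm τ = fun x => τ x.1 x.2 :=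
      fun _ => rfl
    simp only [e3, dm_GJ]
    have e4 : ∀ τ : ∀ i : ι, Fin (J i) → K,
        2 ^ ((dm (G0 a) σ + ∑ i, (dk (τ i) + 2 * ∑ u, cnt σ (τ i u))) / 2) =
        2 ^ (dm (G0 a) σ / 2) * ∏ i, 2 ^ (dk (τ i) / 2 + ∑ u, cnt σ (τ i u)) := by
      intro τ
      rw [Finset.prod_pow_eq_pow_sum, ← pow_add]
      congr 1
      obtain ⟨m, hm⟩ := even_dm (G0 a) σ
      have h5 : ∑ i, (dk (τ i) + 2 * ∑ u, cnt σ (τ i u)) =
          2 * ∑ i, (dk (τ i) / 2 + ∑ u, cnt σ (τ i u)) := by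
        rw [Finset.mul_sum]
        refine Finset.sum_congr rfl fun i _ => ?_
        obtain ⟨m', hm'⟩ := even_dk (τ i)
        omega
      rw [h5]
      omega
    simp only [e4]
    rw [← Finset.mul_sum]
    congr 1
    simp only [Yr_eq_sum]
    rw [Finset.prod_univ_sum]
    refine (Finset.sum_congr ?_ fun τ _ => rfl)
    ext τ
    simp
  · simp

end Sum

end Pool.Agent.W887.CG
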