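import Pool.Agent.W887.CG.Mem2

/-!
# Counting connected spanning subgraphs of cographs is `#P`-complete
-/

namespace Pool.Agent.NPC.CG887

open Pool.Agent.H549R2.Convex (ent F)
open Pool.Agent.NPC.Cnt Pool.Agent.W887.CG
open Pool.Agent.NPC.H549Convex (LL)
open Pool.Agent.NPC.H549NRed (NRed nred_sat hard_of_nred sharpP_le_of_nred)

/-- the 0-1 permanent reduces to the numbers of connected spanning subgraphs of cographs -/
theorem nred_co : NRed (fun _ : LL => True) F (fun B : LL => IsAdj B ∧ IsCograph (gr B))
    (fun B => numConn (gr B)) := by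
  refine ⟨fun A => [cg1 A, cg2 A], fun p => postC p.1 (p.2.getD 0 0) (p.2.getD 1 0), ?_, ?_, ?_⟩
  · exact Poly.cons cg1_poly (Poly.cons cg2_poly (Poly.const []))
  · exact postC_poly (Poly.fst Poly.id)
      (Poly.getD (Poly.snd Poly.id) (Poly.const 0) (Poly.const 0))
      (Poly.getD (Poly.snd Poly.id) (Poly.const 1) (Poly.const 0))
  · intro A _
    refine ⟨?_, postC_correct A⟩
    intro B hB
    rw [List.mem_cons, List.mem_singleton] at hB
    rcases hB with rfl | rfl
    · exact ⟨isAdj_matL _, isCograph_matL _⟩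
    · exact ⟨isAdj_matL _, isCograph_matL _⟩

theorem nred_sat_co : NRed (fun _ : CNF ℕ => True) (fun φ => satCount φ)
    (fun B : LL => IsAdj B ∧ IsCograph (gr B)) (fun B => numConn (gr B)) :=
  nred_sat.comp nred_co

/-- **Hardness.** -/
theorem hard : SharpPHard (strFn numConnCo) := by
  refine hard_of_nred nred_sat_co (fun B hB => if_pos hB)
    (Polynomial.X * Polynomial.X + Polynomial.C 1) fun B => ?_
  refine (numConnCo_size B).trans ?_
  have h := length_lt_sz B
  simp only [Polynomial.eval_add, Polynomial.eval_mul, Polynomial.eval_X, Polynomial.eval_C]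
  have := Nat.mul_le_mul h.le h.le
  omega

/-- **`#P = FP` iff the connected spanning subgraphs of cographs can be counted in polynomial
time.** -/
theorem fp_iff_co : (∀ f : List Bool → ℕ, SharpP f → FP f) ↔
    ∃ g : List Bool → List Bool, PolyTime g ∧ ∀ A : List (List Bool), IsAdj A →
      IsCograph (gr A) → g (bits A) = (numConn (gr A)).bits := by
  constructor
  · intro h
    refine ⟨_, h _ mem_sharpP, fun A h1 h2 => ?_⟩
    rw [strFn_bits, numConnCo, if_pos ⟨h1, h2⟩]
  · rintro ⟨g, hg, h⟩ f hf
    exact sharpP_le_of_nred nred_sat_co ⟨g, hg, fun B hB => h B hB.1 hB.2⟩ f hf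

end Pool.Agent.NPC.CG887
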