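import Pool.Agent.W887.CG.Final2
import Pool.Agent.H549R2.Convex3

/-!
# Adjacency matrices and cographs
-/

namespace Pool.Agent.W887.CG

open Finset
open Pool.Agent.H549R2.Convex (ent)

/-- `A` is the adjacency matrix of a simple graph: square, symmetric, with zero diagonal. -/
def IsAdj (A : List (List Bool)) : Prop :=
  (∀ r ∈ A, r.length = A.length) ∧ (∀ i j, ent A i j = ent A j i) ∧ ∀ i, ent A i i = false

/-- the graph with adjacency matrix `A`, on the vertices `0, ..., n - 1` -/
def gr (A : List (List Bool)) : SimpleGraph (Fin A.length) :=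
  SimpleGraph.fromRel fun i j => ent A i j = true

/-- Cographs: graphs without an induced path on four vertices. -/
def IsCograph {V : Type*} (G : SimpleGraph V) : Prop := IsEmpty (SimpleGraph.pathGraph 4 ↪g G)

/-- labels of vertices -/
abbrev Lab : Type := ℕ × ℕ × ℕ

/-- adjacency of labels -/
def adjL (u v : Lab) : Bool :=
  if u.1 = 0 ∧ v.1 = 0 then decide (u.2.1 ≠ v.2.1)
  else if u.1 = 0 ∨ v.1 = 0 then true
  else decide (u.2.1 = v.2.1 ∧ u.2.2 ≠ v.2.2)

/-- the adjacency matrix of a list of labels -/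
def matL (L : List Lab) : List (List Bool) := L.map fun u => L.map fun v => adjL u v

theorem adjL_symm (u v : Lab) : adjL u v = adjL v u := by
  unfold adjL
  by_cases h1 : u.1 = 0 <;> by_cases h2 : v.1 = 0 <;> simp [h1, h2, eq_comm]

theorem adjL_00 (p q x y : ℕ) : adjL (0, p, x) (0, q, y) = true ↔ p ≠ q := by
  simp [adjL]

theorem adjL_01 (p q x y : ℕ) : adjL (0, p, x) (1, q, y) = true := by
  simp [adjL]

theorem adjL_10 (p q x y : ℕ) : adjL (1, p, x) (0, q, y) = true := by
  simp [adjL]

theorem adjL_11 (p q x y : ℕ) : adjL (1, p, x) (1, q, y) = true ↔ p = q ∧ x ≠ y := by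
  simp [adjL]

theorem adjL_self (u : Lab) : adjL u u = false := by
  unfold adjL
  by_cases h1 : u.1 = 0 <;> simp [h1]

theorem length_matL (L : List Lab) : (matL L).length = L.length := by simp [matL]

theorem ent_matL (L : List Lab) {i j : ℕ} (hi : i < L.length) (hj : j < L.length) :
    ent (matL L) i j = adjL L[i] L[j] := by
  have h1 : (matL L).getD i [] = L.map fun v => adjL L[i] v := by
    rw [List.getD_eq_getElem (matL L) _ (by rw [length_matL]; exact hi)]
    simp [matL]
  rw [ent, h1, List.getD_eq_getElem (L.map _) _ (by simpa using hj), List.getElem_map]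

theorem ent_matL_out (L : List Lab) {i j : ℕ} (h : ¬ (i < L.length ∧ j < L.length)) :
    ent (matL L) i j = false := by
  by_cases hi : i < L.length
  · have hj : L.length ≤ j := by
      by_contra hc
      exact h ⟨hi, by omega⟩
    have h1 : (matL L).getD i [] = L.map fun v => adjL L[i] v := by
      rw [List.getD_eq_getElem (matL L) _ (by rw [length_matL]; exact hi)]
      simp [matL]
    rw [ent, h1, List.getD_eq_default (L.map _) _ (by simpa using hj)]
  · rw [ent, List.getD_eq_default (matL L) _ (by rw [length_matL]; omega)]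
    rfl

theorem isAdj_matL (L : List Lab) : IsAdj (matL L) := by
  refine ⟨?_, fun i j => ?_, fun i => ?_⟩
  · intro r hr
    rw [matL, List.mem_map] at hr
    obtain ⟨u, _, rfl⟩ := hr
    simp [matL]
  · by_cases h : i < L.length ∧ j < L.length
    · rw [ent_matL L h.1 h.2, ent_matL L h.2 h.1, adjL_symm]
    · rw [ent_matL_out L h, ent_matL_out L (fun hc => h hc.symm)]
  · by_cases h : i < L.length
    · rw [ent_matL L h h, adjL_self]
    · rw [ent_matL_out L (fun hc => h hc.1)]

theorem gr_adj {A : List (List Bool)} (h : IsAdj A) (i j : Fin A.length) :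
    (gr A).Adj i j ↔ ent A i.val j.val = true := by
  unfold gr
  rw [SimpleGraph.fromRel_adj]
  constructor
  · rintro ⟨_, h1 | h1⟩
    · exact h1
    · rw [h.2.1]; exact h1
  · intro h1
    refine ⟨?_, Or.inl h1⟩
    rintro rfl
    rw [h.2.2] at h1
    exact absurd h1 (by simp)

/-- no induced path on four labels -/
theorem no_path_lab {u0 u1 u2 u3 : Lab} (h01 : adjL u0 u1 = true) (h12 : adjL u1 u2 = true)
    (h23 : adjL u2 u3 = true) (h02 : adjL u0 u2 = false) (h03 : adjL u0 u3 = false)
    (h13 : adjL u1 u3 = false) : False := by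
  obtain ⟨s0, p0, x0⟩ := u0
  obtain ⟨s1, p1, x1⟩ := u1
  obtain ⟨s2, p2, x2⟩ := u2
  obtain ⟨s3, p3, x3⟩ := u3
  unfold adjL at *
  simp only at *
  by_cases e0 : s0 = 0 <;> by_cases e1 : s1 = 0 <;> by_cases e2 : s2 = 0 <;>
    by_cases e3 : s3 = 0 <;> simp [e0, e1, e2, e3] at * <;> omega

theorem isCograph_matL (L : List Lab) : IsCograph (gr (matL L)) := by
  refine ⟨fun f => ?_⟩
  have hA := isAdj_matL L
  have hl : ∀ i : Fin (matL L).length, i.val < L.length := fun i =>
    lt_of_lt_of_eq i.2 (length_matL L)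
  have key : ∀ a b : Fin 4, (SimpleGraph.pathGraph 4).Adj a b ↔
      adjL (L[(f a).val]'(hl _)) (L[(f b).val]'(hl _)) = true := by
    intro a b
    rw [← ent_matL L (hl _) (hl _), ← gr_adj hA]
    exact (f.map_rel_iff (a := a) (b := b)).symm
  have hn : ∀ a b : Fin 4, ¬ (SimpleGraph.pathGraph 4).Adj a b →
      adjL (L[(f a).val]'(hl _)) (L[(f b).val]'(hl _)) = false := by
    intro a b h
    rw [key] at h
    simpa using h
  refine no_path_lab ((key 0 1).1 ?_) ((key 1 2).1 ?_) ((key 2 3).1 ?_) (hn 0 2 ?_) (hn 0 3 ?_)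
    (hn 1 3 ?_) <;> rw [SimpleGraph.pathGraph_adj] <;> decide

section Iso

variable {V : Type} (L : List Lab) (lab : V → Lab)

/-- the isomorphism given by a labelling of the vertices -/
theorem iso_of_lab (G : SimpleGraph V) (hnd : L.Nodup) (hinj : Function.Injective lab)
    (hmem : ∀ v, lab v ∈ L) (hsurj : ∀ u ∈ L, ∃ v, lab v = u)
    (hadj : ∀ v w, adjL (lab v) (lab w) = true ↔ G.Adj v w) : Nonempty (gr (matL L) ≃g G) := by
  classical
  let φ : V → Fin (matL L).length := fun v => ⟨L.idxOf (lab v), by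
    rw [length_matL]; exact List.idxOf_lt_length_of_mem (hmem v)⟩
  have hget : ∀ v, L[L.idxOf (lab v)]'(List.idxOf_lt_length_of_mem (hmem v)) = lab v :=
    fun v => List.getElem_idxOf _
  have hφi : Function.Injective φ := by
    intro v w h
    apply hinj
    rw [← hget v, ← hget w]
    have : L.idxOf (lab v) = L.idxOf (lab w) := congrArg Fin.val h
    simp only [this]
  have hφs : Function.Surjective φ := by
    intro i
    have hi : i.val < L.length := lt_of_lt_of_eq i.2 (length_matL L)
    obtain ⟨v, hv⟩ := hsurj L[i.val] (List.getElem_mem hi)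
    refine ⟨v, Fin.ext ?_⟩
    change L.idxOf (lab v) = i.val
    rw [hv]
    exact hnd.idxOf_getElem _ _
  refine ⟨(RelIso.symm ⟨Equiv.ofBijective φ ⟨hφi, hφs⟩, ?_⟩ : gr (matL L) ≃g G)⟩
  intro v w
  rw [gr_adj (isAdj_matL L), ← hadj]
  change ent (matL L) (L.idxOf (lab v)) (L.idxOf (lab w)) = true ↔ _
  rw [ent_matL L (List.idxOf_lt_length_of_mem (hmem v)) (List.idxOf_lt_length_of_mem (hmem w)),
    hget, hget]

end Iso

/-- the labels of the vertices of a list of groups -/
def labs (s : ℕ) (l : List ℕ) : List Lab :=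
  (List.range l.length).flatMap fun p => (List.range (l.getD p 0)).map fun x => (s, p, x)

theorem mem_labs {s : ℕ} {l : List ℕ} {u : Lab} :
    u ∈ labs s l ↔ u.1 = s ∧ u.2.1 < l.length ∧ u.2.2 < l.getD u.2.1 0 := by
  obtain ⟨s', p, x⟩ := u
  simp only [labs, List.mem_flatMap, List.mem_range, List.mem_map, Prod.mk.injEq]
  constructor
  · rintro ⟨p', hp', x', hx', h1, h2, h3⟩
    subst h1 h2 h3
    exact ⟨rfl, hp', hx'⟩
  · rintro ⟨rfl, h1, h2⟩
    exact ⟨p, h1, x, h2, rfl, rfl, rfl⟩

theorem nodup_labs (s : ℕ) (l : List ℕ) : (labs s l).Nodup := by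
  unfold labs
  rw [List.nodup_flatMap]
  constructor
  · intro p _
    refine List.Nodup.map ?_ List.nodup_range
    intro x y h
    simpa using h
  · refine List.Pairwise.imp_of_mem ?_ (List.nodup_range (n := l.length))
    intro p q _ _ hpq
    rw [Function.onFun, List.disjoint_left]
    intro u hu hv
    rw [List.mem_map] at hu hv
    obtain ⟨x, _, rfl⟩ := hu
    obtain ⟨y, _, hy⟩ := hv
    simp only [Prod.mk.injEq] at hy
    exact hpq hy.2.1.symm

/-- the adjacency matrix of the join of a complete multipartite graph with a disjoint union of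
cliques -/
def matG (parts cliques : List ℕ) : List (List Bool) := matL (labs 0 parts ++ labs 1 cliques)

theorem iso_matG {I ι : Type} (a : I → ℕ) (J : ι → ℕ) (parts cliques : List ℕ)
    (idx : I ≃ Fin parts.length) (ha : ∀ x, parts.getD (idx x) 0 = a x)
    (idx' : ι ≃ Fin cliques.length) (hJ : ∀ x, cliques.getD (idx' x) 0 = J x) :
    Nonempty (gr (matG parts cliques) ≃g GJ a J) := by
  refine iso_of_lab _ (Sum.elim (fun v => ((0, (idx v.1).val, v.2.val) : Lab))
    (fun v => ((1, (idx' v.1).val, v.2.val) : Lab))) _ ?_ ?_ ?_ ?_ ?_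
  · rw [List.nodup_append']
    refine ⟨nodup_labs _ _, nodup_labs _ _, ?_⟩
    rw [List.disjoint_left]
    intro u h1 h2
    rw [mem_labs] at h1 h2
    omega
  · rintro (⟨p, x⟩ | ⟨p, x⟩) (⟨q, y⟩ | ⟨q, y⟩) h
    · simp only [Sum.elim_inl, Prod.mk.injEq, true_and] at h
      have h1 : p = q := idx.injective (Fin.ext h.1)
      subst h1
      have h2 : x = y := Fin.ext h.2
      rw [h2]
    · simp at h
    · simp at h
    · simp only [Sum.elim_inr, Prod.mk.injEq, true_and] at h
      have h1 : p = q := idx'.injective (Fin.ext h.1)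
      subst h1
      have h2 : x = y := Fin.ext h.2
      rw [h2]
  · rintro (⟨p, x⟩ | ⟨p, x⟩)
    · refine List.mem_append_left _ (mem_labs.2 ⟨rfl, (idx p).2, ?_⟩)
      simp only [Sum.elim_inl]
      rw [ha]
      exact x.2
    · refine List.mem_append_right _ (mem_labs.2 ⟨rfl, (idx' p).2, ?_⟩)
      simp only [Sum.elim_inr]
      rw [hJ]
      exact x.2
  · intro u hu
    rw [List.mem_append, mem_labs, mem_labs] at hu
    obtain ⟨s, p, x⟩ := u
    rcases hu with ⟨h1, h2, h3⟩ | ⟨h1, h2, h3⟩
    · simp only at h1 h2 h3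
      subst h1
      refine ⟨.inl ⟨idx.symm ⟨p, h2⟩, ⟨x, ?_⟩⟩, ?_⟩
      · rw [← ha, Equiv.apply_symm_apply]
        exact h3
      · simp
    · simp only at h1 h2 h3
      subst h1
      refine ⟨.inr ⟨idx'.symm ⟨p, h2⟩, ⟨x, ?_⟩⟩, ?_⟩
      · rw [← hJ, Equiv.apply_symm_apply]
        exact h3
      · simp
  · rintro (⟨p, x⟩ | ⟨p, x⟩) (⟨q, y⟩ | ⟨q, y⟩)
    · refine (adjL_00 _ _ _ _).trans ?_
      change _ ↔ p ≠ q
      rw [not_iff_not]
      exact ⟨fun h => idx.injective (Fin.ext h), fun h => congrArg (fun z => (idx z).val) h⟩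
    · exact iff_of_true (adjL_01 _ _ _ _) trivial
    · exact iff_of_true (adjL_10 _ _ _ _) trivial
    · refine (adjL_11 _ _ _ _).trans ?_
      change _ ↔ p = q ∧ (⟨p, x⟩ : Σ i, Fin (J i)) ≠ ⟨q, y⟩
      constructor
      · rintro ⟨h1, h2⟩
        have h3 : p = q := idx'.injective (Fin.ext h1)
        subst h3
        refine ⟨rfl, fun h => h2 ?_⟩
        have h3 : x = y := by simpa using h
        exact congrArg Fin.val h3
      · rintro ⟨rfl, h2⟩
        refine ⟨rfl, fun h => h2 ?_⟩
        have h3 : x = y := Fin.ext h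
        rw [h3]

end Pool.Agent.W887.CG
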