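import Pool.Agent.W887.CG.PolyC
import Pool.Agent.H527R2.UniS

/-!
# Membership in `#P`: polynomial-time tests for cographs and connectivity
-/

namespace Pool.Agent.NPC.CG887

open Pool.Agent.H549R2.Convex (ent F)
open Pool.Agent.NPC.Cnt Pool.Agent.W887.CG
open Pool.Agent.NPC.H549Convex (LL fp_of_poly upoly_fact ent_poly poly_prod sqB_poly sqB)
open Pool.Agent.NPC.Uc (allEq subs conn_iff poly_allEq poly_subs)

/-- test for adjacency matrices -/
def adjB (A : LL) : Bool :=
  sqB A && ((List.range A.length).all fun i => !ent A i i &&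
    (List.range A.length).all fun j => ent A i j == ent A j i)

theorem ent_out {A : LL} (hsq : ∀ r ∈ A, r.length = A.length) {i j : ℕ}
    (h : ¬ (i < A.length ∧ j < A.length)) : ent A i j = false := by
  unfold Pool.Agent.H549R2.Convex.ent
  by_cases hi : i < A.length
  · have hj : A.length ≤ j := by
      by_contra hc
      exact h ⟨hi, by omega⟩
    rw [List.getD_eq_getElem _ _ hi, List.getD_eq_default]
    rw [hsq _ (List.getElem_mem hi)]
    exact hj
  · rw [List.getD_eq_default A _ (by omega)]
    rfl

theorem adjB_iff (A : LL) : adjB A = true ↔ IsAdj A := by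
  unfold adjB IsAdj
  simp only [Bool.and_eq_true, List.all_eq_true, List.mem_range, Bool.not_eq_true', beq_iff_eq]
  have hs : sqB A = true ↔ ∀ r ∈ A, r.length = A.length := by
    simp [Pool.Agent.NPC.H549Convex.sqB]
  rw [hs]
  constructor
  · rintro ⟨h1, h2⟩
    refine ⟨h1, fun i j => ?_, fun i => ?_⟩
    · by_cases h : i < A.length ∧ j < A.length
      · exact (h2 i h.1).2 j h.2
      · rw [ent_out h1 h, ent_out h1 (fun hc => h hc.symm)]
    · by_cases h : i < A.length
      · exact (h2 i h).1
      · exact ent_out h1 (fun hc => h hc.1)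
  · rintro ⟨h1, h2, h3⟩
    exact ⟨h1, fun i _ => ⟨h3 i, fun j _ => h2 i j⟩⟩

theorem adjB_poly : Poly adjB := by
  have h1 : Poly (fun q : (LL × ℕ) × ℕ => ent q.1.1 q.1.2 q.2) :=
    ent_poly.comp (f := fun q : (LL × ℕ) × ℕ => (q.1.1, q.1.2, q.2)) (Poly.pair
      (Poly.fst (Poly.fst Poly.id)) (Poly.pair (Poly.snd (Poly.fst Poly.id)) (Poly.snd Poly.id)))
  have h2 : Poly (fun q : (LL × ℕ) × ℕ => ent q.1.1 q.2 q.1.2) :=
    ent_poly.comp (f := fun q : (LL × ℕ) × ℕ => (q.1.1, q.2, q.1.2)) (Poly.pair
      (Poly.fst (Poly.fst Poly.id)) (Poly.pair (Poly.snd Poly.id) (Poly.snd (Poly.fst Poly.id))))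
  have h3 : Poly (fun q : (LL × ℕ) × ℕ => ent q.1.1 q.1.2 q.2 == ent q.1.1 q.2 q.1.2) :=
    (Poly.not (Poly.xor h1 h2)).congr fun q => by
      cases ent q.1.1 q.1.2 q.2 <;> cases ent q.1.1 q.2 q.1.2 <;> rfl
  have h4 : Poly (fun q : LL × ℕ => (List.range q.1.length).all fun j =>
      ent q.1 q.2 j == ent q.1 j q.2) :=
    Poly.all (p := fun (q : LL × ℕ) j => ent q.1 q.2 j == ent q.1 j q.2)
      (Poly.range_length (Poly.fst Poly.id)) h3
  have h5 : Poly (fun q : LL × ℕ => ent q.1 q.2 q.2) :=
    ent_poly.comp (f := fun q : LL × ℕ => (q.1, q.2, q.2)) (Poly.pair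
      (Poly.fst Poly.id) (Poly.pair (Poly.snd Poly.id) (Poly.snd Poly.id)))
  exact Poly.and sqB_poly (Poly.all (p := fun (A : LL) i => !ent A i i &&
    (List.range A.length).all fun j => ent A i j == ent A j i) (Poly.range_length Poly.id)
    (Poly.and (Poly.not h5) h4))

/-- four indices -/
abbrev Four : Type := (((LL × ℕ) × ℕ) × ℕ) × ℕ

/-- no induced path on the four given vertices -/
def p4 (z : Four) : Bool :=
  !(ent z.1.1.1.1 z.1.1.1.2 z.1.1.2 && (ent z.1.1.1.1 z.1.1.2 z.1.2 && (ent z.1.1.1.1 z.1.2 z.2 &&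
    (!ent z.1.1.1.1 z.1.1.1.2 z.1.2 && (!ent z.1.1.1.1 z.1.1.1.2 z.2 &&
      !ent z.1.1.1.1 z.1.1.2 z.2)))))

/-- test for cographs -/
def cogB (A : LL) : Bool :=
  (List.range A.length).all fun a => (List.range A.length).all fun b =>
    (List.range A.length).all fun c => (List.range A.length).all fun d => p4 ((((A, a), b), c), d)

theorem p4_poly : Poly p4 := by
  have hA : Poly (fun z : Four => z.1.1.1.1) :=
    Poly.fst (Poly.fst (Poly.fst (Poly.fst Poly.id)))
  have ha : Poly (fun z : Four => z.1.1.1.2) :=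
    Poly.snd (Poly.fst (Poly.fst (Poly.fst Poly.id)))
  have hb : Poly (fun z : Four => z.1.1.2) := Poly.snd (Poly.fst (Poly.fst Poly.id))
  have hc : Poly (fun z : Four => z.1.2) := Poly.snd (Poly.fst Poly.id)
  have hd : Poly (fun z : Four => z.2) := Poly.snd Poly.id
  have he : ∀ {x y : Four → ℕ}, Poly x → Poly y →
      Poly (fun z : Four => ent z.1.1.1.1 (x z) (y z)) := fun {x y} hx hy =>
    ent_poly.comp (f := fun z : Four => (z.1.1.1.1, x z, y z)) (Poly.pair hA (Poly.pair hx hy))
  exact Poly.not (Poly.and (he ha hb) (Poly.and (he hb hc) (Poly.and (he hc hd)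
    (Poly.and (Poly.not (he ha hc)) (Poly.and (Poly.not (he ha hd)) (Poly.not (he hb hd)))))))

theorem all_p {α : Type} [TEnc α] {n : α → ℕ} {f : α → ℕ → Bool} (hn : UPoly n)
    (hf : Poly (fun p : α × ℕ => f p.1 p.2)) : Poly (fun a => (List.range (n a)).all (f a)) :=
  Poly.all (p := f) hn.range hf

theorem cogB_poly : Poly cogB := by
  have h4 : Poly (fun z : ((LL × ℕ) × ℕ) × ℕ => (List.range z.1.1.1.length).all fun d =>
      p4 (z, d)) :=
    all_p (UPoly.length (Poly.fst (Poly.fst (Poly.fst Poly.id)))) p4_poly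
  have h3 : Poly (fun z : (LL × ℕ) × ℕ => (List.range z.1.1.length).all fun c =>
      (List.range z.1.1.length).all fun d => p4 ((z, c), d)) :=
    all_p (f := fun (z : (LL × ℕ) × ℕ) c => (List.range z.1.1.length).all fun d => p4 ((z, c), d))
      (UPoly.length (Poly.fst (Poly.fst Poly.id))) h4
  have h2 : Poly (fun z : LL × ℕ => (List.range z.1.length).all fun b =>
      (List.range z.1.length).all fun c => (List.range z.1.length).all fun d =>
        p4 (((z, b), c), d)) :=
    all_p (f := fun (z : LL × ℕ) b => (List.range z.1.length).all fun c =>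
      (List.range z.1.length).all fun d => p4 (((z, b), c), d))
      (UPoly.length (Poly.fst Poly.id)) h3
  exact all_p (f := fun (A : LL) a => (List.range A.length).all fun b =>
    (List.range A.length).all fun c => (List.range A.length).all fun d =>
      p4 ((((A, a), b), c), d)) (UPoly.length Poly.id) h2

theorem cogB_iff {A : LL} (hA : IsAdj A) : cogB A = true ↔ IsCograph (gr A) := by
  have hadj := gr_adj hA
  constructor
  · intro h
    refine ⟨fun f => ?_⟩
    simp only [cogB, List.all_eq_true, List.mem_range] at h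
    have h1 := h (f 0).val (f 0).2 (f 1).val (f 1).2 (f 2).val (f 2).2 (f 3).val (f 3).2
    have key : ∀ a b : Fin 4, (SimpleGraph.pathGraph 4).Adj a b ↔
        ent A (f a).val (f b).val = true := by
      intro a b
      rw [← hadj]
      exact (f.map_rel_iff (a := a) (b := b)).symm
    have hn : ∀ a b : Fin 4, ¬ (SimpleGraph.pathGraph 4).Adj a b →
        ent A (f a).val (f b).val = false := by
      intro a b h
      rw [key] at h
      simpa using h
    have k01 := (key 0 1).1 (by rw [SimpleGraph.pathGraph_adj]; decide)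
    have k12 := (key 1 2).1 (by rw [SimpleGraph.pathGraph_adj]; decide)
    have k23 := (key 2 3).1 (by rw [SimpleGraph.pathGraph_adj]; decide)
    have k02 := hn 0 2 (by rw [SimpleGraph.pathGraph_adj]; decide)
    have k03 := hn 0 3 (by rw [SimpleGraph.pathGraph_adj]; decide)
    have k13 := hn 1 3 (by rw [SimpleGraph.pathGraph_adj]; decide)
    simp only [p4, k01, k12, k23, k02, k03, k13] at h1
    exact absurd h1 (by decide)
  · intro h
    by_contra hc
    simp only [cogB, List.all_eq_true, List.mem_range, not_forall] at hc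
    obtain ⟨a, ha, b, hb, c, hcc, d, hd, hp⟩ := hc
    simp only [p4, Bool.not_eq_true', Bool.not_eq_false, Bool.and_eq_true] at hp
    obtain ⟨e01, e12, e23, e02, e03, e13⟩ := hp
    have s := hA.2.1
    have z := hA.2.2
    let v : Fin 4 → Fin A.length := ![⟨a, ha⟩, ⟨b, hb⟩, ⟨c, hcc⟩, ⟨d, hd⟩]
    have hadj4 : ∀ x y : Fin 4, (gr A).Adj (v x) (v y) ↔ (SimpleGraph.pathGraph 4).Adj x y := by
      intro x y
      rw [hadj, SimpleGraph.pathGraph_adj]
      have e10 : ent A b a = true := by rw [s]; exact e01
      have e21 : ent A c b = true := by rw [s]; exact e12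
      have e32 : ent A d c = true := by rw [s]; exact e23
      have e20 : ent A c a = false := by rw [s]; exact e02
      have e30 : ent A d a = false := by rw [s]; exact e03
      have e31 : ent A d b = false := by rw [s]; exact e13
      have z0 := z a
      have z1 := z b
      have z2 := z c
      have z3 := z d
      fin_cases x <;> fin_cases y <;>
        simp [v, e01, e12, e23, e02, e03, e13, e10, e21, e32, e20, e30, e31, z0, z1, z2, z3]
    have hinj : Function.Injective v := by
      intro x y hxy
      by_contra hne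
      have h2 : ∀ w, (SimpleGraph.pathGraph 4).Adj x w ↔ (SimpleGraph.pathGraph 4).Adj y w := by
        intro w
        rw [← hadj4, ← hadj4, hxy]
      simp only [SimpleGraph.pathGraph_adj] at h2
      revert hne h2
      revert x y
      intro x y _ hne h2
      have q0 := h2 0
      have q1 := h2 1
      have q2 := h2 2
      have q3 := h2 3
      fin_cases x <;> fin_cases y <;> simp_all
    exact h.false ⟨⟨v, hinj⟩, fun {x y} => hadj4 x y⟩

end Pool.Agent.NPC.CG887
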