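import Pool.Agent.W887.CG.Mem

/-!
# Membership in `#P`
-/

namespace Pool.Agent.NPC.CG887

open Pool.Agent.H549R2.Convex (ent F)
open Pool.Agent.NPC.Cnt Pool.Agent.W887.CG
open Pool.Agent.NPC.H549Convex (LL fp_of_poly upoly_fact ent_poly poly_prod sqB_poly sqB)
open Pool.Agent.NPC.Uc (allEq subs conn_iff poly_allEq poly_subs)

/-- test for connectivity -/
def conB (C : LL) : Bool := decide (0 < C.length) && allEq (subs (ed C)) (List.range C.length)

theorem conB_poly : Poly conB :=
  Poly.and (Poly.decide_lt (Poly.const 0) (Poly.length Poly.id))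
    (poly_allEq (poly_subs ed_poly) (Poly.range_length Poly.id))

theorem eqvGen_reach {C : LL} (hC : IsAdj C) {u v : ℕ}
    (h : Relation.EqvGen (fun a b => (a, b) ∈ ed C) u v) :
    u = v ∨ ∃ (hu : u < C.length) (hv : v < C.length),
      (gr C).Reachable ⟨u, hu⟩ ⟨v, hv⟩ := by
  induction h with
  | rel a b h =>
    rw [mem_ed] at h
    obtain ⟨ha, hb, hab⟩ := h
    exact Or.inr ⟨ha, hb, ((gr_adj hC ⟨a, ha⟩ ⟨b, hb⟩).2 hab).reachable⟩
  | refl a => exact Or.inl rfl
  | symm a b _ ih =>
    rcases ih with h | ⟨h1, h2, h3⟩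
    · exact Or.inl h.symm
    · exact Or.inr ⟨h2, h1, h3.symm⟩
  | trans a b c _ _ ih1 ih2 =>
    rcases ih1 with h | ⟨h1, h2, h3⟩
    · subst h; exact ih2
    · rcases ih2 with h | ⟨k1, k2, k3⟩
      · subst h; exact Or.inr ⟨h1, h2, h3⟩
      · exact Or.inr ⟨h1, k2, h3.trans k3⟩

theorem conB_iff {C : LL} (hC : IsAdj C) : conB C = true ↔ (gr C).Connected := by
  unfold conB
  rw [Bool.and_eq_true, decide_eq_true_eq, conn_iff]
  constructor
  · rintro ⟨hpos, h⟩
    have : Nonempty (Fin C.length) := ⟨⟨0, hpos⟩⟩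
    refine SimpleGraph.Connected.mk fun u v => ?_
    rcases eqvGen_reach hC (h u.val (List.mem_range.2 u.2) v.val (List.mem_range.2 v.2)) with
      h1 | ⟨_, _, h1⟩
    · have : u = v := Fin.ext h1
      rw [this]
    · exact h1
  · intro h
    refine ⟨Fin.pos_iff_nonempty.2 h.nonempty, fun u hu v hv => ?_⟩
    rw [List.mem_range] at hu hv
    have h1 := h.preconnected ⟨u, hu⟩ ⟨v, hv⟩
    rw [SimpleGraph.reachable_iff_reflTransGen] at h1
    have key : ∀ x : Fin C.length, Relation.ReflTransGen (gr C).Adj ⟨u, hu⟩ x →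
        Relation.EqvGen (fun a b => (a, b) ∈ ed C) u x.val := by
      intro x hx
      induction hx with
      | refl => exact .refl _
      | @tail b c _ hbc ih =>
        refine .trans _ _ _ ih (.rel _ _ ?_)
        rw [mem_ed]
        exact ⟨b.2, c.2, (gr_adj hC b c).1 hbc⟩
    exact key ⟨v, hv⟩ h1

/-- entrywise comparison of matrices -/
def leB (A C : LL) : Bool := (List.range A.length).all fun i =>
  (List.range A.length).all fun j => !ent C i j || ent A i j

/-- The certificates: adjacency matrices of connected spanning subgraphs. -/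
def rel (A C : LL) : Bool :=
  adjB A && (cogB A && (adjB C && (decide (C.length = A.length) && (leB A C && conB C))))

theorem leB_poly : Poly (fun p : LL × LL => leB p.1 p.2) := by
  have h1 : Poly (fun q : ((LL × LL) × ℕ) × ℕ => ent q.1.1.2 q.1.2 q.2) :=
    ent_poly.comp (f := fun q : ((LL × LL) × ℕ) × ℕ => (q.1.1.2, q.1.2, q.2)) (Poly.pair
      (Poly.snd (Poly.fst (Poly.fst Poly.id))) (Poly.pair (Poly.snd (Poly.fst Poly.id))
        (Poly.snd Poly.id)))
  have h2 : Poly (fun q : ((LL × LL) × ℕ) × ℕ => ent q.1.1.1 q.1.2 q.2) :=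
    ent_poly.comp (f := fun q : ((LL × LL) × ℕ) × ℕ => (q.1.1.1, q.1.2, q.2)) (Poly.pair
      (Poly.fst (Poly.fst (Poly.fst Poly.id))) (Poly.pair (Poly.snd (Poly.fst Poly.id))
        (Poly.snd Poly.id)))
  have h3 : Poly (fun q : (LL × LL) × ℕ => (List.range q.1.1.length).all fun j =>
      !ent q.1.2 q.2 j || ent q.1.1 q.2 j) :=
    all_p (f := fun (q : (LL × LL) × ℕ) j => !ent q.1.2 q.2 j || ent q.1.1 q.2 j)
      (UPoly.length (Poly.fst (Poly.fst Poly.id))) (Poly.or (Poly.not h1) h2)
  exact all_p (f := fun (p : LL × LL) i => (List.range p.1.length).all fun j =>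
    !ent p.2 i j || ent p.1 i j) (UPoly.length (Poly.fst Poly.id)) h3

theorem rel_poly : Poly (fun p : LL × LL => rel p.1 p.2) :=
  Poly.and (adjB_poly.comp (Poly.fst Poly.id)) (Poly.and (cogB_poly.comp (Poly.fst Poly.id))
    (Poly.and (adjB_poly.comp (Poly.snd Poly.id)) (Poly.and
      (Poly.decide_eq (Poly.length (Poly.snd Poly.id)) (Poly.length (Poly.fst Poly.id)))
      (Poly.and leB_poly (conB_poly.comp (Poly.snd Poly.id))))))

/-- the graph on `n` vertices of a matrix -/
def grN (n : ℕ) (C : LL) : SimpleGraph (Fin n) :=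
  SimpleGraph.fromRel fun i j => ent C i j = true

theorem grN_adj {n : ℕ} {C : LL} (hC : IsAdj C) (hn : C.length = n) (i j : Fin n) :
    (grN n C).Adj i j ↔ ent C i.val j.val = true := by
  subst hn
  exact gr_adj hC i j

theorem grN_connected {n : ℕ} {C : LL} (hn : C.length = n) :
    (gr C).Connected ↔ (grN n C).Connected := by
  subst hn
  rfl

theorem leB_iff {A C : LL} (hA : IsAdj A) (hC : IsAdj C) (hn : C.length = A.length) :
    leB A C = true ↔ grN A.length C ≤ gr A := by
  simp only [leB, List.all_eq_true, List.mem_range, Bool.or_eq_true, Bool.not_eq_true']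
  constructor
  · intro h i j hij
    rw [grN_adj hC hn] at hij
    rw [gr_adj hA]
    rcases h i.val i.2 j.val j.2 with h1 | h1
    · rw [hij] at h1; exact absurd h1 (by simp)
    · exact h1
  · intro h i hi j hj
    by_cases hc : ent C i j = true
    · right
      exact (gr_adj hA ⟨i, hi⟩ ⟨j, hj⟩).1 (h ((grN_adj hC hn ⟨i, hi⟩ ⟨j, hj⟩).2 hc))
    · left
      simpa using hc

open Classical in
/-- the adjacency matrix of a graph -/
noncomputable def matOf {n : ℕ} (H : SimpleGraph (Fin n)) : LL :=
  List.ofFn fun i => List.ofFn fun j => decide (H.Adj i j)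

theorem length_matOf {n : ℕ} (H : SimpleGraph (Fin n)) : (matOf H).length = n := by
  simp [matOf]

theorem ent_matOf {n : ℕ} (H : SimpleGraph (Fin n)) (i j : Fin n) :
    ent (matOf H) i.val j.val = true ↔ H.Adj i j := by
  classical
  have h1 : (matOf H).getD i.val [] = List.ofFn fun j => decide (H.Adj i j) := by
    rw [List.getD_eq_getElem (matOf H) _ (by rw [length_matOf]; exact i.2)]
    simp [matOf]
  rw [Pool.Agent.H549R2.Convex.ent, h1,
    List.getD_eq_getElem (List.ofFn fun j => decide (H.Adj i j)) _ (by simp), List.getElem_ofFn,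
    decide_eq_true_eq]

theorem isAdj_matOf {n : ℕ} (H : SimpleGraph (Fin n)) : IsAdj (matOf H) := by
  have hsq : ∀ r ∈ matOf H, r.length = (matOf H).length := by
    intro r hr
    rw [length_matOf]
    rw [matOf, List.mem_ofFn] at hr
    obtain ⟨i, rfl⟩ := hr
    simp
  refine ⟨hsq, fun i j => ?_, fun i => ?_⟩
  · by_cases h : i < n ∧ j < n
    · have h1 := ent_matOf H ⟨i, h.1⟩ ⟨j, h.2⟩
      have h2 := ent_matOf H ⟨j, h.2⟩ ⟨i, h.1⟩
      rw [SimpleGraph.adj_comm, ← h1] at h2
      simp only at h2
      exact Bool.eq_iff_iff.2 h2.symm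
    · rw [ent_out hsq (by rw [length_matOf]; exact h),
        ent_out hsq (by rw [length_matOf]; exact fun hc => h hc.symm)]
  · by_cases h : i < n
    · have h1 := ent_matOf H ⟨i, h⟩ ⟨i, h⟩
      simp only at h1
      rw [← Bool.not_eq_true, h1]
      exact H.irrefl
    · exact ent_out hsq (by rw [length_matOf]; exact fun hc => h hc.1)

theorem grN_matOf {n : ℕ} (H : SimpleGraph (Fin n)) : grN n (matOf H) = H := by
  ext i j
  rw [grN_adj (isAdj_matOf H) (length_matOf H), ent_matOf]

theorem grN_inj {n : ℕ} {C D : LL} (hC : IsAdj C) (hD : IsAdj D) (h1 : C.length = n)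
    (h2 : D.length = n) (h : grN n C = grN n D) : C = D := by
  have hent : ∀ i j, i < n → j < n → ent C i j = ent D i j := by
    intro i j hi hj
    have e1 := grN_adj hC h1 ⟨i, hi⟩ ⟨j, hj⟩
    have e2 := grN_adj hD h2 ⟨i, hi⟩ ⟨j, hj⟩
    rw [h] at e1
    exact Bool.eq_iff_iff.2 (e1.symm.trans e2)
  refine List.ext_getElem (by rw [h1, h2]) fun i hi hi' => ?_
  have l1 : (C[i]).length = n := (hC.1 _ (List.getElem_mem hi)).trans h1
  have l2 : (D[i]).length = n := (hD.1 _ (List.getElem_mem hi')).trans h2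
  refine List.ext_getElem (by rw [l1, l2]) fun j hj hj' => ?_
  have h3 := hent i j (by omega) (by omega)
  unfold Pool.Agent.H549R2.Convex.ent at h3
  rwa [List.getD_eq_getElem C _ hi, List.getD_eq_getElem D _ hi', List.getD_eq_getElem _ _ hj,
    List.getD_eq_getElem _ _ hj'] at h3

open Classical in
/-- The number of connected spanning subgraphs of cographs, given by adjacency matrices; other
inputs have value `0`. -/
noncomputable def numConnCo (A : LL) : ℕ :=
  if IsAdj A ∧ IsCograph (gr A) then numConn (gr A) else 0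

theorem rel_card (A : LL) : Nat.card {C : LL // rel A C = true} = numConnCo A := by
  unfold numConnCo
  by_cases hA : IsAdj A
  · by_cases hG : IsCograph (gr A)
    · rw [if_pos ⟨hA, hG⟩]
      unfold numConn
      have hrel : ∀ C : LL, rel A C = true ↔ IsAdj C ∧ C.length = A.length ∧
          grN A.length C ≤ gr A ∧ (grN A.length C).Connected := by
        intro C
        unfold rel
        rw [(adjB_iff A).2 hA, (cogB_iff hA).2 hG]
        simp only [Bool.true_and, Bool.and_eq_true, decide_eq_true_eq, adjB_iff]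
        constructor
        · rintro ⟨h1, h2, h3, h4⟩
          exact ⟨h1, h2, (leB_iff hA h1 h2).1 h3, (grN_connected h2).1 ((conB_iff h1).1 h4)⟩
        · rintro ⟨h1, h2, h3, h4⟩
          exact ⟨h1, h2, (leB_iff hA h1 h2).2 h3, (conB_iff h1).2 ((grN_connected h2).2 h4)⟩
      refine Nat.card_congr (Equiv.ofBijective
        (fun C => ⟨grN A.length C.1, ((hrel C.1).1 C.2).2.2⟩) ⟨?_, ?_⟩)
      · rintro ⟨C, hC⟩ ⟨D, hD⟩ h
        rw [Subtype.mk.injEq] at h
        apply Subtype.ext
        have h1 := (hrel C).1 hC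
        have h2 := (hrel D).1 hD
        exact grN_inj h1.1 h2.1 h1.2.1 h2.2.1 h
      · rintro ⟨H, h1, h2⟩
        refine ⟨⟨matOf H, (hrel _).2 ⟨isAdj_matOf H, length_matOf H, ?_, ?_⟩⟩, ?_⟩
        · rw [grN_matOf]; exact h1
        · rw [grN_matOf]; exact h2
        · apply Subtype.ext
          exact grN_matOf H
    · rw [if_neg (fun h => hG h.2), Nat.card_eq_zero]
      left
      refine ⟨fun C => hG ?_⟩
      have h := C.2
      unfold rel at h
      rw [Bool.and_eq_true, Bool.and_eq_true] at h
      exact (cogB_iff hA).1 h.2.1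
  · rw [if_neg (fun h => hA h.1), Nat.card_eq_zero]
    left
    refine ⟨fun C => hA ?_⟩
    have h := C.2
    unfold rel at h
    rw [Bool.and_eq_true] at h
    exact (adjB_iff A).1 h.1

/-- **Counting the connected spanning subgraphs of a cograph is in `#P`.** -/
theorem mem_sharpP : SharpP (strFn numConnCo) := by
  have h := sharpP_typed rel rel_poly
    (Polynomial.X * (Polynomial.C 4 * Polynomial.X + Polynomial.C 2) + Polynomial.C 1) ?_
  · have e : (fun A : LL => Nat.card {C : LL // rel A C = true}) = numConnCo := funext rel_card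
    rw [e] at h
    exact h
  · intro A C hc
    unfold rel at hc
    simp only [Bool.and_eq_true, decide_eq_true_eq, adjB_iff] at hc
    obtain ⟨_, _, hC, hlen, _⟩ := hc
    have h1 : ∀ r ∈ C, sz r ≤ 4 * A.length + 1 := by
      intro r hr
      have h2 := sz_listBool_le r
      rw [hC.1 r hr, hlen] at h2
      exact h2
    have h2 := sz_le_length_mul C _ h1
    have h3 := length_lt_sz A
    simp only [Polynomial.eval_add, Polynomial.eval_mul, Polynomial.eval_X, Polynomial.eval_C]
    have h4 : C.length * (4 * A.length + 1 + 1) ≤ sz A * (4 * sz A + 2) :=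
      Nat.mul_le_mul (by omega) (by omega)
    omega

theorem numConn_le {n : ℕ} (G : SimpleGraph (Fin n)) : numConn G ≤ 2 ^ (n * n) := by
  classical
  unfold numConn
  have h1 : Nat.card {H : SimpleGraph (Fin n) // H ≤ G ∧ H.Connected} ≤
      Nat.card (Fin n × Fin n → Bool) := by
    refine Nat.card_le_card_of_injective (fun H p => decide (H.1.Adj p.1 p.2)) ?_
    intro H H' h
    apply Subtype.ext
    ext i j
    have h2 := congrFun h (i, j)
    simpa using h2
  refine h1.trans (le_of_eq ?_)
  simp

theorem numConnCo_size (A : LL) : (numConnCo A).size ≤ A.length * A.length + 1 := by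
  unfold numConnCo
  split_ifs
  · rw [Nat.size_le]
    exact (numConn_le _).trans_lt (Nat.pow_lt_pow_right (by norm_num) (Nat.lt_succ_self _))
  · simp

end Pool.Agent.NPC.CG887
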