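import Mathlib

/-!
# Parities of the coefficients of powers of `1 + X + X ^ 2`
-/

namespace Pool.Agent.W887.CG

open Polynomial

/-- the trinomial modulo two -/
noncomputable def tri : (ZMod 2)[X] := 1 + X + X ^ 2

/-- coefficients of the powers of the trinomial modulo two -/
noncomputable def tc (Q N : ℕ) : ZMod 2 := (tri ^ Q).coeff N

/-- coefficients of the powers of the trinomial times `1 + X`, modulo two -/
noncomputable def td (Q N : ℕ) : ZMod 2 := ((1 + X) * tri ^ Q).coeff N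

theorem two_eq_zero' : (2 : (ZMod 2)[X]) = 0 := by
  have : (2 : ZMod 2) = 0 := by decide
  rw [← C_ofNat, this, C_0]

theorem coeff_even (f g : (ZMod 2)[X]) (N : ℕ) :
    (expand (ZMod 2) 2 f + X * expand (ZMod 2) 2 g).coeff (2 * N) = f.coeff N := by
  rw [coeff_add]
  have h1 : (expand (ZMod 2) 2 f).coeff (2 * N) = f.coeff N := coeff_expand_mul' (by norm_num) _ _
  have h2 : (X * expand (ZMod 2) 2 g).coeff (2 * N) = 0 := by
    cases N with
    | zero => simp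
    | succ N =>
      rw [show 2 * (N + 1) = (2 * N + 1) + 1 by ring, coeff_X_mul, coeff_expand (by norm_num),
        if_neg (by omega)]
  rw [h1, h2, add_zero]

theorem coeff_odd (f g : (ZMod 2)[X]) (N : ℕ) :
    (expand (ZMod 2) 2 f + X * expand (ZMod 2) 2 g).coeff (2 * N + 1) = g.coeff N := by
  rw [coeff_add, coeff_X_mul]
  have h1 : (expand (ZMod 2) 2 g).coeff (2 * N) = g.coeff N := coeff_expand_mul' (by norm_num) _ _
  have h2 : (expand (ZMod 2) 2 f).coeff (2 * N + 1) = 0 := by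
    rw [coeff_expand (by norm_num), if_neg (by omega)]
  rw [h1, h2, zero_add]

theorem tri_pow_even (Q : ℕ) : tri ^ (2 * Q) = expand (ZMod 2) 2 (tri ^ Q) := by
  rw [ZMod.expand_card, ← pow_mul, mul_comm]

theorem tri_pow_odd (Q : ℕ) : tri ^ (2 * Q + 1) =
    expand (ZMod 2) 2 ((1 + X) * tri ^ Q) + X * expand (ZMod 2) 2 (tri ^ Q) := by
  rw [pow_succ, tri_pow_even, map_mul, map_add, map_one, expand_X, tri]
  ring

theorem one_add_tri_even (Q : ℕ) : (1 + X) * tri ^ (2 * Q) =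
    expand (ZMod 2) 2 (tri ^ Q) + X * expand (ZMod 2) 2 (tri ^ Q) := by
  rw [tri_pow_even]; ring

theorem one_add_tri_odd (Q : ℕ) : (1 + X) * tri ^ (2 * Q + 1) =
    expand (ZMod 2) 2 (tri ^ Q) + X * expand (ZMod 2) 2 (X * tri ^ Q) := by
  rw [pow_succ, tri_pow_even, map_mul, expand_X, tri]
  have h := two_eq_zero'
  linear_combination (X + X ^ 2) * expand (ZMod 2) 2 ((1 + X + X ^ 2) ^ Q) * h

theorem tc_even_even (Q N : ℕ) : tc (2 * Q) (2 * N) = tc Q N := by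
  unfold tc
  rw [tri_pow_even]
  exact coeff_expand_mul' (by norm_num) _ _

theorem tc_even_odd (Q N : ℕ) : tc (2 * Q) (2 * N + 1) = 0 := by
  unfold tc
  rw [tri_pow_even, coeff_expand (by norm_num), if_neg (by omega)]

theorem tc_odd_odd (Q N : ℕ) : tc (2 * Q + 1) (2 * N + 1) = tc Q N := by
  unfold tc
  rw [tri_pow_odd, coeff_odd]

theorem tc_odd_even (Q N : ℕ) : tc (2 * Q + 1) (2 * N) = td Q N := by
  unfold tc td
  rw [tri_pow_odd, coeff_even]

theorem td_even_even (Q N : ℕ) : td (2 * Q) (2 * N) = tc Q N := by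
  unfold tc td
  rw [one_add_tri_even, coeff_even]

theorem td_odd_even (Q N : ℕ) : td (2 * Q + 1) (2 * N) = tc Q N := by
  unfold tc td
  rw [one_add_tri_odd, coeff_even]

theorem tc_zero (Q : ℕ) : tc Q 0 = 1 := by
  unfold tc tri
  rw [coeff_zero_eq_eval_zero]
  simp

/-- the coefficient of index `2 ^ m - 1` detects whether the exponent is `-1` modulo `2 ^ m` -/
theorem tc_ones (m : ℕ) : ∀ Q : ℕ, tc Q (2 ^ m - 1) = if 2 ^ m ∣ Q + 1 then 1 else 0 := by
  induction m with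
  | zero => intro Q; simp [tc_zero]
  | succ m ih =>
    intro Q
    have e : 2 ^ (m + 1) - 1 = 2 * (2 ^ m - 1) + 1 := by
      have : 0 < 2 ^ m := by positivity
      rw [pow_succ]; omega
    rcases Nat.even_or_odd' Q with ⟨R, rfl | rfl⟩
    · rw [e, tc_even_odd, if_neg]
      intro h
      have : 2 ∣ 2 * R + 1 := (Dvd.intro_left (2 ^ m) (by rw [pow_succ])).trans h
      omega
    · rw [e, tc_odd_odd, ih]
      have : 2 ^ (m + 1) ∣ 2 * R + 1 + 1 ↔ 2 ^ m ∣ R + 1 := by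
        rw [show 2 * R + 1 + 1 = (R + 1) * 2 by ring, pow_succ]
        exact Nat.mul_dvd_mul_iff_right (by norm_num)
      simp only [this]

theorem tc_four (Q N : ℕ) : tc (4 * Q + 3) (4 * N) = tc Q N := by
  rw [show 4 * Q + 3 = 2 * (2 * Q + 1) + 1 by ring, show 4 * N = 2 * (2 * N) by ring, tc_odd_even,
    td_odd_even]

theorem tc_four_pow (i : ℕ) : ∀ Q N : ℕ, tc (4 ^ i * Q + (4 ^ i - 1)) (4 ^ i * N) = tc Q N := by
  induction i with
  | zero => intro Q N; simp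
  | succ i ih =>
    intro Q N
    have h : 0 < 4 ^ i := by positivity
    have e : 4 ^ (i + 1) * Q + (4 ^ (i + 1) - 1) = 4 ^ i * (4 * Q + 3) + (4 ^ i - 1) := by
      rw [pow_succ]
      have : 4 ^ i * (4 * Q + 3) = 4 ^ i * 4 * Q + 3 * 4 ^ i := by ring
      omega
    have e2 : 4 ^ (i + 1) * N = 4 ^ i * (4 * N) := by ring
    rw [e, e2, ih, tc_four]

theorem tc_high_odd (Q m : ℕ) : tc (2 * Q + 1) (4 * (2 ^ m - 1)) =
    if 2 ^ m ∣ Q / 2 + 1 then 1 else 0 := by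
  rw [show 4 * (2 ^ m - 1) = 2 * (2 * (2 ^ m - 1)) by ring, tc_odd_even]
  rcases Nat.even_or_odd' Q with ⟨R, rfl | rfl⟩
  · rw [td_even_even, tc_ones]
    simp
  · rw [td_odd_even, tc_ones]
    have : (2 * R + 1) / 2 = R := by omega
    rw [this]

/-- the parameters: first clique size -/
def JA (i : ℕ) : ℕ := 2 * 4 ^ i - 1

/-- the parameters: second clique size -/
def JB (i m : ℕ) : ℕ := 4 ^ (i + 1) * (2 ^ m - 1)

theorem two_mul_four_pow (i : ℕ) : 2 * 4 ^ i = 2 ^ (2 * i + 1) := by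
  rw [pow_succ, pow_mul]; norm_num; ring

theorem tc_JA (i Q : ℕ) : tc Q (JA i) = if 2 * 4 ^ i ∣ Q + 1 then 1 else 0 := by
  unfold JA
  rw [two_mul_four_pow, tc_ones]

/-- **Isolation.** If both coefficients are odd, then the exponent is `-1` or `-1 - 2 * 4 ^ i`
modulo `4 ^ (i + 1) * 2 ^ m`. -/
theorem isolate (i m Q : ℕ) (h1 : tc Q (JA i) ≠ 0) (h2 : tc Q (JB i m) ≠ 0) :
    4 ^ (i + 1) * 2 ^ m ∣ Q + 1 ∨ 4 ^ (i + 1) * 2 ^ m ∣ Q + 1 + 2 * 4 ^ i := by
  rw [tc_JA] at h1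
  have h3 : 2 * 4 ^ i ∣ Q + 1 := by
    by_contra h
    exact h1 (if_neg h)
  obtain ⟨w, hw⟩ := h3
  have hw1 : 1 ≤ w := by
    rcases Nat.eq_zero_or_pos w with h | h
    · subst h; omega
    · exact h
  obtain ⟨R, rfl⟩ : ∃ R, w = R + 1 := ⟨w - 1, by omega⟩
  have h4 : 0 < 4 ^ i := by positivity
  have e1 : Q = 4 ^ i * (2 * R + 1) + (4 ^ i - 1) := by
    have : 2 * 4 ^ i * (R + 1) = 4 ^ i * (2 * R + 1) + 4 ^ i := by ring
    omega
  have e2 : JB i m = 4 ^ i * (4 * (2 ^ m - 1)) := by unfold JB; ring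
  rw [e1, e2, tc_four_pow, tc_high_odd] at h2
  have h5 : 2 ^ m ∣ R / 2 + 1 := by
    by_contra h
    exact h2 (if_neg h)
  obtain ⟨u, hu⟩ := h5
  rcases Nat.even_or_odd' R with ⟨T, rfl | rfl⟩
  · right
    have : 2 * T / 2 = T := by omega
    rw [this] at hu
    refine ⟨u, ?_⟩
    rw [hw]
    calc 2 * 4 ^ i * (2 * T + 1) + 2 * 4 ^ i = 4 ^ (i + 1) * (T + 1) := by ring
      _ = _ := by rw [hu]; ring
  · left
    have : (2 * T + 1) / 2 = T := by omega
    rw [this] at hu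
    refine ⟨u, ?_⟩
    rw [hw]
    calc 2 * 4 ^ i * (2 * T + 1 + 1) = 4 ^ (i + 1) * (T + 1) := by ring
      _ = _ := by rw [hu]; ring

/-- if the exponent is `-1 - 2 * 4 ^ i`, both coefficients are odd -/
theorem isolate_conv (i m Q : ℕ) (h : 4 ^ (i + 1) * 2 ^ m ∣ Q + 1 + 2 * 4 ^ i) :
    tc Q (JA i) = 1 ∧ tc Q (JB i m) = 1 := by
  obtain ⟨u, hu⟩ := h
  have h4 : 0 < 4 ^ i := by positivity
  have hm : 0 < 2 ^ m := by positivity
  have hu1 : 1 ≤ u := by
    rcases Nat.eq_zero_or_pos u with h | h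
    · subst h; omega
    · exact h
  obtain ⟨T, hT⟩ : ∃ T, 2 ^ m * u = T + 1 := ⟨2 ^ m * u - 1, by
    have := Nat.mul_pos hm hu1
    omega⟩
  have e0 : 4 ^ (i + 1) * 2 ^ m * u = 4 ^ (i + 1) * (T + 1) := by rw [mul_assoc, hT]
  rw [e0] at hu
  have e1 : Q = 4 ^ i * (2 * (2 * T) + 1) + (4 ^ i - 1) := by
    have h6 : 4 ^ (i + 1) * (T + 1) = 4 ^ i * (2 * (2 * T) + 1) + 3 * 4 ^ i := by ring
    omega
  constructor
  · rw [tc_JA, if_pos]
    refine ⟨2 * T + 1, ?_⟩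
    have : 2 * 4 ^ i * (2 * T + 1) = 4 ^ i * (2 * (2 * T) + 1) + 4 ^ i := by ring
    omega
  · have e2 : JB i m = 4 ^ i * (4 * (2 ^ m - 1)) := by unfold JB; ring
    rw [e1, e2, tc_four_pow, tc_high_odd, if_pos]
    have : 2 * T / 2 = T := by omega
    rw [this, ← hT]
    exact Dvd.intro _ rfl

end Pool.Agent.W887.CG
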