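import Pool.Agent.W887.CG.Count
import Pool.Agent.H549R2.Convex1

/-!
# The pairs of permutations and the permanent
-/

namespace Pool.Agent.W887.CG

open Finset

section One

variable {n : ℕ} {E : Type} [Fintype E] [DecidableEq E]

/-- label of an item: its line, and whether it is the distinguished one -/
def lab (row : E → Fin n) (S : E → Bool) (e : E) : ℕ := 2 * (row e).val + (S e).toNat

omit [Fintype E] [DecidableEq E] in
theorem lab_eq_iff {row : E → Fin n} {S S' : E → Bool} {e e' : E} :
    lab row S e = lab row S' e' ↔ row e = row e' ∧ S e = S' e' := by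
  unfold lab
  constructor
  · intro h
    have h1 := toNat_le (S e)
    have h2 := toNat_le (S' e')
    have h3 : (row e).val = (row e').val := by omega
    have h4 : (S e).toNat = (S' e').toNat := by omega
    refine ⟨Fin.ext h3, ?_⟩
    cases hs : S e <;> cases hs' : S' e' <;> simp_all
  · rintro ⟨h1, h2⟩
    rw [h1, h2]

/-- number of items in a line -/
def deg (row : E → Fin n) (i : Fin n) : ℕ := (univ.filter fun e => row e = i).card

/-- `S` selects exactly one item of every line -/
def Tr (row : E → Fin n) (S : E → Bool) : Prop := ∀ i, ∃! e, row e = i ∧ S e = true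

omit [DecidableEq E] in
theorem card_true {row : E → Fin n} {S : E → Bool} (h : Tr row S) (i : Fin n) :
    (univ.filter fun e => row e = i ∧ S e = true).card = 1 := by
  obtain ⟨e, he, hu⟩ := h i
  rw [Finset.card_eq_one]
  refine ⟨e, ?_⟩
  ext e'
  simp only [mem_filter, mem_univ, true_and, mem_singleton]
  exact ⟨fun h => hu e' h, fun h => h ▸ he⟩

omit [DecidableEq E] in
theorem card_split (row : E → Fin n) (S : E → Bool) (i : Fin n) :
    (univ.filter fun e => row e = i ∧ S e = true).card +
      (univ.filter fun e => row e = i ∧ S e = false).card = deg row i := by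
  unfold deg
  rw [← Finset.card_filter_add_card_filter_not (s := univ.filter fun e => row e = i)
    (fun e => S e = true), Finset.filter_filter, Finset.filter_filter]
  simp

omit [DecidableEq E] in
theorem card_lab_true (row : E → Fin n) (S : E → Bool) (i : Fin n) :
    Fintype.card {e // lab row S e = 2 * i.val + 1} =
      (univ.filter fun e => row e = i ∧ S e = true).card := by
  rw [Fintype.card_subtype]
  congr 1
  ext e
  rw [mem_filter, mem_filter]
  simp only [mem_univ, true_and]
  unfold lab
  constructor
  · intro h
    have h1 := toNat_le (S e)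
    refine ⟨Fin.ext (by omega), ?_⟩
    cases hs : S e
    · rw [hs] at h; simp at h; omega
    · rfl
  · rintro ⟨h1, h2⟩
    rw [h1, h2]
    rfl

omit [DecidableEq E] in
theorem card_lab_false (row : E → Fin n) (S : E → Bool) (i : Fin n) :
    Fintype.card {e // lab row S e = 2 * i.val} =
      (univ.filter fun e => row e = i ∧ S e = false).card := by
  rw [Fintype.card_subtype]
  congr 1
  ext e
  rw [mem_filter, mem_filter]
  simp only [mem_univ, true_and]
  unfold lab
  constructor
  · intro h
    have h1 := toNat_le (S e)
    refine ⟨Fin.ext (by omega), ?_⟩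
    cases hs : S e
    · rfl
    · rw [hs] at h; simp at h; omega
  · rintro ⟨h1, h2⟩
    rw [h1, h2]
    rfl

omit [DecidableEq E] in
theorem card_lab_big (row : E → Fin n) (S : E → Bool) (k : ℕ) (hk : 2 * n ≤ k) :
    Fintype.card {e // lab row S e = k} = 0 := by
  rw [Fintype.card_eq_zero_iff]
  refine ⟨fun e => ?_⟩
  have h1 := e.2
  have h2 := toNat_le (S e.1)
  have h3 := (row e.1).2
  unfold lab at h1
  omega

omit [DecidableEq E] in
/-- the multisets of labels agree -/
theorem labs_eq_iff {row : E → Fin n} {R S : E → Bool} (hR : Tr row R) :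
    ((∑ c, Finsupp.single (lab row S c) 1 : ℕ →₀ ℕ) = ∑ c, Finsupp.single (lab row R c) 1) ↔
      Tr row S := by
  have hcount : ∀ (q : E → ℕ) (k : ℕ), (∑ c, Finsupp.single (q c) 1 : ℕ →₀ ℕ) k =
      Fintype.card {c // q c = k} := by
    intro q k
    rw [Finsupp.finsetSum_apply, Fintype.card_subtype, Finset.card_filter]
    exact Finset.sum_congr rfl fun c _ => by rw [Finsupp.single_apply]
  constructor
  · intro h i
    have h1 : Fintype.card {e // lab row S e = 2 * i.val + 1} =
        Fintype.card {e // lab row R e = 2 * i.val + 1} := by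
      rw [← hcount, ← hcount, h]
    rw [card_lab_true, card_lab_true, card_true hR] at h1
    obtain ⟨e, he⟩ := Finset.card_eq_one.1 h1
    refine ⟨e, ?_, ?_⟩
    · have : e ∈ univ.filter fun e => row e = i ∧ S e = true := by rw [he]; simp
      exact (mem_filter.1 this).2
    · intro e' he'
      have : e' ∈ univ.filter fun e => row e = i ∧ S e = true := by simp [he']
      rw [he, mem_singleton] at this
      exact this
  · intro hS
    ext k
    rw [hcount, hcount]
    by_cases hk : k < 2 * n
    · rcases Nat.even_or_odd' k with ⟨j, rfl | rfl⟩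
      · have hj : j < n := by omega
        have e1 := card_lab_false row S ⟨j, hj⟩
        have e2 := card_lab_false row R ⟨j, hj⟩
        have e3 := card_split row S ⟨j, hj⟩
        have e4 := card_split row R ⟨j, hj⟩
        rw [card_true hS] at e3
        rw [card_true hR] at e4
        simp only at e1 e2
        omega
      · have hj : j < n := by omega
        have e1 := card_lab_true row S ⟨j, hj⟩
        have e2 := card_lab_true row R ⟨j, hj⟩
        rw [card_true hS] at e1
        rw [card_true hR] at e2
        simp only at e1 e2
        omega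
    · rw [card_lab_big row S k (by omega), card_lab_big row R k (by omega)]

omit [DecidableEq E] in
/-- the product of the factorials of the fibres -/
theorem prod_fact {row : E → Fin n} {R : E → Bool} (hR : Tr row R) :
    ∏ k ∈ univ.image (lab row R), (Fintype.card {c // lab row R c = k}).factorial =
      ∏ i : Fin n, (deg row i - 1).factorial := by
  have h1 : ∏ k ∈ univ.image (lab row R), (Fintype.card {c // lab row R c = k}).factorial =
      ∏ k ∈ range (2 * n), (Fintype.card {c // lab row R c = k}).factorial := by
    apply Finset.prod_subset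
    · intro k hk
      obtain ⟨e, _, rfl⟩ := Finset.mem_image.1 hk
      rw [Finset.mem_range]
      have h2 := toNat_le (R e)
      have h3 := (row e).2
      unfold lab
      omega
    · intro k _ hk
      have : Fintype.card {c // lab row R c = k} = 0 := by
        rw [Fintype.card_eq_zero_iff]
        exact ⟨fun c => hk (Finset.mem_image.2 ⟨c.1, mem_univ _, c.2⟩)⟩
      rw [this]; rfl
  rw [h1]
  have h2 : ∀ m ≤ n, ∏ k ∈ range (2 * m), (Fintype.card {c // lab row R c = k}).factorial =
      ∏ i ∈ range m, if h : i < n then (deg row ⟨i, h⟩ - 1).factorial else 1 := by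
    intro m
    induction m with
    | zero => simp
    | succ m ih =>
      intro hm
      rw [show 2 * (m + 1) = 2 * m + 1 + 1 by ring, Finset.prod_range_succ,
        Finset.prod_range_succ, ih (by omega), Finset.prod_range_succ, mul_assoc]
      congr 1
      have hmn : m < n := by omega
      rw [dif_pos hmn]
      have e1 := card_lab_false row R ⟨m, hmn⟩
      have e2 := card_lab_true row R ⟨m, hmn⟩
      have e3 := card_split row R ⟨m, hmn⟩
      rw [card_true hR] at e2 e3
      simp only at e1 e2
      rw [e1, e2, Nat.factorial_one, mul_one]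
      congr 1
      omega
  rw [h2 n le_rfl, Finset.prod_range]
  refine Finset.prod_congr rfl fun i _ => ?_
  rw [dif_pos i.2]

/-- the permutations of the items that preserve the lines and turn `R` into `S` -/
theorem card_line (row : E → Fin n) (R S : E → Bool) (hR : Tr row R) [Decidable (Tr row S)] :
    (univ.filter fun α : Equiv.Perm E => ∀ e, row (α e) = row e ∧ R (α e) = S e).card =
      if Tr row S then ∏ i : Fin n, (deg row i - 1).factorial else 0 := by
  have h := Pool.Agent.H549R2.Convex.card_lifts (lab row S) (lab row R)
  simp only [lab_eq_iff] at h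
  rw [h]
  split_ifs with h1 h2 h2
  · exact prod_fact hR
  · exact absurd ((labs_eq_iff hR).1 h1) h2
  · exact absurd ((labs_eq_iff hR).2 h2) h1
  · rfl

end One

section Two

variable {n : ℕ} {E : Type} [Fintype E] [DecidableEq E]

open Classical in
/-- the number of pairs of permutations -/
theorem card_PP (row col : E → Fin n) (R C : E → Bool) (hR : Tr row R) (hC : Tr col C) :
    (PP row col R C).card = (∏ i : Fin n, (deg row i - 1).factorial) *
      (∏ i : Fin n, (deg col i - 1).factorial) *
      (univ.filter fun S : E → Bool => Tr row S ∧ Tr col S).card := by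
  have h1 := Finset.card_eq_sum_card_fiberwise (s := PP row col R C)
    (t := (univ : Finset (E → Bool))) (f := fun p e => R (p.1 e))
    (fun _ _ => Finset.mem_coe.2 (mem_univ _))
  rw [h1]
  have h2 : ∀ S : E → Bool, ((PP row col R C).filter fun p => (fun e => R (p.1 e)) = S).card =
      (univ.filter fun α : Equiv.Perm E => ∀ e, row (α e) = row e ∧ R (α e) = S e).card *
      (univ.filter fun α : Equiv.Perm E => ∀ e, col (α e) = col e ∧ C (α e) = S e).card := by
    intro S
    rw [← Finset.card_product]
    congr 1
    ext ⟨p, q⟩
    simp only [PP, mem_filter, mem_univ, true_and, mem_product]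
    constructor
    · rintro ⟨h, rfl⟩
      exact ⟨fun e => ⟨(h e).1, rfl⟩, fun e => ⟨(h e).2.1, (h e).2.2.symm⟩⟩
    · rintro ⟨h, h'⟩
      exact ⟨fun e => ⟨(h e).1, (h' e).1, by rw [(h e).2, (h' e).2]⟩, funext fun e => (h e).2⟩
  simp_rw [h2, card_line _ _ _ hR, card_line _ _ _ hC]
  rw [Finset.card_filter, Finset.mul_sum]
  refine Finset.sum_congr rfl fun S _ => ?_
  by_cases h3 : Tr row S <;> by_cases h4 : Tr col S <;> simp [h3, h4]

open Classical in
/-- the common transversals are the permutations counted by the permanent -/
theorem card_transversals (row col : E → Fin n)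
    (hinj : ∀ e e', row e = row e' → col e = col e' → e = e') :
    (univ.filter fun S : E → Bool => Tr row S ∧ Tr col S).card =
      (univ.filter fun σ : Equiv.Perm (Fin n) => ∀ j, ∃ e, row e = σ j ∧ col e = j).card := by
  symm
  refine Finset.card_bij (fun σ _ e => decide (row e = σ (col e))) ?_ ?_ ?_
  · intro σ hσ
    simp only [mem_filter, mem_univ, true_and] at hσ ⊢
    constructor
    · intro i
      obtain ⟨e, he1, he2⟩ := hσ (σ.symm i)
      rw [Equiv.apply_symm_apply] at he1
      refine ⟨e, ⟨he1, ?_⟩, ?_⟩
      · simp [he1, he2]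
      · rintro e' ⟨h1, h2⟩
        simp only [decide_eq_true_eq] at h2
        apply hinj
        · rw [h1, he1]
        · rw [he2, ← h1, h2, Equiv.symm_apply_apply]
    · intro j
      obtain ⟨e, he1, he2⟩ := hσ j
      refine ⟨e, ⟨he2, ?_⟩, ?_⟩
      · simp [he1, he2]
      · rintro e' ⟨h1, h2⟩
        simp only [decide_eq_true_eq] at h2
        apply hinj
        · rw [h2, h1, he1]
        · rw [he2, h1]
  · intro σ hσ σ' hσ' h
    simp only [mem_filter, mem_univ, true_and] at hσ hσ'
    ext j
    obtain ⟨e, he1, he2⟩ := hσ j
    have h1 := congrFun h e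
    simp only [he2, he1, decide_true] at h1
    rw [of_decide_eq_true h1.symm]
  · intro S hS
    simp only [mem_filter, mem_univ, true_and] at hS
    obtain ⟨hr, hc⟩ := hS
    have hch : ∀ j, ∃ e, (col e = j ∧ S e = true) ∧ ∀ e', (col e' = j ∧ S e' = true) → e' = e :=
      fun j => by
        obtain ⟨e, he, hu⟩ := hc j
        exact ⟨e, he, hu⟩
    choose ε hε hεu using hch
    have hinj2 : Function.Injective fun j => row (ε j) := by
      intro j j' h
      simp only at h
      obtain ⟨e, _, hu⟩ := hr (row (ε j))
      have h1 := hu (ε j) ⟨rfl, (hε j).2⟩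
      have h2 := hu (ε j') ⟨h.symm, (hε j').2⟩
      rw [← (hε j).1, ← (hε j').1, h1, h2]
    let σ : Equiv.Perm (Fin n) := Equiv.ofBijective _ (Finite.injective_iff_bijective.1 hinj2)
    have hσ : ∀ j, σ j = row (ε j) := fun _ => rfl
    refine ⟨σ, ?_, ?_⟩
    · simp only [mem_filter, mem_univ, true_and]
      exact fun j => ⟨ε j, (hσ j).symm, (hε j).1⟩
    · funext e
      rw [hσ]
      cases hS : S e
      · rw [decide_eq_false_iff_not]
        intro h
        have h1 := hinj e (ε (col e)) h (hε (col e)).1.symm
        have h2 := (hε (col e)).2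
        rw [← h1, hS] at h2
        exact absurd h2 (by simp)
      · rw [decide_eq_true_eq, ← hεu (col e) e ⟨rfl, hS⟩]

end Two

end Pool.Agent.W887.CG
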