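import Pool.Agent.W887.CG.Rec
import Pool.Agent.H549R2.NRed

/-!
# The reduction runs in polynomial time
-/

namespace Pool.Agent.NPC.CG887

open Pool.Agent.H549R2.Convex (ent F)
open Pool.Agent.NPC.Cnt Pool.Agent.W887.CG
open Pool.Agent.NPC.H549Convex (LL fp_of_poly upoly_fact ent_poly poly_prod sqB_poly)
open Pool.Agent.NPC.H549PM (upoly_pow2 upoly_min)

section General

variable {α β : Type} [TEnc α] [TEnc β]

theorem upoly_size {n : α → ℕ} (hn : Poly n) : UPoly (fun a => (n a).size) := by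
  have h : Poly (fun a => (n a).bits) := Poly.natBits hn
  refine (UPoly.length h).congr fun a => ?_
  exact congrArg (fun k => List.replicate k ()) (Nat.size_eq_bits_len _)

theorem upoly_sub {m n : α → ℕ} (hm : UPoly m) (hn : Poly n) : UPoly (fun a => m a - n a) :=
  UPoly.of_le (Poly.sub hm.toPoly hn) hm fun _ => Nat.sub_le _ _

theorem poly_replicate {n : α → ℕ} {x : α → β} (hn : UPoly n) (hx : Poly x) :
    Poly (fun a => List.replicate (n a) (x a)) := by
  have h : Poly (fun a => (List.range (n a)).map (fun _ => x a)) :=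
    Poly.map (F := fun a _ => x a) hn.range (hx.comp (Poly.fst Poly.id))
  refine h.congr fun a => ?_
  rw [List.map_const', List.length_range]

theorem two_pow_size_le (x : ℕ) : 2 ^ x.size ≤ 2 * x + 1 := by
  rcases Nat.eq_zero_or_pos x with h | h
  · subst h; simp
  · have h1 : 0 < x.size := Nat.size_pos.2 h
    obtain ⟨s, hs⟩ : ∃ s, x.size = s + 1 := ⟨x.size - 1, by omega⟩
    have h2 : 2 ^ s ≤ x := Nat.lt_size.1 (by omega)
    rw [hs, pow_succ]
    omega

theorem upoly_pow_size {n : α → ℕ} (hn : UPoly n) : UPoly (fun a => 2 ^ (n a).size) := by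
  refine UPoly.of_le (upoly_pow2 (upoly_size hn.toPoly))
    (UPoly.add (UPoly.mul (UPoly.const 2) hn) (UPoly.const 1)) fun a => ?_
  exact two_pow_size_le _

theorem poly_toNat {b : α → Bool} (hb : Poly b) : Poly (fun a => (b a).toNat) := by
  refine (Poly.cond hb (Poly.const 1) (Poly.const 0)).congr fun a => ?_
  cases b a <;> rfl

end General

section Params

theorem len_u : UPoly (fun A : LL => A.length) := UPoly.length Poly.id

theorem ed_poly : Poly ed := by
  have h2 : Poly (fun p : LL × ℕ => (List.range p.1.length).filter (fun j => ent p.1 p.2 j)) :=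
    Poly.filter (p := fun (p : LL × ℕ) j => ent p.1 p.2 j) (Poly.range_length (Poly.fst Poly.id))
      (ent_poly.comp (Poly.pair (Poly.fst (Poly.fst Poly.id)) (Poly.pair
        (Poly.snd (Poly.fst Poly.id)) (Poly.snd Poly.id))))
  have h3 : Poly (fun p : LL × ℕ => ((List.range p.1.length).filter (fun j => ent p.1 p.2 j)).map
      (fun j => ((p.2, j) : ℕ × ℕ))) :=
    Poly.map (F := fun (p : LL × ℕ) j => ((p.2, j) : ℕ × ℕ)) h2
      (Poly.pair (Poly.snd (Poly.fst Poly.id)) (Poly.snd Poly.id))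
  exact Poly.flatMap (F := fun (A : LL) i => ((List.range A.length).filter
    (fun j => ent A i j)).map (fun j => ((i, j) : ℕ × ℕ))) (Poly.range_length Poly.id) h3

theorem pK_u : UPoly pK := UPoly.length ed_poly

theorem pI_u : UPoly pI := upoly_size pK_u.toPoly

theorem four_pow_u : UPoly (fun A : LL => 4 ^ pI A) := by
  refine (UPoly.mul (upoly_pow_size pK_u) (upoly_pow_size pK_u)).congr fun A => ?_
  congr 1
  change 2 ^ pI A * 2 ^ pI A = 4 ^ pI A
  rw [← mul_pow]
  norm_num

theorem pk0_u : UPoly pk0 := UPoly.add (UPoly.mul (UPoly.const 2) four_pow_u) (UPoly.const 1)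

theorem pg_u : UPoly pg :=
  UPoly.add (UPoly.mul (UPoly.mul (UPoly.const 2) pK_u) pK_u) (UPoly.const 1)

theorem pt_u : UPoly pt := UPoly.add (UPoly.add pk0_u pg_u) (UPoly.const 1)

section Consts

variable {α : Type} [TEnc α] {n : α → ℕ}

theorem Uc_u (hn : UPoly n) : UPoly (fun a => Uc (n a)) :=
  UPoly.add (UPoly.mul (UPoly.mul (UPoly.const 2) hn) hn) (UPoly.mul (UPoly.const 2) hn)

theorem Sc_u (hn : UPoly n) : UPoly (fun a => Sc (n a)) :=
  UPoly.add (UPoly.mul (UPoly.const 4) (Uc_u hn)) (UPoly.const 4)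

theorem Hc_u (hn : UPoly n) : UPoly (fun a => Hc (n a)) := UPoly.mul (UPoly.const 9) (Sc_u hn)

theorem Bc_u (hn : UPoly n) : UPoly (fun a => Bc (n a)) :=
  UPoly.add (UPoly.add (UPoly.mul (UPoly.const 3) (Hc_u hn))
    (UPoly.mul (UPoly.const 7) (Sc_u hn))) (Uc_u hn)

end Consts

theorem pB_u : UPoly pB := UPoly.mul pt_u (Bc_u len_u)

theorem pd_u : UPoly pd := upoly_sub pk0_u pK_u.toPoly

theorem pm_u : UPoly pm := upoly_size (UPoly.mul pk0_u pB_u).toPoly

/-- a matrix and a pair of indices -/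
abbrev LE : Type := LL × ℕ × ℕ

theorem fr_poly : Poly (fun p : LE => fr p.1 p.2) := by
  have h1 : Poly (fun q : LE × ℕ => ent q.1.1 q.1.2.1 q.2) :=
    ent_poly.comp (f := fun q : LE × ℕ => (q.1.1, q.1.2.1, q.2)) (Poly.pair
      (Poly.fst (Poly.fst Poly.id)) (Poly.pair (Poly.fst (Poly.snd (Poly.fst Poly.id)))
        (Poly.snd Poly.id)))
  have h2 : Poly (fun q : LE × ℕ => decide (q.1.2.2 ≤ q.2)) :=
    Poly.decide_le (Poly.snd (Poly.snd (Poly.fst Poly.id))) (Poly.snd Poly.id)
  exact Poly.all (p := fun (q : LE) j => decide (q.2.2 ≤ j) || !ent q.1 q.2.1 j)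
    (Poly.range_length (Poly.fst Poly.id)) (Poly.or h2 (Poly.not h1))

theorem fc_poly : Poly (fun p : LE => fc p.1 p.2) := by
  have h1 : Poly (fun q : LE × ℕ => ent q.1.1 q.2 q.1.2.2) :=
    ent_poly.comp (f := fun q : LE × ℕ => (q.1.1, q.2, q.1.2.2)) (Poly.pair
      (Poly.fst (Poly.fst Poly.id)) (Poly.pair (Poly.snd Poly.id)
        (Poly.snd (Poly.snd (Poly.fst Poly.id)))))
  have h2 : Poly (fun q : LE × ℕ => decide (q.1.2.1 ≤ q.2)) :=
    Poly.decide_le (Poly.fst (Poly.snd (Poly.fst Poly.id))) (Poly.snd Poly.id)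
  exact Poly.all (p := fun (q : LE) i => decide (q.2.1 ≤ i) || !ent q.1 i q.2.2)
    (Poly.range_length (Poly.fst Poly.id)) (Poly.or h2 (Poly.not h1))

section Sizes

variable {α : Type} [TEnc α] {n r c : α → ℕ} {b : α → Bool}

theorem s1_poly (hn : UPoly n) (hr : Poly r) (hc : Poly c) :
    Poly (fun a => s1 (n a) (r a) (c a)) :=
  Poly.add (Poly.add (Hc_u hn).toPoly (Poly.mul (Poly.const 4) (Sc_u hn).toPoly))
    (Poly.sub (Uc_u hn).toPoly (Poly.add (Poly.mul (Poly.const 2) hr)
      (Poly.mul (Poly.mul (Poly.const 2) hn.toPoly) (Poly.succ hc))))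

theorem s2_poly (hn : UPoly n) (hr : Poly r) (hb : Poly b) :
    Poly (fun a => s2 (n a) (r a) (b a)) :=
  Poly.add (Poly.add (Hc_u hn).toPoly (Sc_u hn).toPoly)
    (Poly.add (Poly.mul (Poly.const 2) hr) (poly_toNat hb))

theorem s3_poly (hn : UPoly n) (hc : Poly c) (hb : Poly b) :
    Poly (fun a => s3 (n a) (c a) (b a)) :=
  Poly.add (Poly.add (Hc_u hn).toPoly (Poly.mul (Poly.const 2) (Sc_u hn).toPoly))
    (Poly.sub (Poly.mul (Poly.mul (Poly.const 2) hn.toPoly) (Poly.succ hc)) (poly_toNat hb))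

end Sizes

theorem hn_le : UPoly (fun p : LE => p.1.length) := UPoly.length (Poly.fst Poly.id)

theorem ht_le : Poly (fun p : LE => pt p.1) := Poly.comp pt_u.toPoly (Poly.fst Poly.id)

theorem c1_le : Poly (fun p : LE => p.2.1) := Poly.fst (Poly.snd Poly.id)

theorem c2_le : Poly (fun p : LE => p.2.2) := Poly.snd (Poly.snd Poly.id)

theorem h1_le : Poly (fun p : LE => s1 p.1.length p.2.1 p.2.2) := s1_poly hn_le c1_le c2_le

theorem h2_le : Poly (fun p : LE => s2 p.1.length p.2.1 (fr p.1 p.2)) :=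
  s2_poly hn_le c1_le fr_poly

theorem h3_le : Poly (fun p : LE => s3 p.1.length p.2.2 (fc p.1 p.2)) :=
  s3_poly hn_le c2_le fc_poly

theorem g1_le : Poly (fun p : LE => pt p.1 * s1 p.1.length p.2.1 p.2.2) := Poly.mul ht_le h1_le

theorem g2_le : Poly (fun p : LE => pt p.1 * s2 p.1.length p.2.1 (fr p.1 p.2)) :=
  Poly.mul ht_le h2_le

theorem g3_le : Poly (fun p : LE => pt p.1 * s3 p.1.length p.2.2 (fc p.1 p.2)) :=
  Poly.mul ht_le h3_le

theorem m1_le : Poly (fun A : LL => (ed A).map fun e => pt A * s1 A.length e.1 e.2) := by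
  have h := Poly.map (F := fun (A : LL) (e : ℕ × ℕ) => pt A * s1 A.length e.1 e.2) ed_poly g1_le
  exact h

theorem m2_le : Poly (fun A : LL => (ed A).map fun e => pt A * s2 A.length e.1 (fr A e)) := by
  have h := Poly.map (F := fun (A : LL) (e : ℕ × ℕ) => pt A * s2 A.length e.1 (fr A e)) ed_poly
    g2_le
  exact h

theorem m3_le : Poly (fun A : LL => (ed A).map fun e => pt A * s3 A.length e.2 (fc A e)) := by
  have h := Poly.map (F := fun (A : LL) (e : ℕ × ℕ) => pt A * s3 A.length e.2 (fc A e)) ed_poly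
    g3_le
  exact h

theorem m4_le : Poly (fun A : LL => List.replicate (pd A) (pB A)) :=
  poly_replicate pd_u pB_u.toPoly

theorem parts1_poly : Poly parts1 := by
  refine (Poly.append (Poly.append m1_le m4_le) (Poly.append m2_le m3_le)).congr fun A => ?_
  rw [parts1, partsL, pB]

theorem parts2_poly : Poly parts2 := poly_replicate pk0_u pB_u.toPoly

theorem parts1_le (A : LL) (p : ℕ) : (parts1 A).getD p 0 ≤ pB A := by
  by_cases hp : p < (parts1 A).length
  · obtain ⟨idx, hidx⟩ := exists_idx1 A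
    have h := hidx (idx.symm ⟨p, hp⟩)
    rw [Equiv.apply_symm_apply] at h
    simp only at h
    rw [h]
    exact sI_le _ _ _ _ _ _
  · rw [List.getD_eq_default _ _ (by omega)]
    exact Nat.zero_le _

theorem replicate_le (n x p : ℕ) : (List.replicate n x).getD p 0 ≤ x := by
  by_cases hp : p < n
  · rw [List.getD_eq_getElem _ _ (by simpa using hp), List.getElem_replicate]
  · rw [List.getD_eq_default _ _ (by simpa using hp)]
    exact Nat.zero_le _

theorem pe_poly : Poly pe := by
  have h1 : Poly (fun A : LL => ((parts1 A).map fun x => x * x).sum) :=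
    Poly.sum (Poly.map (F := fun (_ : LL) x => x * x) parts1_poly
      (Poly.mul (Poly.snd Poly.id) (Poly.snd Poly.id)))
  refine (Poly.div (Poly.sub (Poly.mul pk0_u.toPoly (Poly.mul pB_u.toPoly pB_u.toPoly)) h1)
    (Poly.const 2)).congr fun A => ?_
  unfold pe
  simp only [sq]

theorem pe_u : UPoly pe := by
  refine UPoly.of_le pe_poly (UPoly.mul pk0_u (UPoly.mul pB_u pB_u)) fun A => ?_
  unfold pe
  rw [sq]
  exact (Nat.div_le_self _ _).trans (Nat.sub_le _ _)

theorem pb_u : UPoly pb := UPoly.add pe_u pt_u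

theorem JA_u : UPoly (fun A : LL => JA (pI A)) :=
  upoly_sub (UPoly.mul (UPoly.const 2) four_pow_u) (Poly.const 1)

theorem JB_u : UPoly (fun A : LL => JB (pI A) (pm A)) := by
  have h1 : UPoly (fun A : LL => 2 ^ pm A) := upoly_pow_size (UPoly.mul pk0_u pB_u)
  refine (UPoly.mul (UPoly.mul four_pow_u (UPoly.const 4)) (upoly_sub h1 (Poly.const 1))).congr
    fun A => ?_
  congr 1

theorem clqs_poly : Poly clqs :=
  Poly.append (poly_replicate pb_u JA_u.toPoly) (poly_replicate pb_u JB_u.toPoly)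

theorem clqs_le (A : LL) (p : ℕ) : (clqs A).getD p 0 ≤ JA (pI A) + JB (pI A) (pm A) := by
  unfold clqs
  by_cases hp : p < pb A
  · rw [List.getD_append _ _ _ _ (by simpa using hp)]
    exact (replicate_le _ _ _).trans (Nat.le_add_right _ _)
  · rw [List.getD_append_right _ _ _ _ (by simpa using hp)]
    exact (replicate_le _ _ _).trans (Nat.le_add_left _ _)

theorem labs_poly {α : Type} [TEnc α] (s : ℕ) {l : α → List ℕ} (hl : Poly l) {N : α → ℕ}
    (hN : UPoly N) (hb : ∀ a p, (l a).getD p 0 ≤ N a) : Poly (fun a => labs s (l a)) := by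
  have h1 : UPoly (fun q : α × ℕ => (l q.1).getD q.2 0) :=
    UPoly.of_le (Poly.getD (hl.comp (Poly.fst Poly.id)) (Poly.snd Poly.id) (Poly.const 0))
      (hN.comp (Poly.fst Poly.id)) fun q => hb q.1 q.2
  have h2 : Poly (fun q : α × ℕ => (List.range ((l q.1).getD q.2 0)).map
      fun x => ((s, q.2, x) : Lab)) :=
    Poly.map (F := fun (q : α × ℕ) x => ((s, q.2, x) : Lab)) h1.range
      (Poly.pair (Poly.const s) (Poly.pair (Poly.snd (Poly.fst Poly.id)) (Poly.snd Poly.id)))
  exact Poly.flatMap (F := fun (a : α) p => (List.range ((l a).getD p 0)).map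
    fun x => ((s, p, x) : Lab)) (Poly.range_length hl) h2

theorem adjL_poly : Poly (fun p : Lab × Lab => adjL p.1 p.2) := by
  have a0 : Poly (fun p : Lab × Lab => decide (p.1.1 = 0)) :=
    Poly.decide_eq (Poly.fst (Poly.fst Poly.id)) (Poly.const 0)
  have b0 : Poly (fun p : Lab × Lab => decide (p.2.1 = 0)) :=
    Poly.decide_eq (Poly.fst (Poly.snd Poly.id)) (Poly.const 0)
  have c1 : Poly (fun p : Lab × Lab => decide (p.1.2.1 = p.2.2.1)) :=
    Poly.decide_eq (Poly.fst (Poly.snd (Poly.fst Poly.id))) (Poly.fst (Poly.snd (Poly.snd Poly.id)))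
  have c2 : Poly (fun p : Lab × Lab => decide (p.1.2.2 = p.2.2.2)) :=
    Poly.decide_eq (Poly.snd (Poly.snd (Poly.fst Poly.id))) (Poly.snd (Poly.snd (Poly.snd Poly.id)))
  refine (Poly.cond (Poly.and a0 b0) (Poly.not c1) (Poly.cond (Poly.or a0 b0) (Poly.const true)
    (Poly.and c1 (Poly.not c2)))).congr fun p => ?_
  unfold adjL
  by_cases h1 : p.1.1 = 0 <;> by_cases h2 : p.2.1 = 0 <;> by_cases h3 : p.1.2.1 = p.2.2.1 <;>
    by_cases h4 : p.1.2.2 = p.2.2.2 <;> simp [h1, h2, h3, h4]

theorem matL_poly : Poly matL := by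
  have h1 : Poly (fun q : List Lab × Lab => q.1.map fun v => adjL q.2 v) :=
    Poly.map (F := fun (q : List Lab × Lab) v => adjL q.2 v) (Poly.fst Poly.id)
      (adjL_poly.comp (f := fun z : (List Lab × Lab) × Lab => (z.1.2, z.2))
        (Poly.pair (Poly.snd (Poly.fst Poly.id)) (Poly.snd Poly.id)))
  exact Poly.map (F := fun (L : List Lab) u => L.map fun v => adjL u v) Poly.id h1

theorem clab_poly : Poly (fun A : LL => labs 1 (clqs A)) :=
  labs_poly 1 clqs_poly (UPoly.add JA_u JB_u) clqs_le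

theorem cg1_poly : Poly cg1 :=
  matL_poly.comp (f := fun A : LL => labs 0 (parts1 A) ++ labs 1 (clqs A))
    (Poly.append (labs_poly 0 parts1_poly pB_u parts1_le) clab_poly)

theorem cg2_poly : Poly cg2 :=
  matL_poly.comp (f := fun A : LL => labs 0 (parts2 A) ++ labs 1 (clqs A))
    (Poly.append (labs_poly 0 parts2_poly pB_u fun _ _ => replicate_le _ _ _) clab_poly)

end Params

section Post

theorem rdeg_u : UPoly (fun p : LL × ℕ => rdeg p.1 p.2) :=
  UPoly.length (Poly.filter (p := fun (p : LL × ℕ) j => ent p.1 p.2 j)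
    (Poly.range_length (Poly.fst Poly.id)) (ent_poly.comp (Poly.pair (Poly.fst (Poly.fst Poly.id))
      (Poly.pair (Poly.snd (Poly.fst Poly.id)) (Poly.snd Poly.id)))))

theorem cdeg_u : UPoly (fun p : LL × ℕ => cdeg p.1 p.2) :=
  UPoly.length (Poly.filter (p := fun (p : LL × ℕ) i => ent p.1 i p.2)
    (Poly.range_length (Poly.fst Poly.id)) (ent_poly.comp (Poly.pair (Poly.fst (Poly.fst Poly.id))
      (Poly.pair (Poly.snd Poly.id) (Poly.snd (Poly.fst Poly.id))))))

theorem QF_poly : Poly QF := by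
  have h1 : Poly (fun p : LL × ℕ => (rdeg p.1 p.2 - 1).factorial) :=
    upoly_fact (upoly_sub rdeg_u (Poly.const 1))
  have h2 : Poly (fun p : LL × ℕ => (cdeg p.1 p.2 - 1).factorial) :=
    upoly_fact (upoly_sub cdeg_u (Poly.const 1))
  exact Poly.mul (poly_prod (Poly.map (F := fun (A : LL) i => (rdeg A i - 1).factorial)
      (Poly.range_length Poly.id) h1))
    (poly_prod (Poly.map (F := fun (A : LL) i => (cdeg A i - 1).factorial)
      (Poly.range_length Poly.id) h2))

theorem ndB_poly : Poly ndB := by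
  have h1 : Poly (fun q : (LL × ℕ) × ℕ => ent q.1.1 q.1.2 q.2) :=
    ent_poly.comp (f := fun q : (LL × ℕ) × ℕ => (q.1.1, q.1.2, q.2)) (Poly.pair
      (Poly.fst (Poly.fst Poly.id)) (Poly.pair (Poly.snd (Poly.fst Poly.id)) (Poly.snd Poly.id)))
  have h2 : Poly (fun q : (LL × ℕ) × ℕ => ent q.1.1 q.2 q.1.2) :=
    ent_poly.comp (f := fun q : (LL × ℕ) × ℕ => (q.1.1, q.2, q.1.2)) (Poly.pair
      (Poly.fst (Poly.fst Poly.id)) (Poly.pair (Poly.snd Poly.id) (Poly.snd (Poly.fst Poly.id))))
  have h3 : Poly (fun q : LL × ℕ => (List.range q.1.length).any fun j => ent q.1 q.2 j) :=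
    Poly.any (p := fun (q : LL × ℕ) j => ent q.1 q.2 j) (Poly.range_length (Poly.fst Poly.id)) h1
  have h4 : Poly (fun q : LL × ℕ => (List.range q.1.length).any fun j => ent q.1 j q.2) :=
    Poly.any (p := fun (q : LL × ℕ) j => ent q.1 j q.2) (Poly.range_length (Poly.fst Poly.id)) h2
  exact Poly.and
    (Poly.all (p := fun (A : LL) i => (List.range A.length).any fun j => ent A i j)
      (Poly.range_length Poly.id) h3)
    (Poly.all (p := fun (A : LL) j => (List.range A.length).any fun i => ent A i j)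
      (Poly.range_length Poly.id) h4)

variable {α : Type} [TEnc α]

theorem tz_u {x : α → ℕ} (hx : Poly x) : UPoly (fun a => tz (x a)) := by
  have hs : UPoly (fun a => (x a).size) := upoly_size hx
  have h1 : UPoly (fun q : α × ℕ => min q.2 (x q.1).size + 1) :=
    UPoly.add (upoly_min (Poly.snd Poly.id) (hs.comp (Poly.fst Poly.id))) (UPoly.const 1)
  have h2 : Poly (fun q : α × ℕ => decide (x q.1 % 2 ^ (min q.2 (x q.1).size + 1) = 0)) :=
    Poly.decide_eq (Poly.mod (hx.comp (Poly.fst Poly.id)) (upoly_pow2 h1)) (Poly.const 0)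
  exact UPoly.length (Poly.filter
    (p := fun (a : α) k => decide (x a % 2 ^ (min k (x a).size + 1) = 0)) hs.range h2)

theorem sz_lt_pow {x g : ℕ} (h : x < 2 ^ g) : sz x ≤ 4 * g + 1 := by
  have h1 := sz_nat_le x
  have h2 : x.size ≤ g := Nat.size_le.2 h
  omega

theorem inv2_poly {o g : α → ℕ} (ho : Poly o) (hg : UPoly g) :
    Poly (fun a => inv2 (o a) (g a)) := by
  have h2 : Poly (fun a => 2 ^ g a) := upoly_pow2 hg
  have h2' : Poly (fun p : α × (ℕ × ℕ) => 2 ^ g p.1) := h2.comp (Poly.fst Poly.id)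
  obtain ⟨r, hr⟩ := Poly.sz_le hg
  have hgs : ∀ a, g a ≤ r.eval (sz a) := fun a => by
    have h3 := hr a
    have h4 := length_lt_sz (List.replicate (g a) ())
    rw [List.length_replicate] at h4
    omega
  refine Poly.fst (Poly.iterLen (l := fun a => List.range (g a))
    (s := fun a => ((1, o a % 2 ^ g a) : ℕ × ℕ)) (F := fun a s => invStep (g a) s) hg.range
    (Poly.pair (Poly.const 1) (Poly.mod ho h2)) ?_
    (Polynomial.C 8 * r + Polynomial.C 20) ?_)
  · exact Poly.pair (Poly.mod (Poly.mul (Poly.fst (Poly.snd Poly.id)) (Poly.snd (Poly.snd Poly.id)))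
      h2') (Poly.mod (Poly.mul (Poly.snd (Poly.snd Poly.id)) (Poly.snd (Poly.snd Poly.id))) h2')
  · intro a k _
    have hpos : 0 < 2 ^ g a := by positivity
    have key : ∀ k : ℕ, sz ((invStep (g a))^[k] (1, o a % 2 ^ g a)) ≤ 8 * g a + 20 := by
      intro k
      cases k with
      | zero =>
        have h5 := sz_lt_pow (Nat.mod_lt (o a) hpos)
        have h6 : sz (1 : ℕ) ≤ 5 := by
          have := sz_nat_le 1
          simpa using this
        simp only [Function.iterate_zero, id_eq, sz_pair]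
        omega
      | succ k =>
        rw [Function.iterate_succ_apply']
        generalize (invStep (g a))^[k] (1, o a % 2 ^ g a) = s
        have h5 := sz_lt_pow (Nat.mod_lt (s.1 * s.2) hpos)
        have h6 := sz_lt_pow (Nat.mod_lt (s.2 * s.2) hpos)
        simp only [invStep, sz_pair]
        omega
    refine (key k).trans ?_
    have := hgs a
    simp only [Polynomial.eval_add, Polynomial.eval_mul, Polynomial.eval_C]
    omega

theorem recover_poly {g e c1 c2 : α → ℕ} (hg : UPoly g) (he : UPoly e) (h1 : Poly c1)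
    (h2 : Poly c2) : Poly (fun a => recover (g a) (e a) (c1 a) (c2 a)) := by
  have ht := tz_u h2
  exact Poly.mod (Poly.mul (Poly.div h1 (upoly_pow2 (UPoly.add he ht)))
    (inv2_poly (Poly.div h2 (upoly_pow2 ht)) hg)) (upoly_pow2 hg)

theorem postC_poly {A : α → LL} {c1 c2 : α → ℕ} (hA : Poly A) (h1 : Poly c1) (h2 : Poly c2) :
    Poly (fun a => postC (A a) (c1 a) (c2 a)) :=
  Poly.cond (sqB_poly.comp hA) (Poly.cond (Poly.decide_eq (Poly.length hA) (Poly.const 0))
    (Poly.const 1) (Poly.cond (ndB_poly.comp hA)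
      (Poly.div (recover_poly (pg_u.comp hA) (pe_u.comp hA) h1 h2) (QF_poly.comp hA))
      (Poly.const 0))) (Poly.const 0)

end Post

end Pool.Agent.NPC.CG887
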