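import Pool.Agent.W887.CG.Inst2
import Pool.Agent.H549R2.Convex5

/-!
# Recovering a number modulo a power of two; the final computation
-/

namespace Pool.Agent.W887.CG

open Finset
open Pool.Agent.H549R2.Convex (ent F F_eq_card)

/-- number of trailing zeros -/
def tz (x : ℕ) : ℕ :=
  ((List.range x.size).filter fun k => decide (x % 2 ^ (min k x.size + 1) = 0)).length

theorem tz_eq {v o : ℕ} (ho : Odd o) : tz (2 ^ v * o) = v := by
  unfold tz
  have ho1 : 1 ≤ o := ho.pos
  have hsz : v < (2 ^ v * o).size := by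
    rw [Nat.lt_size]
    exact Nat.le_mul_of_pos_right _ ho1
  have h1 : ∀ k ∈ List.range (2 ^ v * o).size,
      decide ((2 ^ v * o) % 2 ^ (min k (2 ^ v * o).size + 1) = 0) = decide (k < v) := by
    intro k hk
    rw [List.mem_range] at hk
    rw [Nat.min_eq_left hk.le, decide_eq_decide]
    constructor
    · intro h
      by_contra hc
      have h2 : 2 ^ (k + 1) ∣ 2 ^ v * o := Nat.dvd_of_mod_eq_zero h
      have h3 : 2 ^ (v + 1) ∣ 2 ^ v * o := (pow_dvd_pow 2 (by omega)).trans h2
      rw [pow_succ] at h3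
      have h4 : 2 ∣ o := Nat.dvd_of_mul_dvd_mul_left (by positivity) h3
      rw [Nat.odd_iff] at ho
      omega
    · intro h
      apply Nat.mod_eq_zero_of_dvd
      exact (pow_dvd_pow 2 (by omega)).trans (Dvd.intro _ rfl)
  rw [List.filter_congr h1]
  have key : ∀ m n : ℕ, m ≤ n → ((List.range n).filter (fun k => decide (k < m))).length = m := by
    intro m n hmn
    have : (List.range n).filter (fun k => decide (k < m)) = List.range m := by
      obtain ⟨d, rfl⟩ := Nat.exists_eq_add_of_le hmn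
      rw [List.range_add, List.filter_append]
      have h1 : (List.range m).filter (fun k => decide (k < m)) = List.range m := by
        rw [List.filter_eq_self]
        intro k hk
        simpa using hk
      have h2 : ((List.range d).map (fun x => m + x)).filter (fun k => decide (k < m)) = [] := by
        rw [List.filter_eq_nil_iff]
        intro k hk
        simp at hk ⊢
        omega
      rw [h1, h2, List.append_nil]
    rw [this, List.length_range]
  exact key _ _ hsz.le

/-- one step of the inversion -/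
def invStep (g : ℕ) (s : ℕ × ℕ) : ℕ × ℕ := (s.1 * s.2 % 2 ^ g, s.2 * s.2 % 2 ^ g)

/-- the inverse of an odd number modulo `2 ^ g` -/
def inv2 (o g : ℕ) : ℕ := ((invStep g)^[(List.range g).length] (1, o % 2 ^ g)).1

theorem inv_iter (o g k : ℕ) : ∃ x y, (invStep g)^[k] (1, o % 2 ^ g) = (x, y) ∧
    x ≡ o ^ (2 ^ k - 1) [MOD 2 ^ g] ∧ y ≡ o ^ 2 ^ k [MOD 2 ^ g] := by
  induction k with
  | zero =>
    refine ⟨1, o % 2 ^ g, rfl, ?_, ?_⟩
    · simp only [pow_zero, Nat.sub_self]
      exact Nat.ModEq.refl 1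
    · simp only [pow_zero, pow_one]
      exact Nat.mod_modEq o (2 ^ g)
  | succ k ih =>
    obtain ⟨x, y, h, hx, hy⟩ := ih
    refine ⟨_, _, by rw [Function.iterate_succ_apply', h], ?_, ?_⟩
    · refine (Nat.mod_modEq _ _).trans ((hx.mul hy).trans ?_)
      rw [← pow_add]
      have h1 : 1 ≤ 2 ^ k := Nat.one_le_two_pow
      have : 2 ^ k - 1 + 2 ^ k = 2 ^ (k + 1) - 1 := by rw [pow_succ]; omega
      rw [this]
    · refine (Nat.mod_modEq _ _).trans ((hy.mul hy).trans ?_)
      rw [← pow_add, ← two_mul, ← pow_succ']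

theorem odd_pow (o : ℕ) (ho : Odd o) (k : ℕ) : (2 : ℤ) ^ k ∣ (o : ℤ) ^ 2 ^ k - 1 := by
  induction k with
  | zero => simp
  | succ k ih =>
    have h2 : (2 : ℤ) ∣ (o : ℤ) ^ 2 ^ k + 1 := by
      have h3 : Odd ((o : ℤ) ^ 2 ^ k) := by
        apply Odd.pow
        exact_mod_cast ho
      obtain ⟨z, hz⟩ := h3
      exact ⟨z + 1, by rw [hz]; ring⟩
    have e : (o : ℤ) ^ 2 ^ (k + 1) - 1 = ((o : ℤ) ^ 2 ^ k - 1) * ((o : ℤ) ^ 2 ^ k + 1) := by
      rw [pow_succ 2 k, pow_mul]; ring
    rw [e, pow_succ]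
    exact mul_dvd_mul ih h2

theorem inv2_spec {o : ℕ} (ho : Odd o) (g : ℕ) : o * inv2 o g ≡ 1 [MOD 2 ^ g] := by
  obtain ⟨x, y, h, hx, _⟩ := inv_iter o g (List.range g).length
  unfold inv2
  rw [h]
  rw [List.length_range] at hx
  refine ((Nat.ModEq.refl o).mul hx).trans ?_
  have h1 : 1 ≤ 2 ^ g := Nat.one_le_two_pow
  have e : o * o ^ (2 ^ g - 1) = o ^ 2 ^ g := by
    rw [← pow_succ']; congr 1; omega
  rw [e]
  have h2 := odd_pow o ho g
  symm
  rw [Nat.modEq_iff_dvd]
  push_cast
  exact h2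

/-- the recovery -/
def recover (g e C1 C2 : ℕ) : ℕ :=
  (C1 / 2 ^ (e + tz C2)) * inv2 (C2 / 2 ^ tz C2) g % 2 ^ g

theorem recover_eq {g e v o M : ℕ} {C1 C2 : ℕ} {r : ℤ} (ho : Odd o) (h2 : C2 = 2 ^ v * o)
    (h1 : (C1 : ℤ) = 2 ^ (e + v) * (M * o + 2 ^ g * r)) (hM : M < 2 ^ g) :
    recover g e C1 C2 = M := by
  have hv : tz C2 = v := by rw [h2]; exact tz_eq ho
  unfold recover
  rw [hv]
  have e2 : C2 / 2 ^ v = o := by
    rw [h2, Nat.mul_div_cancel_left _ (by positivity)]
  rw [e2]
  have hd : 2 ^ (e + v) ∣ C1 := by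
    have : ((2 : ℤ) ^ (e + v)) ∣ (C1 : ℤ) := Dvd.intro _ h1.symm
    exact_mod_cast this
  obtain ⟨c, hc⟩ := hd
  have e3 : C1 / 2 ^ (e + v) = c := by
    rw [hc, Nat.mul_div_cancel_left _ (by positivity)]
  rw [e3]
  have hcz : (c : ℤ) = M * o + 2 ^ g * r := by
    have hne : ((2 : ℤ) ^ (e + v)) ≠ 0 := by positivity
    apply mul_left_cancel₀ hne
    rw [← h1, hc]
    push_cast
    ring
  have hcm : c ≡ M * o [MOD 2 ^ g] := by
    symm
    rw [Nat.modEq_iff_dvd]
    push_cast
    exact ⟨r, by rw [hcz]; ring⟩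
  have h4 : c * inv2 o g ≡ M [MOD 2 ^ g] := by
    refine (hcm.mul_right _).trans ?_
    rw [mul_assoc]
    have := (Nat.ModEq.refl M).mul (inv2_spec ho g)
    rwa [mul_one] at this
  rw [h4, Nat.mod_eq_of_lt hM]

/-- test for nonzero rows and columns -/
def ndB (A : List (List Bool)) : Bool :=
  ((List.range A.length).all fun i => (List.range A.length).any fun j => ent A i j) &&
    ((List.range A.length).all fun j => (List.range A.length).any fun i => ent A i j)

theorem ndB_iff (A : List (List Bool)) : ndB A = true ↔ NonDeg A := by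
  simp [ndB, NonDeg]

theorem F_nondeg {A : List (List Bool)} (hsq : ∀ r ∈ A, r.length = A.length) (h : ¬ NonDeg A) :
    F A = 0 := by
  classical
  rw [F_eq_card A hsq, Finset.card_eq_zero, Finset.filter_eq_empty_iff]
  intro σ _ hσ
  apply h
  constructor
  · intro i hi
    refine ⟨(σ.symm ⟨i, hi⟩).val, (σ.symm ⟨i, hi⟩).2, ?_⟩
    have := hσ (σ.symm ⟨i, hi⟩)
    rwa [Equiv.apply_symm_apply] at this
  · intro j hj
    exact ⟨(σ ⟨j, hj⟩).val, (σ ⟨j, hj⟩).2, hσ ⟨j, hj⟩⟩

theorem F_empty {A : List (List Bool)} (h : A.length = 0) : F A = 1 := by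
  have h1 : A = [] := List.length_eq_zero_iff.1 h
  subst h1
  rw [F_eq_card [] (by simp)]
  simp

/-- the final computation -/
def postC (A : List (List Bool)) (c1 c2 : ℕ) : ℕ :=
  bif Pool.Agent.NPC.H549Convex.sqB A then
    (bif decide (A.length = 0) then 1 else
      bif ndB A then recover (pg A) (pe A) c1 c2 / QF A else 0)
  else 0

theorem postC_correct (A : List (List Bool)) :
    postC A (numConn (gr (cg1 A))) (numConn (gr (cg2 A))) = F A := by
  unfold postC
  have hsqB : Pool.Agent.NPC.H549Convex.sqB A = true ↔ ∀ r ∈ A, r.length = A.length := by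
    simp [Pool.Agent.NPC.H549Convex.sqB]
  by_cases hsq : ∀ r ∈ A, r.length = A.length
  · rw [hsqB.2 hsq, cond_true]
    by_cases h0 : A.length = 0
    · rw [decide_eq_true h0, cond_true, F_empty h0]
    · rw [decide_eq_false h0, cond_false]
      by_cases hn : NonDeg A
      · rw [(ndB_iff A).2 hn, cond_true]
        obtain ⟨v, o, ho, h2, r, h1⟩ := inst hsq hn (Nat.pos_of_ne_zero h0)
        have hM : QF A * F A < 2 ^ pg A := by
          rw [← card_PP_eq hsq hn]
          exact card_PP_le A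
        rw [recover_eq ho h2 h1 hM, Nat.mul_div_cancel_left _ (QF_pos A)]
      · have : ndB A = false := by
          rw [← Bool.not_eq_true, ndB_iff]; exact hn
        rw [this, cond_false, F_nondeg hsq hn]
  · have : Pool.Agent.NPC.H549Convex.sqB A = false := by
      rw [← Bool.not_eq_true, hsqB]; exact hsq
    rw [this, cond_false, F, if_neg hsq]

end Pool.Agent.W887.CG
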