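import Pool.Agent.W887.CG.Main

/-!
# Shape of the graphs, and the Tutte polynomial
-/

namespace Pool.Agent.W887.CG

/-- `G` is the join of a complete multipartite graph (on the set `S`) and a disjoint union of
complete graphs (on the complement of `S`). -/
def IsMultiJoin {V : Type*} (G : SimpleGraph V) : Prop :=
  ∃ S : Set V, (∀ u ∈ S, ∀ v, v ∉ S → G.Adj u v) ∧
    (∀ u ∈ S, ∀ v ∈ S, ∀ w ∈ S, ¬ G.Adj u v → ¬ G.Adj v w → ¬ G.Adj u w) ∧
    (∀ u, u ∉ S → ∀ v, v ∉ S → ∀ w, w ∉ S → u ≠ w → G.Adj u v → G.Adj v w → G.Adj u w)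

theorem isCograph_of_isMultiJoin {V : Type*} {G : SimpleGraph V} (h : IsMultiJoin G) :
    IsCograph G := by
  obtain ⟨S, h1, h2, h3⟩ := h
  refine ⟨fun f => ?_⟩
  have key : ∀ a b : Fin 4, G.Adj (f a) (f b) ↔ (SimpleGraph.pathGraph 4).Adj a b :=
    fun a b => f.map_rel_iff
  have k01 := (key 0 1).2 (by rw [SimpleGraph.pathGraph_adj]; decide)
  have k12 := (key 1 2).2 (by rw [SimpleGraph.pathGraph_adj]; decide)
  have k23 := (key 2 3).2 (by rw [SimpleGraph.pathGraph_adj]; decide)
  have k02 : ¬ G.Adj (f 0) (f 2) := by rw [key, SimpleGraph.pathGraph_adj]; decide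
  have k03 : ¬ G.Adj (f 0) (f 3) := by rw [key, SimpleGraph.pathGraph_adj]; decide
  have k13 : ¬ G.Adj (f 1) (f 3) := by rw [key, SimpleGraph.pathGraph_adj]; decide
  have hne : f 0 ≠ f 2 := fun h => absurd (f.injective h) (by decide)
  have hS : ∀ u v, ¬ G.Adj u v → u ∈ S → v ∈ S := by
    intro u v huv hu
    by_contra hv
    exact huv (h1 u hu v hv)
  by_cases h0 : f 0 ∈ S
  · have s2 := hS _ _ k02 h0
    have s3 := hS _ _ k03 h0
    exact h2 _ s2 _ h0 _ s3 (fun h => k02 h.symm) k03 k23
  · have s2 : f 2 ∉ S := fun h => h0 (hS _ _ (fun h => k02 h.symm) h)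
    have s3 : f 3 ∉ S := fun h => h0 (hS _ _ (fun h => k03 h.symm) h)
    have s1 : f 1 ∉ S := fun h => s3 (hS _ _ k13 h)
    exact k02 (h3 _ h0 _ s1 _ s2 hne k01 k12)

theorem isMultiJoin_matL (L : List Lab) (hnd : L.Nodup) (hs : ∀ u ∈ L, u.1 ≤ 1) :
    IsMultiJoin (gr (matL L)) := by
  have hA := isAdj_matL L
  have hlen : ∀ i : Fin (matL L).length, i.val < L.length := fun i =>
    lt_of_lt_of_eq i.2 (length_matL L)
  have key : ∀ i j : Fin (matL L).length, (gr (matL L)).Adj i j ↔
      adjL (L[i.val]'(hlen i)) (L[j.val]'(hlen j)) = true := by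
    intro i j
    rw [gr_adj hA, ent_matL L (hlen i) (hlen j)]
  refine ⟨{i | (L[i.val]'(hlen i)).1 = 0}, ?_, ?_, ?_⟩
  · intro u hu v hv
    rw [key]
    have hu' : (L[u.val]'(hlen u)).1 = 0 := hu
    have hv' : ¬ (L[v.val]'(hlen v)).1 = 0 := hv
    simp [adjL, hu', hv']
  · intro u hu v hv w hw huv hvw
    rw [key] at *
    have hu' : (L[u.val]'(hlen u)).1 = 0 := hu
    have hv' : (L[v.val]'(hlen v)).1 = 0 := hv
    have hw' : (L[w.val]'(hlen w)).1 = 0 := hw
    simp only [adjL, hu', hv', hw', and_self, if_true, decide_eq_true_eq, not_not] at *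
    rw [huv, hvw]
  · intro u hu v hv w hw huw huv hvw
    rw [key] at *
    have hu' : ¬ (L[u.val]'(hlen u)).1 = 0 := hu
    have hv' : ¬ (L[v.val]'(hlen v)).1 = 0 := hv
    have hw' : ¬ (L[w.val]'(hlen w)).1 = 0 := hw
    have hu1 := hs _ (List.getElem_mem (hlen u))
    have hw1 := hs _ (List.getElem_mem (hlen w))
    have hne : L[u.val]'(hlen u) ≠ L[w.val]'(hlen w) := by
      intro h
      exact huw (Fin.ext ((hnd.getElem_inj_iff).1 h))
    generalize L[u.val]'(hlen u) = a at *
    generalize L[v.val]'(hlen v) = b at *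
    generalize L[w.val]'(hlen w) = c at *
    obtain ⟨a1, a2, a3⟩ := a
    obtain ⟨b1, b2, b3⟩ := b
    obtain ⟨c1, c2, c3⟩ := c
    simp only [adjL] at *
    rw [if_neg (by tauto), if_neg (by tauto), decide_eq_true_eq] at huv hvw ⊢
    refine ⟨huv.1.trans hvw.1, fun h => hne ?_⟩
    have e1 : a1 = c1 := by omega
    rw [e1, huv.1, hvw.1, h]

theorem isMultiJoin_matG (parts cliques : List ℕ) : IsMultiJoin (gr (matG parts cliques)) := by
  refine isMultiJoin_matL _ ?_ fun u hu => ?_
  · rw [List.nodup_append']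
    refine ⟨nodup_labs _ _, nodup_labs _ _, ?_⟩
    rw [List.disjoint_left]
    intro u h1 h2
    rw [mem_labs] at h1 h2
    omega
  · rw [List.mem_append, mem_labs, mem_labs] at hu
    omega

theorem connected_matL (L : List Lab) (h0 : ∃ u ∈ L, u.1 = 0) (h1 : ∃ u ∈ L, u.1 ≠ 0) :
    (gr (matL L)).Connected := by
  have hA := isAdj_matL L
  have hlen : ∀ i : Fin (matL L).length, i.val < L.length := fun i =>
    lt_of_lt_of_eq i.2 (length_matL L)
  have key : ∀ i j : Fin (matL L).length, (gr (matL L)).Adj i j ↔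
      adjL (L[i.val]'(hlen i)) (L[j.val]'(hlen j)) = true := by
    intro i j
    rw [gr_adj hA, ent_matL L (hlen i) (hlen j)]
  obtain ⟨u, hu, hu0⟩ := h0
  obtain ⟨w, hw, hw1⟩ := h1
  obtain ⟨i, hi, rfl⟩ := List.mem_iff_getElem.1 hu
  obtain ⟨j, hj, rfl⟩ := List.mem_iff_getElem.1 hw
  have hi' : i < (matL L).length := by rw [length_matL]; exact hi
  have hj' : j < (matL L).length := by rw [length_matL]; exact hj
  have hij : (gr (matL L)).Adj ⟨i, hi'⟩ ⟨j, hj'⟩ := by
    rw [key]
    simp [adjL, hu0, hw1]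
  have hall : ∀ v, (gr (matL L)).Reachable v ⟨i, hi'⟩ := by
    intro v
    by_cases hv : (L[v.val]'(hlen v)).1 = 0
    · have h2 : (gr (matL L)).Adj v ⟨j, hj'⟩ := by
        rw [key]
        simp [adjL, hv, hw1]
      exact h2.reachable.trans hij.symm.reachable
    · have h2 : (gr (matL L)).Adj v ⟨i, hi'⟩ := by
        rw [key]
        simp [adjL, hv, hu0]
      exact h2.reachable
  have : Nonempty (Fin (matL L).length) := ⟨⟨i, hi'⟩⟩
  exact SimpleGraph.Connected.mk fun u v => (hall u).trans (hall v).symm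

theorem connected_matG {parts cliques : List ℕ} (h0 : ∃ p < parts.length, 0 < parts.getD p 0)
    (h1 : ∃ p < cliques.length, 0 < cliques.getD p 0) : (gr (matG parts cliques)).Connected := by
  obtain ⟨p, hp, hp0⟩ := h0
  obtain ⟨q, hq, hq0⟩ := h1
  exact connected_matL _ ⟨(0, p, 0), List.mem_append_left _ (mem_labs.2 ⟨rfl, hp, hp0⟩), rfl⟩
    ⟨(1, q, 0), List.mem_append_right _ (mem_labs.2 ⟨rfl, hq, hq0⟩), by simp⟩

theorem pt_pos (A : List (List Bool)) : 0 < pt A := by
  unfold pt
  omega

theorem pB_pos (A : List (List Bool)) : 0 < pB A := by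
  have h1 : 0 < Bc A.length := by
    simp only [Bc, Hc, Sc]
    omega
  exact Nat.mul_pos (pt_pos A) h1

theorem exists_clq (A : List (List Bool)) : ∃ p < (clqs A).length, 0 < (clqs A).getD p 0 := by
  have h1 : 0 < pb A := by
    have := pt_pos A
    unfold pb
    omega
  have h2 : 0 < JA (pI A) := by
    unfold JA
    have : 0 < 4 ^ pI A := by positivity
    omega
  refine ⟨0, by unfold clqs; simp; omega, ?_⟩
  unfold clqs
  rw [List.getD_append _ _ _ _ (by simpa using h1),
    List.getD_eq_getElem _ _ (by simpa using h1)]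
  simpa using h2

theorem connected_cg1 (A : List (List Bool)) : (gr (cg1 A)).Connected := by
  refine connected_matG ?_ (exists_clq A)
  obtain ⟨idx, hidx⟩ := exists_idx1 A
  have hd : 0 < pd A := by
    have h1 : pK A < 2 ^ (pK A).size := Nat.lt_size_self _
    have h2 : 2 ^ (pK A).size ≤ 4 ^ (pK A).size := Nat.pow_le_pow_left (by norm_num) _
    unfold pd pk0 KZ pI
    omega
  refine ⟨(idx (.inl (.inr ⟨0, hd⟩))).val, (idx (.inl (.inr ⟨0, hd⟩))).2, ?_⟩
  rw [hidx]
  exact pB_pos A

theorem connected_cg2 (A : List (List Bool)) : (gr (cg2 A)).Connected := by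
  refine connected_matG ?_ (exists_clq A)
  have hk : 0 < pk0 A := by
    unfold pk0 KZ
    omega
  refine ⟨0, by simpa [parts2] using hk, ?_⟩
  unfold parts2
  rw [List.getD_eq_getElem _ _ (by simpa using hk)]
  simpa using pB_pos A

/-- The value at `(x, y)` of the Tutte polynomial of a finite graph `G`: the sum over all spanning
subgraphs `H` of `(x - 1)^(k(H) - k(G)) * (y - 1)^(|E(H)| + k(H) - |V|)`. -/
noncomputable def tutte {V : Type*} (G : SimpleGraph V) (x y : ℤ) : ℤ :=
  ∑ᶠ H : {H : SimpleGraph V // H ≤ G},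
    (x - 1) ^ (Nat.card H.1.ConnectedComponent - Nat.card G.ConnectedComponent) *
      (y - 1) ^ (Nat.card H.1.edgeSet + Nat.card H.1.ConnectedComponent - Nat.card V)

theorem card_comp_connected {V : Type*} {G : SimpleGraph V} (h : G.Connected) :
    Nat.card G.ConnectedComponent = 1 := by
  have h1 := h.preconnected.subsingleton_connectedComponent
  have h2 := h.nonempty
  exact Nat.card_unique

theorem card_comp_not_connected {V : Type*} [Finite V] [Nonempty V] {G : SimpleGraph V}
    (h : ¬ G.Connected) : 1 < Nat.card G.ConnectedComponent := by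
  by_contra hc
  apply h
  have h1 : Subsingleton G.ConnectedComponent := by
    rw [← Finite.card_le_one_iff_subsingleton]
    omega
  exact SimpleGraph.Connected.mk fun u v =>
    SimpleGraph.ConnectedComponent.exact (Subsingleton.elim _ _)

/-- **The number of connected spanning subgraphs of a connected graph is the value of its Tutte
polynomial at `(1, 2)`.** -/
theorem tutte_one_two {V : Type*} [Finite V] {G : SimpleGraph V} (hG : G.Connected) :
    tutte G 1 2 = numConn G := by
  classical
  have hne := hG.nonempty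
  have hfin : Finite {H : SimpleGraph V // H ≤ G} := by
    have := Fintype.ofFinite V
    infer_instance
  have := Fintype.ofFinite {H : SimpleGraph V // H ≤ G}
  unfold tutte numConn
  rw [finsum_eq_sum_of_fintype, card_comp_connected hG]
  have h1 : ∀ H : {H : SimpleGraph V // H ≤ G},
      ((1 : ℤ) - 1) ^ (Nat.card H.1.ConnectedComponent - 1) *
        (2 - 1) ^ (Nat.card H.1.edgeSet + Nat.card H.1.ConnectedComponent - Nat.card V) =
        if H.1.Connected then 1 else 0 := by
    intro H
    split_ifs with h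
    · rw [card_comp_connected h]
      norm_num
    · have h2 := card_comp_not_connected h
      rw [sub_self, zero_pow (by omega), zero_mul]
  rw [Finset.sum_congr rfl fun H _ => h1 H, Finset.sum_boole]
  congr 1
  rw [← Fintype.card_subtype, ← Nat.card_eq_fintype_card]
  exact Nat.card_congr (Equiv.subtypeSubtypeEquivSubtypeInter _ _)

end Pool.Agent.W887.CG

namespace Pool.Agent.NPC.CG887

open Pool.Agent.H549R2.Convex (ent F)
open Pool.Agent.NPC.Cnt Pool.Agent.W887.CG
open Pool.Agent.NPC.H549Convex (LL)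
open Pool.Agent.NPC.H549NRed (NRed nred_sat)

/-- the 0-1 permanent reduces to the numbers of connected spanning subgraphs of joins of complete
multipartite graphs with disjoint unions of cliques -/
theorem nred_mj : NRed (fun _ : LL => True) F
    (fun B : LL => IsAdj B ∧ IsMultiJoin (gr B) ∧ (gr B).Connected)
    (fun B => numConn (gr B)) := by
  refine ⟨fun A => [cg1 A, cg2 A], fun p => postC p.1 (p.2.getD 0 0) (p.2.getD 1 0), ?_, ?_, ?_⟩
  · exact Poly.cons cg1_poly (Poly.cons cg2_poly (Poly.const []))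
  · exact postC_poly (Poly.fst Poly.id)
      (Poly.getD (Poly.snd Poly.id) (Poly.const 0) (Poly.const 0))
      (Poly.getD (Poly.snd Poly.id) (Poly.const 1) (Poly.const 0))
  · intro A _
    refine ⟨?_, postC_correct A⟩
    intro B hB
    rw [List.mem_cons, List.mem_singleton] at hB
    rcases hB with rfl | rfl
    · exact ⟨isAdj_matL _, isMultiJoin_matG _ _, connected_cg1 A⟩
    · exact ⟨isAdj_matL _, isMultiJoin_matG _ _, connected_cg2 A⟩

theorem nred_sat_mj : NRed (fun _ : CNF ℕ => True) (fun φ => satCount φ)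
    (fun B : LL => IsAdj B ∧ IsMultiJoin (gr B) ∧ (gr B).Connected) (fun B => numConn (gr B)) :=
  nred_sat.comp nred_mj

end Pool.Agent.NPC.CG887
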